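import Pool.Agent.E8helper53.GS.Fib

/-!
# Nonvanishing modulo `p`
-/

set_option autoImplicit false

namespace Pool.Agent.E8helper53.GS

open Finset Polynomial Pool.Agent.Y18.GX Pool.Agent.E8helper53.GR

lemma Dat.Theta_neg {M M' L q : ℕ} [NeZero M] (D : Dat M M' L q) (hq : Even (q - 1)) (Θ : ℕ → (ZMod M)ˣ → ℂ)
    (h4 : ∀ ℓ, ℓ.Prime → ℓ ∣ M → ∀ (ι : Type) (s : Finset ι) (c : ι → ℤ) (y : ι → (ZMod M)ˣ),
      (∀ j ∈ s, y j ∈ HH M q) → (M' : ℤ) ∣ ∑ j ∈ s, c j * (vv (y j) : ℤ) →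
      (∑ j ∈ s, |c j|) ^ (ℓ - 1).totient < ((ℓ ^ M'.factorization ℓ : ℕ) : ℤ) →
      ∑ j ∈ s, (c j : ℂ) * Θ ℓ (y j) = 0)
    {ℓ : ℕ} (hℓ : ℓ.Prime) (hd : ℓ ∣ M) (hsize : 2 ^ (ℓ - 1).totient < ℓ ^ M'.factorization ℓ)
    {h : (ZMod M)ˣ} (hh : h ∈ HH M q) : Θ ℓ (-h) = -Θ ℓ h := by
  have h1 := h4 ℓ hℓ hd Bool univ (fun _ => 1) (fun b => if b then h else -h) (by
    intro j _
    cases j
    · simpa using neg_mem_HH hq hh
    · simpa using hh) (by
    simp only [Fintype.univ_bool, mem_singleton, Bool.true_eq_false, not_false_eq_true, sum_insert,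
      sum_singleton, if_true, one_mul]
    have h2 : (((vv h : ℤ) + (vv (-h) : ℤ) : ℤ) : ZMod M) = 0 := by
      push_cast
      rw [vv_cast, vv_cast]
      simp
    rw [ZMod.intCast_zmod_eq_zero_iff_dvd] at h2
    have h3 : (M' : ℤ) ∣ (M : ℤ) := by exact_mod_cast D.M'dvd
    exact h3.trans (by simpa using h2)) (by
    simp only [abs_one, sum_const, card_univ, Fintype.card_bool, nsmul_eq_mul]
    exact_mod_cast hsize)
  simp only [Fintype.univ_bool, mem_singleton, Bool.true_eq_false, not_false_eq_true, sum_insert,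
      sum_singleton, if_true, Int.cast_one, one_mul] at h1
  simp only [Bool.false_eq_true, if_false] at h1
  linear_combination h1

lemma prod_addChar {ι R k : Type*} [CommRing R] [Field k] (e : AddChar R k) (J : Finset ι) (f : ι → R) :
    ∏ i ∈ J, e (f i) = e (∑ i ∈ J, f i) := by
  classical
  induction J using Finset.induction_on with
  | empty => simp
  | insert a s ha ih => rw [Finset.prod_insert ha, Finset.sum_insert ha, AddChar.map_add_eq_mul, ih]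

section
variable {k : Type*} [Field k] {p : ℕ} [Fact p.Prime] [CharP k p]

theorem core_gs {N₁ M M' L g m : ℕ} [NeZero M] (D : Dat M M' L (p ^ g)) (hM1 : M ≠ 1) (hp2 : p ≠ 2)
    (ψ₁ : MulChar (ZMod N₁) k) (ψ : MulChar (ZMod M) k) (hψ₁ : ∀ x, ψ₁ x ^ p ^ g = ψ₁ x)
    (hprim : ∀ ℓ, ℓ.Prime → ℓ ∣ M → ψ ((1 + M / ℓ : ℕ) : ZMod M) ≠ 1)
    (e : AddChar (ZMod M) k) (he : e.IsPrimitive) (hcop : N₁.Coprime M) (hN0 : N₁ ≠ 0) (hpN : ¬ p ∣ N₁)
    (hpar : ψ₁ (-1) * ψ (-1) = (-1) ^ m) (hm1 : 1 ≤ m) (hmp : m < p)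
    (hsize : ∀ ℓ, ℓ.Prime → ℓ ∣ M → (2 * (N₁ * p * L) * L) ^ (ℓ - 1).totient < ℓ ^ M'.factorization ℓ) :
    ∑ x ∈ range (N₁ * M), ψ₁ (x : ZMod N₁) * ψ (x : ZMod M) *
      aeval ((x : k) / (N₁ * M : ℕ)) (FF m) ≠ 0 := by
  classical
  intro hS
  have hp := (Fact.out : p.Prime)
  have hnk : ∀ n : ℕ, ¬ p ∣ n → ((n : ℕ) : k) ≠ 0 := fun n hn h =>
    hn ((CharP.cast_eq_zero_iff k p n).1 h)
  have hpM : ¬ p ∣ M := by
    intro h
    have h1 := (D.good p hp h).1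
    have hg : g ≠ 0 := by
      rintro rfl
      have := D.q1
      simp at this
    have h2 : p ∣ p ^ g := dvd_pow_self p hg
    have h3 := (Nat.modEq_zero_iff_dvd.2 h2).symm.trans h1
    have h4 := (Nat.modEq_iff_dvd' (by norm_num)).1 h3
    exact hp.one_lt.ne' (Nat.dvd_one.1 h4)
  have hLM : L ∣ M := ⟨M', by rw [mul_comm, ← D.fac]⟩
  have hpL : ¬ p ∣ L := fun h => hpM (h.trans hLM)
  have hpM' : ¬ p ∣ M' := fun h => hpM (h.trans D.M'dvd)
  have hMk := hnk M hpM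
  have hLk := hnk L hpL
  have hM'k := hnk M' hpM'
  have hN₁k := hnk N₁ hpN
  have hNk : ((N₁ * M : ℕ) : k) ≠ 0 := by
    push_cast
    exact mul_ne_zero hN₁k hMk
  have h2k : (2 : k) ≠ 0 := by
    have := hnk 2 (fun h => hp2 (((Nat.prime_dvd_prime_iff_eq hp Nat.prime_two).1 h)))
    exact_mod_cast this
  have hpodd : Odd p := hp.odd_of_ne_two hp2
  have hqe : Even (p ^ g - 1) := by
    obtain ⟨w, hw⟩ := hpodd.pow (n := g)
    exact ⟨w, by omega⟩
  have hpar' : ψ₁ (-1) * ψ (-1) = (-1) ^ m := hpar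
  obtain ⟨ℓ₁, hℓ₁, hd₁⟩ := Nat.exists_prime_and_dvd hM1
  have hL0 : 0 < L := Nat.pos_of_ne_zero D.L0
  have hNL : NeZero L := ⟨D.L0⟩
  set E := N₁ * p * L with hE
  have hE0 : 0 < E := Nat.mul_pos (Nat.mul_pos (Nat.pos_of_ne_zero hN0) hp.pos) hL0
  have hEk : ((E : ℕ) : k) = 0 := by
    rw [CharP.cast_eq_zero_iff k p]
    exact ⟨N₁ * L, by rw [hE]; ring⟩
  -- the relations
  have hA := relA (N := N₁ * M) ψ₁ ψ (fun ℓ hℓ hd => D.two_le hℓ hd) hprim (FF m) e hS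
  have hB := relB D ψ₁ hψ₁ ψ hprim (FF m) e hMk hA
  -- the complex lifts
  obtain ⟨Θ, hΘ1, hΘ2, hΘ3, hΘ4⟩ := D.exists_Theta
  obtain ⟨τ, hτ⟩ := exists_tau ((HH M (p ^ g)).image (Θ ℓ₁)) (by
    intro z hz
    rw [mem_image] at hz
    obtain ⟨h, hh, rfl⟩ := hz
    intro h0
    have := hΘ1 ℓ₁ hℓ₁ hd₁ h hh
    rw [h0, norm_zero] at this
    exact zero_ne_one this)
  have hsize2 : 2 ^ (ℓ₁ - 1).totient < ℓ₁ ^ M'.factorization ℓ₁ := by
    refine lt_of_le_of_lt (Nat.pow_le_pow_left ?_ _) (hsize ℓ₁ hℓ₁ hd₁)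
    have : 1 ≤ E * L := Nat.mul_pos hE0 hL0
    calc 2 = 2 * 1 := by norm_num
      _ ≤ 2 * (E * L) := Nat.mul_le_mul_left _ this
      _ = 2 * E * L := by ring
  set lam : (ZMod M)ˣ → ℝ := fun h => (τ * Θ ℓ₁ h).re with hlam
  have hl0 : ∀ h ∈ HH M (p ^ g), lam h ≠ 0 := fun h hh => hτ _ (mem_image_of_mem _ hh)
  have hln : ∀ h ∈ HH M (p ^ g), lam (-h) = -lam h := by
    intro h hh
    simp only [hlam]
    rw [D.Theta_neg hqe Θ hΘ4 hℓ₁ hd₁ hsize2 hh, mul_neg, Complex.neg_re]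
  have hlc : ∀ h ∈ HH M (p ^ g), ∀ h' ∈ HH M (p ^ g), vv h ≡ vv h' [MOD M'] → lam h = lam h' := by
    intro h _ h' _ hc
    simp only [hlam]
    rw [hΘ2 ℓ₁ hℓ₁ hd₁ h h' hc]
  have hC : ∀ c : (ZMod M)ˣ, ∑ h ∈ (HH M (p ^ g)).filter (fun h => 0 < lam h),
      (ψ⁻¹ : MulChar (ZMod M) k) h * GG ψ₁ (FF m) (N₁ * M) (e (c * h)) = 0 := fun c =>
    D.relC ψ₁ ψ hℓ₁ hd₁ (hprim ℓ₁ hℓ₁ hd₁) (FF m) _ (fun x => FF_aeval_refl m x) (FF_zero m) e he h2k hNk hcop
      hpar' hqe c (hB c) lam hl0 hln hlc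
  -- the keys
  set key : (ZMod M)ˣ → ZMod L := fun h => ((vv h : ℕ) : ZMod L) with hkey
  set Hp := (HH M (p ^ g)).filter (fun h => 0 < lam h) with hHp
  set T : Finset (ZMod L) := Hp.image key with hT
  have hex : ∀ t ∈ T, ∃ h, h ∈ Hp ∧ key h = t := by
    intro t ht
    rw [hT, mem_image] at ht
    exact ht
  choose! ρ hρHp hρkey using hex
  have hρH : ∀ t ∈ T, ρ t ∈ HH M (p ^ g) := fun t ht => (mem_filter.1 (hρHp t ht)).1
  have hρpos : ∀ t ∈ T, 0 < lam (ρ t) := fun t ht => (mem_filter.1 (hρHp t ht)).2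
  set fib : ZMod L → Finset (ZMod M)ˣ := fun t => (HH M (p ^ g)).filter (fun h => key h = t) with hfib
  have hfc : ∀ t ∈ T, ∀ h ∈ fib t, vv h ≡ vv (ρ t) [MOD M'] := by
    intro t ht h hh
    rw [hfib, mem_filter] at hh
    refine D.keyeq hh.1 (hρH t ht) ?_
    rw [← ZMod.natCast_eq_natCast_iff]
    exact hh.2.trans (hρkey t ht).symm
  have hfeq : ∀ t ∈ T, Hp.filter (fun h => key h = t) = fib t := by
    intro t ht
    ext h
    rw [mem_filter, hHp, mem_filter]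
    constructor
    · rintro ⟨⟨h1, -⟩, h2⟩
      exact mem_filter.2 ⟨h1, h2⟩
    · intro h1
      have h2 := hfc t ht h h1
      rw [hfib, mem_filter] at h1
      refine ⟨⟨h1.1, ?_⟩, h1.2⟩
      rw [hlc h h1.1 (ρ t) (hρH t ht) h2]
      exact hρpos t ht
  have hC' : ∀ c : (ZMod M)ˣ, ∑ t ∈ T, ∑ h ∈ fib t,
      (ψ⁻¹ : MulChar (ZMod M) k) h * GG ψ₁ (FF m) (N₁ * M) (e (c * h)) = 0 := by
    intro c
    rw [← hC c, ← Finset.sum_fiberwise_of_maps_to (t := T) (g := key) (fun h hh => mem_image_of_mem _ hh)]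
    refine Finset.sum_congr rfl fun t ht => ?_
    rw [hfeq t ht]
  -- the coefficients
  set a : ZMod L → ℕ → k := fun t x => ψ₁ (x : ZMod N₁) *
      (aeval ((x : k) / (N₁ * M : ℕ) + 1) (FF m) - aeval ((x : k) / (N₁ * M : ℕ)) (FF m)) *
      ∑ h ∈ fib t, (ψ⁻¹ : MulChar (ZMod M) k) h * e ((x : ZMod M) * ((h : ZMod M) - ρ t)) with ha
  set s : ZMod L → Finset (ZMod L) → k := fun t J => ∏ _i ∈ (T.erase t) \ J, (-1 : k) with hs
  set Ex : ZMod L → Finset (ZMod L) → ℕ → ZMod M := fun t J x =>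
    (x : ZMod M) * ρ t + E * ∑ t' ∈ J, (ρ t' : ZMod M) with hEx
  have hz : ∀ z : ℕ, ∑ t ∈ T, ∑ J ∈ (T.erase t).powerset, ∑ x ∈ range E,
      s t J * a t x * e ((1 + (L : ZMod M) * z) * Ex t J x) = 0 := by
    intro z
    obtain ⟨c, hc⟩ := D.exists_c z
    have h1 : (∏ t' ∈ T, (e (c * ρ t') ^ E - 1)) * ∑ t ∈ T, ∑ h ∈ fib t,
      (ψ⁻¹ : MulChar (ZMod M) k) h * GG ψ₁ (FF m) (N₁ * M) (e (c * h)) = 0 := by
      rw [hC' c, mul_zero]
    rw [Finset.mul_sum] at h1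
    rw [← h1]
    refine Finset.sum_congr rfl fun t ht => ?_
    have h2 := D.fib_sum (N := N₁ * M) (E := E) (z := z) ψ₁ ψ e (FF m) (dvd_mul_right _ _) (dvd_mul_left _ _)
      ⟨p * L, by rw [hE]; ring⟩ ⟨N₁ * p, by rw [hE]; ring⟩ hNk hEk (fib t) (ρ t) c (hfc t ht) hc
    rw [← Finset.mul_prod_erase T _ ht, mul_right_comm, h2]
    have h3 : ∏ t' ∈ T.erase t, (e (c * ρ t') ^ E - 1) = ∑ J ∈ (T.erase t).powerset,
        s t J * e ((1 + (L : ZMod M) * z) * (E * ∑ t' ∈ J, (ρ t' : ZMod M))) := by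
      have h4 : ∀ t', e (c * ρ t') ^ E - 1 = e (c * ρ t') ^ E + (-1) := fun t' => by ring
      simp only [h4]
      rw [Finset.prod_add]
      refine Finset.sum_congr rfl fun J _ => ?_
      rw [mul_comm]
      congr 1
      have h5 : ∀ t', e (c * ρ t') ^ E = e ((E : ZMod M) * (c * ρ t')) := by
        intro t'
        rw [← AddChar.map_nsmul_eq_pow, nsmul_eq_mul]
      simp only [h5]
      rw [prod_addChar]
      congr 1
      rw [← hc, Finset.mul_sum, Finset.mul_sum]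
      refine Finset.sum_congr rfl fun t' _ => ?_
      ring
    rw [h3, Finset.sum_mul_sum]
    symm
    rw [Finset.sum_comm]
    refine Finset.sum_congr rfl fun J _ => ?_
    refine Finset.sum_congr rfl fun x _ => ?_
    have h6 : e ((1 + (L : ZMod M) * z) * Ex t J x) =
        e ((1 + (L : ZMod M) * z) * (E * ∑ t' ∈ J, (ρ t' : ZMod M))) *
        e ((1 + (L : ZMod M) * z) * ((x : ZMod M) * ρ t)) := by
      rw [← AddChar.map_add_eq_mul, hEx]
      congr 1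
      ring
    rw [h6, ha]
    ring
  -- a nonzero coefficient
  have hb : ∀ x : ℕ, ¬ p ∣ x ∨ m = 1 →
      aeval ((x : k) / (N₁ * M : ℕ) + 1) (FF m) - aeval ((x : k) / (N₁ * M : ℕ)) (FF m) ≠ 0 := by
    intro x hx
    rw [FF_aeval_diff]
    refine mul_ne_zero (hnk _ ?_) ?_
    · intro h
      rcases (hp.dvd_mul).1 h with h | h
      · have := (hp.dvd_factorial).1 h
        omega
      · have := Nat.le_of_dvd (by omega) h
        omega
    · rcases hx with hx | hx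
      · exact pow_ne_zero _ (div_ne_zero (hnk x hx) hNk)
      · rw [hx, Nat.sub_self, pow_zero]
        exact one_ne_zero
  set P := (T ×ˢ range E).filter (fun tx => a tx.1 tx.2 ≠ 0) with hP
  have hPne : P.Nonempty := by
    -- `T` is nonempty
    have h1 : ∃ h₀, h₀ ∈ Hp := by
      have h2 : (1 : (ZMod M)ˣ) ∈ HH M (p ^ g) := by
        rw [mem_HH, one_pow]
      rcases lt_or_gt_of_ne (hl0 1 h2) with h3 | h3
      · refine ⟨-1, mem_filter.2 ⟨neg_mem_HH hqe h2, ?_⟩⟩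
        rw [hln 1 h2]
        linarith
      · exact ⟨1, mem_filter.2 ⟨h2, h3⟩⟩
    obtain ⟨h₀, hh₀⟩ := h1
    have ht : key h₀ ∈ T := mem_image_of_mem _ hh₀
    have hh₀f : h₀ ∈ fib (key h₀) := mem_filter.2 ⟨(mem_filter.1 hh₀).1, rfl⟩
    obtain ⟨x₀, -, hx₀⟩ := D.exists_x ψ e he hLk (fib (key h₀)) hh₀f (fun h hh =>
      (hfc _ ht h hh).trans (hfc _ ht h₀ hh₀f).symm) (ρ (key h₀))
    have hcopL : (N₁ * p).Coprime L := by
      refine Nat.Coprime.mul_left (hcop.coprime_dvd_right hLM) ?_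
      exact (Nat.Prime.coprime_iff_not_dvd hp).2 hpL
    obtain ⟨x, hx1, hx2⟩ := Nat.chineseRemainder hcopL 1 x₀
    have hxE : x % E < E := Nat.mod_lt _ hE0
    have hxm1 : x % E ≡ 1 [MOD N₁ * p] := ((Nat.mod_modEq x E).of_dvd ⟨L, rfl⟩).trans hx1
    have hxm2 : x % E ≡ x₀ [MOD L] := ((Nat.mod_modEq x E).of_dvd ⟨N₁ * p, by rw [hE]; ring⟩).trans hx2
    refine ⟨(key h₀, x % E), mem_filter.2 ⟨mem_product.2 ⟨ht, mem_range.2 hxE⟩, ?_⟩⟩
    simp only [ha]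
    refine mul_ne_zero (mul_ne_zero ?_ (hb _ (Or.inl ?_))) ?_
    · have h3 : ((x % E : ℕ) : ZMod N₁) = 1 := by
        have := (ZMod.natCast_eq_natCast_iff _ _ _).2 (hxm1.of_dvd (dvd_mul_right N₁ p))
        rwa [Nat.cast_one] at this
      rw [h3, map_one]
      exact one_ne_zero
    · intro h3
      have h4 := (Nat.modEq_zero_iff_dvd.2 h3).symm.trans (hxm1.of_dvd (dvd_mul_left p N₁))
      have h5 := (Nat.modEq_iff_dvd' (by norm_num)).1 h4
      exact hp.one_lt.ne' (Nat.dvd_one.1 h5)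
    · have h3 : ∀ h ∈ fib (key h₀), ((x % E : ℕ) : ZMod M) * ((h : ZMod M) - ρ (key h₀)) =
          (x₀ : ZMod M) * ((h : ZMod M) - ρ (key h₀)) := fun h hh =>
        mul_eq_of_modEq (D.L_mul_sub (hfc _ ht h hh)) hxm2
      have h4 : ∑ h ∈ fib (key h₀), (ψ⁻¹ : MulChar (ZMod M) k) h *
          e (((x % E : ℕ) : ZMod M) * ((h : ZMod M) - ρ (key h₀))) =
          ∑ h ∈ fib (key h₀), (ψ⁻¹ : MulChar (ZMod M) k) h *
          e ((x₀ : ZMod M) * ((h : ZMod M) - ρ (key h₀))) :=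
        Finset.sum_congr rfl fun h hh => by rw [h3 h hh]
      rw [h4]
      exact hx₀
  obtain ⟨⟨t₁, x₁⟩, hm1', hmin⟩ := Finset.exists_min_image P (fun tx => (tx.2 : ℝ) * lam (ρ tx.1)) hPne
  rw [hP, mem_filter, mem_product, mem_range] at hm1'
  obtain ⟨⟨ht₁, hx₁⟩, ha₁⟩ := hm1'
  simp only at ht₁ hx₁ ha₁
  have ha0 : ∀ t ∈ T, a t 0 = 0 := by
    intro t ht
    simp only [ha]
    rw [Nat.cast_zero (R := ZMod M)]
    simp only [zero_mul, AddChar.map_zero_eq_one, mul_one]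
    rw [D.sum_inv_zero ψ hℓ₁ hd₁ (hprim ℓ₁ hℓ₁ hd₁) (fib t) (Finset.filter_subset _ _) (by
      intro h hh h' hh' hc
      rw [hfib, mem_filter] at hh ⊢
      refine ⟨hh', ?_⟩
      rw [← hh.2]
      exact ((ZMod.natCast_eq_natCast_iff _ _ _).2 (hc.of_dvd D.dvd)).symm), mul_zero]
  -- uniqueness
  have huniq : ∀ t ∈ T, ∀ J ∈ (T.erase t).powerset, ∀ x ∈ range E, a t x ≠ 0 →
      (L : ZMod M) * (Ex t J x - x₁ * ρ t₁) = 0 → t = t₁ ∧ J = ∅ ∧ x = x₁ := by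
    intro t ht J hJ x hx hax hLx
    have hmn := hmin (t, x) (mem_filter.2 ⟨mem_product.2 ⟨ht, hx⟩, hax⟩)
    refine D.uniq Θ hΘ1 hΘ3 hΘ4 hℓ₁ hd₁ τ T ρ hρH hρpos hρkey hE0 hsize ht ht₁ (mem_powerset.1 hJ)
      (mem_range.1 hx) ?_ hx₁ hmn hLx
    rintro rfl
    exact hax (ha0 t ht)
  -- orthogonality
  have hsum : ∑ t ∈ T, ∑ J ∈ (T.erase t).powerset, ∑ x ∈ range E,
      s t J * a t x * (if (L : ZMod M) * (Ex t J x - x₁ * ρ t₁) = 0 then
        (M' : k) * e (Ex t J x - x₁ * ρ t₁) else 0) = 0 := by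
    have h1 : ∑ z ∈ range M', e (-((1 + (L : ZMod M) * z) * (x₁ * ρ t₁))) *
        ∑ t ∈ T, ∑ J ∈ (T.erase t).powerset, ∑ x ∈ range E,
        s t J * a t x * e ((1 + (L : ZMod M) * z) * Ex t J x) = 0 :=
      Finset.sum_eq_zero fun z _ => by rw [hz z, mul_zero]
    refine Eq.trans ?_ h1
    simp only [Finset.mul_sum]
    symm
    rw [Finset.sum_comm]
    refine Finset.sum_congr rfl fun t _ => ?_
    rw [Finset.sum_comm]
    refine Finset.sum_congr rfl fun J _ => ?_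
    rw [Finset.sum_comm]
    refine Finset.sum_congr rfl fun x _ => ?_
    rw [← D.orth e he, Finset.mul_sum]
    refine Finset.sum_congr rfl fun z _ => ?_
    have h2 : e ((1 + (L : ZMod M) * z) * (Ex t J x - x₁ * ρ t₁)) =
        e (-((1 + (L : ZMod M) * z) * (x₁ * ρ t₁))) * e ((1 + (L : ZMod M) * z) * Ex t J x) := by
      rw [← AddChar.map_add_eq_mul]
      congr 1
      ring
    rw [h2]
    ring
  have hEx1 : Ex t₁ ∅ x₁ = x₁ * ρ t₁ := by
    simp only [hEx, Finset.sum_empty, mul_zero, add_zero]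
  rw [Finset.sum_eq_single t₁ (fun t ht hne => by
      refine Finset.sum_eq_zero fun J hJ => Finset.sum_eq_zero fun x hx => ?_
      by_cases hax : a t x = 0
      · rw [hax, mul_zero, zero_mul]
      · split_ifs with hLx
        · exact absurd (huniq t ht J hJ x hx hax hLx).1 hne
        · rw [mul_zero]) (fun h => absurd ht₁ h),
    Finset.sum_eq_single ∅ (fun J hJ hne => by
      refine Finset.sum_eq_zero fun x hx => ?_
      by_cases hax : a t₁ x = 0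
      · rw [hax, mul_zero, zero_mul]
      · split_ifs with hLx
        · exact absurd (huniq t₁ ht₁ J hJ x hx hax hLx).2.1 hne
        · rw [mul_zero]) (fun h => absurd (mem_powerset.2 (Finset.empty_subset _)) h),
    Finset.sum_eq_single x₁ (fun x hx hne => by
      by_cases hax : a t₁ x = 0
      · rw [hax, mul_zero, zero_mul]
      · split_ifs with hLx
        · exact absurd (huniq t₁ ht₁ ∅ (mem_powerset.2 (Finset.empty_subset _)) x hx hax hLx).2.2 hne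
        · rw [mul_zero]) (fun h => absurd (mem_range.2 hx₁) h),
    hEx1, sub_self, mul_zero, if_pos rfl, AddChar.map_zero_eq_one, mul_one] at hsum
  refine (mul_ne_zero (mul_ne_zero ?_ ha₁) hM'k) hsum
  rw [hs]
  exact Finset.prod_ne_zero_iff.2 fun _ _ => neg_ne_zero.2 one_ne_zero

end

end Pool.Agent.E8helper53.GS
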