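import Pool.Agent.E8helper53.GS.Uniq

/-!
# Sums over the fibres
-/

set_option autoImplicit false

namespace Pool.Agent.E8helper53.GS

open Finset Polynomial Pool.Agent.Y18.GX Pool.Agent.E8helper53.GR

section
variable {k : Type*} [Field k]

lemma geo_zero {η : k} {n : ℕ} (h1 : η ^ n = 1) (h : η ≠ 1) : ∑ x ∈ range n, η ^ x = 0 := by
  have h2 := geom_sum_mul η n
  rw [h1, sub_self] at h2
  rcases mul_eq_zero.1 h2 with h3 | h3
  · exact h3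
  · exact absurd (sub_eq_zero.1 h3) h

lemma Dat.exists_x {M M' L q : ℕ} [NeZero M] (D : Dat M M' L q) (ψ : MulChar (ZMod M) k)
    (e : AddChar (ZMod M) k) (he : e.IsPrimitive) (hLk : ((L : ℕ) : k) ≠ 0) {h₀ : (ZMod M)ˣ}
    (S : Finset (ZMod M)ˣ) (hS : h₀ ∈ S) (hSc : ∀ h ∈ S, vv h ≡ vv h₀ [MOD M']) (ρ : (ZMod M)ˣ) :
    ∃ x < L, ∑ h ∈ S, (ψ⁻¹ : MulChar (ZMod M) k) h * e ((x : ZMod M) * ((h : ZMod M) - ρ)) ≠ 0 := by
  by_contra hcon
  push Not at hcon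
  have h1 : ∑ x ∈ range L, e ((x : ZMod M) * ((ρ : ZMod M) - h₀)) *
      ∑ h ∈ S, (ψ⁻¹ : MulChar (ZMod M) k) h * e ((x : ZMod M) * ((h : ZMod M) - ρ)) = 0 := by
    refine Finset.sum_eq_zero fun x hx => ?_
    rw [hcon x (mem_range.1 hx), mul_zero]
  simp only [Finset.mul_sum] at h1
  rw [Finset.sum_comm] at h1
  have h2 : ∀ h ∈ S, ∑ x ∈ range L, e ((x : ZMod M) * ((ρ : ZMod M) - h₀)) *
      ((ψ⁻¹ : MulChar (ZMod M) k) h * e ((x : ZMod M) * ((h : ZMod M) - ρ))) =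
      if h = h₀ then (L : k) * (ψ⁻¹ : MulChar (ZMod M) k) h₀ else 0 := by
    intro h hh
    have h3 : ∀ x : ℕ, e ((x : ZMod M) * ((ρ : ZMod M) - h₀)) *
      ((ψ⁻¹ : MulChar (ZMod M) k) h * e ((x : ZMod M) * ((h : ZMod M) - ρ))) =
      (ψ⁻¹ : MulChar (ZMod M) k) h * e ((h : ZMod M) - h₀) ^ x := by
      intro x
      rw [mul_left_comm, ← AddChar.map_add_eq_mul, ← AddChar.map_nsmul_eq_pow, nsmul_eq_mul]
      congr 2
      ring
    simp only [h3]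
    rw [← Finset.mul_sum]
    split_ifs with h4
    · rw [h4, sub_self, AddChar.map_zero_eq_one]
      simp [mul_comm]
    · rw [geo_zero, mul_zero]
      · rw [← AddChar.map_nsmul_eq_pow, nsmul_eq_mul, D.L_mul_sub (hSc h hh), AddChar.map_zero_eq_one]
      · rw [Ne, he.zmod_char_eq_one_iff, sub_eq_zero]
        intro h5
        exact h4 (Units.ext h5)
  rw [Finset.sum_congr rfl h2, Finset.sum_ite_eq' S h₀, if_pos hS] at h1
  rcases mul_eq_zero.1 h1 with h3 | h3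
  · exact hLk h3
  · exact (h₀.isUnit.map (ψ⁻¹ : MulChar (ZMod M) k)).ne_zero h3

lemma Dat.orth {M M' L q : ℕ} [NeZero M] (D : Dat M M' L q)
    (e : AddChar (ZMod M) k) (he : e.IsPrimitive) (X : ZMod M) :
    ∑ z ∈ range M', e ((1 + (L : ZMod M) * (z : ZMod M)) * X) =
      if (L : ZMod M) * X = 0 then (M' : k) * e X else 0 := by
  have h1 : ∀ z : ℕ, e ((1 + (L : ZMod M) * (z : ZMod M)) * X) = e X * e (L * X) ^ z := by
    intro z
    rw [← AddChar.map_nsmul_eq_pow, nsmul_eq_mul, ← AddChar.map_add_eq_mul]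
    congr 1
    ring
  simp only [h1]
  rw [← Finset.mul_sum]
  split_ifs with h2
  · rw [h2, AddChar.map_zero_eq_one]
    simp [mul_comm]
  · rw [geo_zero, mul_zero]
    · rw [← AddChar.map_nsmul_eq_pow, nsmul_eq_mul, ← mul_assoc, ← Nat.cast_mul, ← D.fac, ZMod.natCast_self,
        zero_mul, AddChar.map_zero_eq_one]
    · rwa [Ne, he.zmod_char_eq_one_iff]

omit [Field k] in
lemma Dat.exists_c {M M' L q : ℕ} [NeZero M] (D : Dat M M' L q) (z : ℕ) :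
    ∃ c : (ZMod M)ˣ, (c : ZMod M) = 1 + L * z := by
  have h1 : IsUnit ((1 + L * z : ℕ) : ZMod M) := by
    rw [ZMod.isUnit_iff_coprime, Nat.coprime_iff_gcd_eq_one]
    by_contra hne
    obtain ⟨ℓ, hℓ, hd⟩ := Nat.exists_prime_and_dvd hne
    have h3 : ℓ ∣ 1 + L * z := hd.trans (Nat.gcd_dvd_left _ _)
    have h4 : ℓ ∣ M := hd.trans (Nat.gcd_dvd_right _ _)
    have h5 : ℓ ∣ L * z := (D.dvdL hℓ h4).mul_right z
    exact hℓ.one_lt.ne' (Nat.dvd_one.1 ((Nat.dvd_add_left h5).1 h3))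
  obtain ⟨c, hc⟩ := h1
  refine ⟨c, ?_⟩
  rw [hc]
  push_cast
  rfl

/-- the sum over a fibre -/
lemma Dat.fib_sum {N₁ N E M M' L q z : ℕ} [NeZero M] (D : Dat M M' L q) (ψ₁ : MulChar (ZMod N₁) k)
    (ψ : MulChar (ZMod M) k) (e : AddChar (ZMod M) k) (F : ℤ[X]) (hN : N₁ ∣ N) (hMN : M ∣ N) (hE : N₁ ∣ E)
    (hLE : L ∣ E) (hNk : ((N : ℕ) : k) ≠ 0) (hEk : ((E : ℕ) : k) = 0)
    (S : Finset (ZMod M)ˣ) (ρ c : (ZMod M)ˣ) (hSc : ∀ h ∈ S, vv h ≡ vv ρ [MOD M'])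
    (hc : (c : ZMod M) = 1 + L * z) :
    (e (c * ρ) ^ E - 1) * ∑ h ∈ S, (ψ⁻¹ : MulChar (ZMod M) k) h * GG ψ₁ F N (e (c * h)) =
    ∑ x ∈ range E, (ψ₁ (x : ZMod N₁) * (aeval ((x : k) / (N : ℕ) + 1) F - aeval ((x : k) / (N : ℕ)) F) *
      ∑ h ∈ S, (ψ⁻¹ : MulChar (ZMod M) k) h * e ((x : ZMod M) * ((h : ZMod M) - ρ))) *
      e ((1 + L * z) * (x * ρ)) := by
  have h0 : ∀ h ∈ S, (L : ZMod M) * ((h : ZMod M) - ρ) = 0 := fun h hh => D.L_mul_sub (hSc h hh)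
  have hEh : ∀ h ∈ S, e (c * ρ) ^ E = e (c * h) ^ E := by
    intro h hh
    rw [← AddChar.map_nsmul_eq_pow, ← AddChar.map_nsmul_eq_pow, nsmul_eq_mul, nsmul_eq_mul]
    congr 1
    obtain ⟨w, hw⟩ := hLE
    rw [hw]
    push_cast
    linear_combination -(w : ZMod M) * c * h0 h hh
  have hWN : ∀ a : ZMod M, e a ^ N = 1 := by
    intro a
    rw [← AddChar.map_nsmul_eq_pow, nsmul_eq_mul, (ZMod.natCast_eq_zero_iff _ _).2 hMN, zero_mul,
      AddChar.map_zero_eq_one]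
  rw [Finset.mul_sum]
  have h1 : ∀ h ∈ S, (e (c * ρ) ^ E - 1) * ((ψ⁻¹ : MulChar (ZMod M) k) h * GG ψ₁ F N (e (c * h))) =
      ∑ x ∈ range E, (ψ₁ (x : ZMod N₁) * (aeval ((x : k) / (N : ℕ) + 1) F - aeval ((x : k) / (N : ℕ)) F) *
      ((ψ⁻¹ : MulChar (ZMod M) k) h * e ((x : ZMod M) * ((h : ZMod M) - ρ)))) *
      e ((1 + L * z) * (x * ρ)) := by
    intro h hh
    rw [hEh h hh, mul_left_comm, freq ψ₁ F hN hE hNk hEk (hWN _), Finset.mul_sum]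
    refine Finset.sum_congr rfl fun x _ => ?_
    have h2 : e (c * h) ^ x = e ((x : ZMod M) * ((h : ZMod M) - ρ)) * e ((1 + L * z) * (x * ρ)) := by
      rw [← AddChar.map_nsmul_eq_pow, nsmul_eq_mul, ← AddChar.map_add_eq_mul, hc]
      congr 1
      linear_combination (x : ZMod M) * z * h0 h hh
    rw [h2]
    ring
  rw [Finset.sum_congr rfl h1, Finset.sum_comm]
  refine Finset.sum_congr rfl fun x _ => ?_
  rw [Finset.mul_sum, Finset.sum_mul]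

end

end Pool.Agent.E8helper53.GS
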