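import Pool.Agent.E8helper53.GS.CoreS

/-!
# The values
-/

set_option autoImplicit false

namespace Pool.Agent.E8helper53.GS

open Finset Polynomial Pool.Agent.Y18.GX Pool.Agent.E8helper53.GR

section
variable {k : Type*} [Field k] {p : ℕ} [Fact p.Prime] [CharP k p]

/-- the version without roots of unity in the field -/
theorem core_gs' {N₁ M M' L g m : ℕ} (D : Dat M M' L (p ^ g)) (hM1 : M ≠ 1) (hp2 : p ≠ 2)
    (hpM : ¬ p ∣ M)
    (ψ₁ : MulChar (ZMod N₁) k) (ψ : MulChar (ZMod M) k) (hψ₁ : ∀ x, ψ₁ x ^ p ^ g = ψ₁ x)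
    (hprim : ∀ ℓ, ℓ.Prime → ℓ ∣ M → ψ ((1 + M / ℓ : ℕ) : ZMod M) ≠ 1)
    (hcop : N₁.Coprime M) (hN0 : N₁ ≠ 0) (hpN : ¬ p ∣ N₁)
    (hpar : ψ₁ (-1) * ψ (-1) = (-1) ^ m) (hm1 : 1 ≤ m) (hmp : m < p)
    (hsize : ∀ ℓ, ℓ.Prime → ℓ ∣ M → (2 * (N₁ * p * L) * L) ^ (ℓ - 1).totient < ℓ ^ M'.factorization ℓ) :
    ∑ x ∈ range (N₁ * M), ψ₁ (x : ZMod N₁) * ψ (x : ZMod M) *
      aeval ((x : k) / (N₁ * M : ℕ)) (FF m) ≠ 0 := by
  have hM0 : NeZero M := ⟨D.pos.ne'⟩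
  intro hS
  set K := AlgebraicClosure k with hK
  have hcK : CharP K p := charP_of_injective_algebraMap (algebraMap k K).injective p
  have hMK : NeZero ((M : ℕ) : K) := ⟨fun h => hpM ((CharP.cast_eq_zero_iff K p M).1 h)⟩
  obtain ⟨ζ, hζ⟩ := HasEnoughRootsOfUnity.exists_primitiveRoot K M
  set φ := algebraMap k K with hφ
  have hinj : Function.Injective φ := φ.injective
  refine core_gs (k := K) D hM1 hp2 (ψ₁.ringHomComp φ) (ψ.ringHomComp φ) ?_ ?_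
    (AddChar.zmodChar M ((IsPrimitiveRoot.iff_def ζ M).mp hζ).left)
    (AddChar.zmodChar_primitive_of_primitive_root M hζ) hcop hN0 hpN ?_ hm1 hmp hsize ?_
  · intro x
    rw [MulChar.ringHomComp_apply, ← map_pow, hψ₁]
  · intro ℓ hℓ hd h
    apply hprim ℓ hℓ hd
    rw [MulChar.ringHomComp_apply] at h
    apply hinj
    rw [h, map_one]
  · rw [MulChar.ringHomComp_apply, MulChar.ringHomComp_apply, ← map_mul, hpar]
    simp
  · have h1 := congrArg φ hS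
    rw [map_zero, map_sum] at h1
    rw [← h1]
    refine Finset.sum_congr rfl fun x _ => ?_
    have h2 : φ (aeval ((x : k) / (N₁ * M : ℕ)) (FF m)) = aeval ((x : K) / (N₁ * M : ℕ)) (FF m) := by
      rw [hφ, ← aeval_algebraMap_apply, map_div₀, map_natCast, map_natCast]
    rw [map_mul, map_mul, h2, MulChar.ringHomComp_apply, MulChar.ringHomComp_apply]
    congr!

omit [CharP k p] in
/-- the Euler factor -/
theorem euler_gs {N₁ M M' L g : ℕ} (D : Dat M M' L (p ^ g)) (hM1 : M ≠ 1)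
    (ψ₁ : MulChar (ZMod N₁) k) (ψ : MulChar (ZMod M) k) (hψ₁ : ∀ x, ψ₁ x ^ p ^ g = ψ₁ x)
    (hprim : ∀ ℓ, ℓ.Prime → ℓ ∣ M → ψ ((1 + M / ℓ : ℕ) : ZMod M) ≠ 1) (hN0 : N₁ ≠ 0)
    (hsize : ∀ ℓ, ℓ.Prime → ℓ ∣ M → (2 * (N₁ * p * L) * L) ^ (ℓ - 1).totient < ℓ ^ M'.factorization ℓ) :
    ψ₁ (p : ZMod N₁) * ψ (p : ZMod M) ≠ 1 := by
  have hM0 : NeZero M := ⟨D.pos.ne'⟩
  have hp := (Fact.out : p.Prime)
  intro h
  obtain ⟨ℓ, hℓ, hd⟩ := Nat.exists_prime_and_dvd hM1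
  have hq1 := D.q1
  have h0 : ψ₁ (p : ZMod N₁) ≠ 0 := by
    intro h0
    rw [h0, zero_mul] at h
    exact zero_ne_one h
  have h1 : ψ (p : ZMod M) ≠ 0 := by
    intro h0
    rw [h0, mul_zero] at h
    exact zero_ne_one h
  have hu : IsUnit (p : ZMod M) := by
    by_contra hcon
    exact h1 (ψ.map_nonunit hcon)
  obtain ⟨u, hu⟩ := hu
  have h2 : ψ₁ (p : ZMod N₁) ^ (p ^ g - 1) = 1 := by
    apply mul_right_cancel₀ h0
    rw [← pow_succ, Nat.sub_add_cancel (by omega), hψ₁, one_mul]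
  have h3 : ψ (u : ZMod M) ^ (p ^ g - 1) = 1 := by
    have := congrArg (fun z => z ^ (p ^ g - 1)) h
    simp only [mul_pow, h2, one_mul, one_pow] at this
    rw [hu]
    exact this
  have h4 : u ∈ HH M (p ^ g) := mem_HH.2 (D.kernel' ψ hprim u h3)
  obtain ⟨Θ, hΘ1, hΘ2, hΘ3, hΘ4⟩ := D.exists_Theta
  have h5 : (1 : (ZMod M)ˣ) ∈ HH M (p ^ g) := by rw [mem_HH, one_pow]
  have h6 := hΘ4 ℓ hℓ hd Bool univ (fun b => if b then (p : ℤ) else -1) (fun b => if b then 1 else u) (by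
    intro j _
    cases j
    · simpa using h4
    · simpa using h5) (by
    simp only [Fintype.univ_bool, mem_singleton, Bool.true_eq_false, not_false_eq_true, sum_insert,
      sum_singleton, if_true, Bool.false_eq_true, if_false]
    have h2 : (((p : ℤ) * (vv (1 : (ZMod M)ˣ) : ℤ) + -1 * (vv u : ℤ) : ℤ) : ZMod M) = 0 := by
      push_cast
      rw [vv_cast, vv_cast, hu]
      simp
    rw [ZMod.intCast_zmod_eq_zero_iff_dvd] at h2
    have h3 : (M' : ℤ) ∣ (M : ℤ) := by exact_mod_cast D.M'dvd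
    exact h3.trans h2) (by
    simp only [Fintype.univ_bool, mem_singleton, Bool.true_eq_false, not_false_eq_true, sum_insert,
      sum_singleton, if_true, Bool.false_eq_true, if_false, abs_neg, abs_one, Nat.abs_cast]
    have h7 : p + 1 ≤ 2 * (N₁ * p * L) * L := by
      have e1 : 1 ≤ N₁ * (L * L) := Nat.mul_pos (Nat.pos_of_ne_zero hN0)
        (Nat.mul_pos (Nat.pos_of_ne_zero D.L0) (Nat.pos_of_ne_zero D.L0))
      have e2 := hp.two_le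
      calc p + 1 ≤ 2 * p * 1 := by omega
        _ ≤ 2 * p * (N₁ * (L * L)) := Nat.mul_le_mul_left _ e1
        _ = 2 * (N₁ * p * L) * L := by ring
    have h8 := lt_of_le_of_lt (Nat.pow_le_pow_left h7 (ℓ - 1).totient) (hsize ℓ hℓ hd)
    exact_mod_cast h8)
  simp only [Fintype.univ_bool, mem_singleton, Bool.true_eq_false, not_false_eq_true, sum_insert,
      sum_singleton, if_true, Bool.false_eq_true, if_false] at h6
  push_cast at h6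
  have h7 : (p : ℂ) * Θ ℓ 1 = Θ ℓ u := by linear_combination h6
  have h8 := congrArg norm h7
  rw [norm_mul, hΘ1 ℓ hℓ hd _ h5, hΘ1 ℓ hℓ hd _ h4, mul_one, Complex.norm_natCast] at h8
  have h9 : p = 1 := by exact_mod_cast h8
  exact hp.one_lt.ne' h9

end

/-- the values -/
theorem part_gs {p : ℕ} (hp : p.Prime) (hp2 : p ≠ 2) {N₁ M M' L g m : ℕ} (D : Dat M M' L (p ^ g)) (hM1 : M ≠ 1)
    (hpM : ¬ p ∣ M) (hexp : ∀ U : (ZMod N₁)ˣ, U ^ (p ^ g - 1) = 1)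
    (hcop : N₁.Coprime M) (hpN : ¬ p ∣ N₁) (hm1 : 1 ≤ m) (hmp : m < p)
    (hsize : ∀ ℓ, ℓ.Prime → ℓ ∣ M → (2 * (N₁ * p * L) * L) ^ (ℓ - 1).totient < ℓ ^ M'.factorization ℓ)
    {N : ℕ} (hN : N = N₁ * M)
    (ψ : DirichletCharacter ℂ N) (hc : M ∣ ψ.conductor)
    (hpar : ψ (-1) = (-1) ^ m) :
    Pool.Agent.Y18.GX.IsUnitAt p ((1 - ψ (p : ZMod N) * (p : ℂ) ^ (m - 1)) *
      ((N : ℂ) ^ (m - 1) * ∑ x ∈ range N, ψ (x : ZMod N) *
        (((Polynomial.bernoulli m).eval ((x : ℚ) / (N : ℕ)) : ℚ) : ℂ)) / m) := by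
  have : Fact p.Prime := ⟨hp⟩
  have hN0 : N₁ ≠ 0 := by
    rintro rfl
    exact hpN (dvd_zero _)
  have hN0' : N ≠ 0 := by
    rw [hN]
    exact mul_ne_zero hN0 D.pos.ne'
  have hpN' : ¬ p ∣ N := by
    intro h
    rw [hN] at h
    rcases (hp.dvd_mul).1 h with h | h
    · exact hpN h
    · exact hpM h
  have hℓN : ∀ ℓ, ℓ ∣ M → N / ℓ = N₁ * (M / ℓ) := by
    intro ℓ hd
    rw [hN, Nat.mul_div_assoc _ hd]
  have hd2 : ∀ ℓ, ℓ.Prime → ℓ ∣ M → ℓ ^ 2 ∣ N := by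
    intro ℓ hℓ hd
    rw [hN]
    exact (D.two_le hℓ hd).mul_left N₁
  have hz : ∀ ℓ, ℓ.Prime → ℓ ∣ M → ψ ((1 + N / ℓ : ℕ) : ZMod N) ≠ 1 := by
    intro ℓ hℓ hd h
    have h1 := hc.trans (cond_dvd hℓ hN0' (hd2 ℓ hℓ hd) ψ h)
    rw [hℓN ℓ hd] at h1
    have h2 := hcop.symm.dvd_of_dvd_mul_left h1
    have h3 := Nat.le_of_dvd (Nat.div_pos (Nat.le_of_dvd D.pos hd) hℓ.pos) h2
    exact absurd (Nat.div_lt_self D.pos hℓ.one_lt) (by omega)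
  obtain ⟨ℓ₁, hℓ₁, hd₁⟩ := Nat.exists_prime_and_dvd hM1
  have hψ1 : ψ ≠ 1 := by
    rintro rfl
    apply hz ℓ₁ hℓ₁ hd₁
    apply MulChar.one_apply
    have h1 := one_add_div_pow (hd2 ℓ₁ hℓ₁ hd₁) ℓ₁
    rw [Nat.div_mul_cancel ((dvd_pow_self ℓ₁ (by norm_num)).trans (hd2 ℓ₁ hℓ₁ hd₁))] at h1
    push_cast at h1
    rw [ZMod.natCast_self, add_zero] at h1
    rw [← isUnit_pow_iff (n := ℓ₁) hℓ₁.ne_zero]
    push_cast
    rw [← h1]
    exact isUnit_one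
  refine unit_gen1 hp ψ hpN' hpar hm1 hmp {z | ∃ ℓ, ℓ.Prime ∧ ℓ ∣ M ∧ z = ((1 + N / ℓ : ℕ) : ZMod N)} ?_ ?_ ?_
    (sum_char hN0' ψ hψ1)
  · rintro z ⟨ℓ, hℓ, hd, rfl⟩
    refine ⟨ℓ, fun h => hpM (h.trans hd), ?_⟩
    rw [← one_add_div_pow (hd2 ℓ hℓ hd),
      Nat.div_mul_cancel ((dvd_pow_self ℓ (by norm_num)).trans (hd2 ℓ hℓ hd))]
    push_cast
    rw [ZMod.natCast_self, add_zero]
  · rintro z ⟨ℓ, hℓ, hd, rfl⟩
    exact hz ℓ hℓ hd
  · intro k _ _ χ hχZ hχpar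
    have hχℓ : ∀ ℓ, ℓ.Prime → ℓ ∣ M → χ ((1 + N / ℓ : ℕ) : ZMod N) ≠ 1 := fun ℓ hℓ hd =>
      hχZ _ ⟨ℓ, hℓ, hd, rfl⟩
    clear hχZ hz hψ1 hpar hc ψ
    subst hN
    set ψ₁ := cfst hcop χ with hψ₁
    set ψ₂ := csnd hcop χ with hψ₂
    have hdec : ∀ x : ℕ, χ (x : ZMod (N₁ * M)) = ψ₁ (x : ZMod N₁) * ψ₂ (x : ZMod M) :=
      fun x => cdec_nat hcop χ x
    have hprim : ∀ ℓ, ℓ.Prime → ℓ ∣ M → ψ₂ ((1 + M / ℓ : ℕ) : ZMod M) ≠ 1 := by
      intro ℓ hℓ hd h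
      apply hχℓ ℓ hℓ hd
      rw [hdec, hℓN ℓ hd]
      have e1 : ((1 + N₁ * (M / ℓ) : ℕ) : ZMod N₁) = 1 := by
        push_cast
        simp
      have e2 : ψ₂ ((1 + N₁ * (M / ℓ) : ℕ) : ZMod M) = 1 := by
        rw [mul_comm N₁, one_add_div_pow (D.two_le hℓ hd), map_pow, h, one_pow]
      rw [e1, e2, map_one, mul_one]
    have hpar' : ψ₁ (-1) * ψ₂ (-1) = (-1) ^ m := by
      rw [← hχpar]
      exact (cdec_neg hcop χ).symm
    have hψ₁q : ∀ x, ψ₁ x ^ p ^ g = ψ₁ x := by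
      intro x
      by_cases hx : IsUnit x
      · obtain ⟨U, rfl⟩ := hx
        have h1 : p ^ g = (p ^ g - 1) + 1 := by
          have := D.q1
          omega
        rw [h1, pow_succ, ← map_pow, ← Units.val_pow_eq_pow_val, hexp, Units.val_one, map_one, one_mul]
      · rw [MulChar.map_nonunit _ hx, zero_pow]
        exact (Nat.pos_of_ne_zero (pow_ne_zero _ hp.ne_zero)).ne'
    constructor
    · have key := core_gs' (m := m) D hM1 hp2 hpM ψ₁ ψ₂ hψ₁q hprim hcop hN0 hpN hpar' hm1 hmp hsize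
      simp only [hdec]
      exact key
    · intro _
      rw [hdec]
      exact euler_gs D hM1 ψ₁ ψ₂ hψ₁q hprim hN0 hsize

end Pool.Agent.E8helper53.GS
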