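import Pool.Agent.E8helper53.GS.Grp

/-!
# The sums `G(W)`
-/

set_option autoImplicit false

namespace Pool.Agent.E8helper53.GS

open Finset Polynomial Pool.Agent.Y18.GX

lemma FF_diff (m : ℕ) : (FF m).comp (1 + X) - FF m = C ((m.factorial * m : ℕ) : ℤ) * X ^ (m - 1) := by
  have hinj : Function.Injective (Polynomial.map (Int.castRingHom ℚ)) :=
    Polynomial.map_injective _ (Int.castRingHom ℚ).injective_int
  apply hinj
  rw [Polynomial.map_sub, Polynomial.map_comp, FF_map, Polynomial.map_add, Polynomial.map_one, map_X,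
    mul_comp, C_comp, sub_comp, C_comp, bernoulli_comp_one_add_X, Polynomial.map_mul, Polynomial.map_pow,
    map_X, map_C]
  push_cast
  simp only [map_mul, map_natCast, nsmul_eq_mul]
  ring

lemma FF_aeval_diff {k : Type*} [CommRing k] (m : ℕ) (x : k) :
    aeval (x + 1) (FF m) - aeval x (FF m) = ((m.factorial * m : ℕ) : k) * x ^ (m - 1) := by
  have h1 := congrArg (fun f => aeval x f) (FF_diff m)
  simp only [aeval_comp, map_sub, map_one, aeval_X, map_add, map_mul, map_pow, aeval_C] at h1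
  rw [add_comm x 1, h1]
  simp

lemma FF_zero (m : ℕ) {k : Type*} [CommRing k] : aeval (0 : k) (FF m) = 0 := by
  rw [FF, map_sum]
  refine Finset.sum_eq_zero fun i hi => ?_
  rw [aeval_monomial, zero_pow, mul_zero]
  have := mem_range.1 hi
  omega

section
variable {k : Type*} [Field k]

/-- the sum `G(W)` -/
noncomputable def GG {N₁ : ℕ} (ψ₁ : MulChar (ZMod N₁) k) (F : ℤ[X]) (N : ℕ) (W : k) : k :=
  ∑ x ∈ range N, ψ₁ (x : ZMod N₁) * aeval ((x : k) / (N : ℕ)) F * W ^ x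

lemma freq {N₁ N D : ℕ} (ψ₁ : MulChar (ZMod N₁) k) (F : ℤ[X]) (hN : N₁ ∣ N) (hD : N₁ ∣ D)
    (hNk : ((N : ℕ) : k) ≠ 0) (hDk : ((D : ℕ) : k) = 0) {W : k} (hW : W ^ N = 1) :
    (W ^ D - 1) * GG ψ₁ F N W = ∑ x ∈ range D, ψ₁ (x : ZMod N₁) *
      (aeval ((x : k) / (N : ℕ) + 1) F - aeval ((x : k) / (N : ℕ)) F) * W ^ x := by
  have e1 : ∀ x : ℕ, ψ₁ ((N + x : ℕ) : ZMod N₁) * aeval (((N + x : ℕ) : k) / (N : ℕ)) F * W ^ (N + x) =
      ψ₁ (x : ZMod N₁) * aeval ((x : k) / (N : ℕ) + 1) F * W ^ x := by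
    intro x
    have h1 : ((N + x : ℕ) : ZMod N₁) = (x : ZMod N₁) := by
      push_cast
      rw [(ZMod.natCast_eq_zero_iff _ _).2 hN, zero_add]
    have h2 : ((N + x : ℕ) : k) / (N : ℕ) = (x : k) / (N : ℕ) + 1 := by
      push_cast
      field_simp
      ring
    rw [h1, h2, pow_add, hW, one_mul]
  have e2 : ∀ x : ℕ, ψ₁ ((D + x : ℕ) : ZMod N₁) * aeval (((D + x : ℕ) : k) / (N : ℕ)) F * W ^ (D + x) =
      W ^ D * (ψ₁ (x : ZMod N₁) * aeval ((x : k) / (N : ℕ)) F * W ^ x) := by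
    intro x
    have h1 : ((D + x : ℕ) : ZMod N₁) = (x : ZMod N₁) := by
      push_cast
      rw [(ZMod.natCast_eq_zero_iff _ _).2 hD, zero_add]
    have h2 : ((D + x : ℕ) : k) = (x : k) := by
      push_cast
      rw [hDk, zero_add]
    rw [h1, h2, pow_add]
    ring
  have h1 := Finset.sum_range_add (fun x : ℕ => ψ₁ (x : ZMod N₁) * aeval ((x : k) / (N : ℕ)) F * W ^ x) N D
  have h2 := Finset.sum_range_add (fun x : ℕ => ψ₁ (x : ZMod N₁) * aeval ((x : k) / (N : ℕ)) F * W ^ x) D N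
  rw [add_comm D N] at h2
  simp only [e1] at h1
  simp only [e2] at h2
  rw [h1, ← Finset.mul_sum] at h2
  have h3 : ∀ x : ℕ, ψ₁ (x : ZMod N₁) *
      (aeval ((x : k) / (N : ℕ) + 1) F - aeval ((x : k) / (N : ℕ)) F) * W ^ x =
      ψ₁ (x : ZMod N₁) * aeval ((x : k) / (N : ℕ) + 1) F * W ^ x -
      ψ₁ (x : ZMod N₁) * aeval ((x : k) / (N : ℕ)) F * W ^ x := fun x => by ring
  simp only [h3]
  rw [Finset.sum_sub_distrib]
  unfold GG
  linear_combination -h2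

lemma char_sum_zero {N₁ N : ℕ} (ψ₁ : MulChar (ZMod N₁) k) (hN : N₁ ∣ N) {W : k} (hW : W ^ N = 1)
    (hWN : W ^ N₁ ≠ 1) : ∑ x ∈ range N, ψ₁ (x : ZMod N₁) * W ^ x = 0 := by
  have h := E_zero (M := 1) ψ₁ W hN hW hWN 0
  simpa using h

lemma GG_refl {N₁ N m : ℕ} (ψ₁ : MulChar (ZMod N₁) k) (hN : N₁ ∣ N)
    (hNk : ((N : ℕ) : k) ≠ 0) {W : k} (hW : W ^ N = 1) (hWN : W ^ N₁ ≠ 1)
    (F : ℤ[X]) (c : k) (hF : ∀ x : k, aeval (1 - x) F = (-1) ^ m * aeval x F + c) (hF0 : aeval (0 : k) F = 0) :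
    GG ψ₁ F N W⁻¹ = ψ₁ (-1) * (-1) ^ m * GG ψ₁ F N W - ψ₁ 0 * c := by
  have hW0 : W ≠ 0 := by
    rintro rfl
    rcases Nat.eq_zero_or_pos N with h | h
    · rw [h, Nat.cast_zero] at hNk
      exact hNk rfl
    · rw [zero_pow h.ne'] at hW
      exact zero_ne_one hW
  set f : ℕ → k := fun x => ψ₁ (x : ZMod N₁) * aeval ((x : k) / (N : ℕ)) F * W⁻¹ ^ x with hf
  have h1 : ∑ x ∈ range (N + 1), f x = GG ψ₁ F N W⁻¹ + ψ₁ 0 * c := by
    rw [Finset.sum_range_succ]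
    congr 1
    rw [hf]
    simp only
    rw [(ZMod.natCast_eq_zero_iff _ _).2 hN, inv_pow, hW, inv_one, mul_one, div_self hNk]
    have := hF 0
    rw [sub_zero, hF0, mul_zero, zero_add] at this
    rw [this]
  have h2 : ∑ x ∈ range (N + 1), f x = ψ₁ (-1) * (-1) ^ m * GG ψ₁ F N W := by
    rw [← Finset.sum_range_reflect]
    have e1 : ∀ x ∈ range (N + 1), f (N + 1 - 1 - x) =
        ψ₁ (-1) * (-1) ^ m * (ψ₁ (x : ZMod N₁) * aeval ((x : k) / (N : ℕ)) F * W ^ x) +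
        ψ₁ (-1) * c * (ψ₁ (x : ZMod N₁) * W ^ x) := by
      intro x hx
      have hx' : x ≤ N := by
        have := mem_range.1 hx
        omega
      rw [Nat.add_sub_cancel, hf]
      simp only
      have h3 : ((N - x : ℕ) : ZMod N₁) = -1 * (x : ZMod N₁) := by
        rw [Nat.cast_sub hx', (ZMod.natCast_eq_zero_iff _ _).2 hN]
        ring
      have h4 : ((N - x : ℕ) : k) / (N : ℕ) = 1 - (x : k) / (N : ℕ) := by
        rw [Nat.cast_sub hx', sub_div, div_self hNk]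
      have h5 : W⁻¹ ^ (N - x) = W ^ x := by
        rw [inv_pow]
        apply inv_eq_of_mul_eq_one_left
        rw [← pow_add, Nat.add_sub_cancel' hx', hW]
      rw [h3, h4, h5, map_mul, hF]
      ring
    rw [Finset.sum_congr rfl e1, Finset.sum_add_distrib, ← Finset.mul_sum, ← Finset.mul_sum,
      Finset.sum_range_succ, Finset.sum_range_succ, char_sum_zero ψ₁ hN hW hWN,
      (ZMod.natCast_eq_zero_iff _ _).2 hN, hW, div_self hNk]
    have h6 := hF 1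
    rw [sub_self, hF0] at h6
    unfold GG
    linear_combination -ψ₁ (-1) * ψ₁ 0 * h6
  rw [← h2, h1]
  ring

end

section
variable {k : Type*} [Field k] {p : ℕ} [Fact p.Prime] [CharP k p]

lemma GG_frob {N₁ N g : ℕ} (ψ₁ : MulChar (ZMod N₁) k) (hψ₁ : ∀ x, ψ₁ x ^ p ^ g = ψ₁ x) (F : ℤ[X]) (W : k)
    (j : ℕ) : GG ψ₁ F N W ^ (p ^ g) ^ j = GG ψ₁ F N (W ^ (p ^ g) ^ j) := by
  have h1 : GG ψ₁ F N W ^ (p ^ g) ^ j = iterateFrobenius k p (g * j) (GG ψ₁ F N W) := by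
    rw [iterateFrobenius_def, pow_mul]
  rw [h1]
  unfold GG
  rw [map_sum]
  refine Finset.sum_congr rfl fun x _ => ?_
  rw [iterateFrobenius_def, mul_pow, mul_pow, frob_fix, pow_mul]
  have h2 : ∀ j, ψ₁ (x : ZMod N₁) ^ (p ^ g) ^ j = ψ₁ (x : ZMod N₁) := by
    intro j
    induction j with
    | zero => simp
    | succ j ih => rw [pow_succ, pow_mul, ih, hψ₁]
  rw [h2, pow_right_comm W x]

end

end Pool.Agent.E8helper53.GS
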