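import Pool.Agent.E8helper53.GS.Sel

/-!
# The theorem for finitely many primes
-/

set_option autoImplicit false

namespace Pool.Agent.E8helper53.GS

open Finset Polynomial Pool.Agent.Y18.GX Pool.Agent.E8helper53.GR

theorem general {p : ℕ} (hp : p.Prime) (hp2 : p ≠ 2) {S : Finset ℕ} (hS : ∀ ℓ ∈ S, ℓ.Prime) (hSne : S.Nonempty)
    {N₁ g K m : ℕ} (hpN : ¬ p ∣ N₁) (hNS : ∀ ℓ ∈ S, N₁.Coprime ℓ) (hg : g ≠ 0)
    (hexp : ∀ U : (ZMod N₁)ˣ, U ^ (p ^ g - 1) = 1) (hgS : ∀ ℓ ∈ S, ℓ * (ℓ - 1) ∣ p ^ g - 1)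
    (h4 : 2 ∈ S → 4 ∣ p ^ g - 1) (hK : ∀ ℓ ∈ S, (ℓ - 1).totient ≤ K) (n : ℕ → ℕ)
    (hlarge : (2 * N₁ * p ^ (3 * g + 1)) ^ ((K + 1) ^ S.card - 1) ≤ ∏ ℓ ∈ S, ℓ ^ n ℓ)
    (hm1 : 1 ≤ m) (hmp : m < p) {N : ℕ} (hN : N = N₁ * ∏ ℓ ∈ S, ℓ ^ n ℓ)
    (ψ : DirichletCharacter ℂ N) (hc : ∏ ℓ ∈ S, ℓ ^ n ℓ ∣ ψ.conductor)
    (hpar : ψ (-1) = (-1) ^ m) :
    Pool.Agent.Y18.GX.IsUnitAt p ((1 - ψ (p : ZMod N) * (p : ℂ) ^ (m - 1)) *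
      ((N : ℂ) ^ (m - 1) * ∑ x ∈ range N, ψ (x : ZMod N) *
        (((Polynomial.bernoulli m).eval ((x : ℚ) / (N : ℕ)) : ℚ) : ℂ)) / m) := by
  have hN0 : N₁ ≠ 0 := by
    rintro rfl
    exact hpN (dvd_zero _)
  have hN0' : 0 < N₁ := Nat.pos_of_ne_zero hN0
  have hpg : 1 < p ^ g := Nat.one_lt_pow hg hp.one_lt
  have hpS : p ∉ S := by
    intro h
    have h1 : p ∣ p ^ g - 1 := (dvd_mul_right p (p - 1)).trans (hgS p h)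
    have h2 : p ∣ p ^ g := dvd_pow_self p hg
    have h3 := (Nat.dvd_sub h2 h1)
    rw [Nat.sub_sub_self hpg.le] at h3
    exact hp.one_lt.ne' (Nat.dvd_one.1 h3)
  have hgood0 : ∀ ℓ ∈ S, Good ℓ (p ^ g) := by
    intro ℓ hℓ
    refine ⟨?_, fun h => ?_⟩
    · exact ((Nat.modEq_iff_dvd' hpg.le).2 ((dvd_mul_right ℓ (ℓ - 1)).trans (hgS ℓ hℓ))).symm
    · subst h
      exact ((Nat.modEq_iff_dvd' hpg.le).2 (h4 hℓ)).symm
  set A := 2 * N₁ * p ^ (3 * g + 1) with hA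
  have hA1 : 1 ≤ A := Nat.mul_pos (Nat.mul_pos (by norm_num) hN0') (pow_pos hp.pos _)
  obtain ⟨I, hIS, hIne, hI⟩ := greedy hSne (fun ℓ => ℓ ^ n ℓ)
    (fun ℓ hℓ => pow_pos (hS ℓ hℓ).pos _) hA1 hlarge
  set t := ∏ ℓ ∈ S \ I, ℓ ^ n ℓ with ht
  have hRS : ∀ ℓ ∈ S \ I, ℓ ∈ S := fun ℓ hℓ => (mem_sdiff.1 hℓ).1
  have ht0 : 0 < t := Finset.prod_pos fun ℓ hℓ => pow_pos (hS ℓ (hRS ℓ hℓ)).pos _
  have hgt : p ^ (g * t) = (p ^ g) ^ t := pow_mul p g t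
  have hq1 : 1 < p ^ (g * t) := Nat.one_lt_pow (Nat.mul_ne_zero hg ht0.ne') hp.one_lt
  have hIp : ∀ ℓ ∈ I, ℓ.Prime := fun ℓ hℓ => hS ℓ (hIS hℓ)
  have hdq : p ^ g - 1 ∣ p ^ (g * t) - 1 := by
    rw [hgt]
    have := Nat.sub_dvd_pow_sub_pow (p ^ g) 1 t
    rwa [one_pow] at this
  have hgood : ∀ ℓ ∈ I, Good ℓ (p ^ (g * t)) := by
    intro ℓ hℓ
    rw [hgt]
    exact (hgood0 ℓ (hIS hℓ)).pow t
  have hsub : ∀ ℓ ∈ I, ℓ - 1 ∣ p ^ (g * t) - 1 := fun ℓ hℓ =>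
    ((dvd_mul_left (ℓ - 1) ℓ).trans (hgS ℓ (hIS hℓ))).trans hdq
  -- the exponents
  have hfac : ∀ ℓ ∈ I, (p ^ (g * t) - 1).factorization ℓ = (p ^ g - 1).factorization ℓ := by
    intro ℓ hℓ
    have htℓ : t.Coprime ℓ := by
      rw [ht]
      refine Nat.Coprime.prod_left fun ℓ' hℓ' => Nat.Coprime.pow_left _ ?_
      rw [Nat.coprime_primes (hS ℓ' (hRS ℓ' hℓ')) (hIp ℓ hℓ)]
      rintro rfl
      exact (mem_sdiff.1 hℓ').2 hℓ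
    obtain ⟨w, hw, hwc⟩ := lte_fac (hIp ℓ hℓ) hpg.le (hgood0 ℓ (hIS hℓ)) 0 htℓ
    rw [pow_zero, one_mul, one_mul, ← hgt] at hw
    have hw0 : w ≠ 0 := by
      rintro rfl
      rw [mul_zero] at hw
      omega
    rw [hw, Nat.factorization_mul (by omega) hw0, Finsupp.add_apply,
      Nat.factorization_eq_zero_of_not_dvd (n := w) (p := ℓ), add_zero]
    intro h
    have := Nat.dvd_gcd h (dvd_refl ℓ)
    rw [hwc] at this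
    exact (hIp ℓ hℓ).one_lt.ne' (Nat.dvd_one.1 this)
  set L := ∏ ℓ ∈ I, ℓ ^ (p ^ (g * t) - 1).factorization ℓ with hL
  have hL' : L = ∏ ℓ ∈ I, ℓ ^ (p ^ g - 1).factorization ℓ :=
    Finset.prod_congr rfl fun ℓ hℓ => by rw [hfac ℓ hℓ]
  have hLd : L ∣ p ^ g - 1 := by
    rw [hL']
    exact prod_fac_dvd hIp (by omega)
  have hLle : L < p ^ g := by
    have := Nat.le_of_dvd (by omega) hLd
    omega
  have hL0 : 0 < L := Nat.pos_of_dvd_of_pos hLd (by omega)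
  have hBL : ∀ ℓ ∈ I, ℓ ^ (p ^ (g * t) - 1).factorization ℓ ≤ L := fun ℓ hℓ =>
    Nat.le_of_dvd hL0 (Finset.dvd_prod_of_mem (fun ℓ => ℓ ^ (p ^ (g * t) - 1).factorization ℓ) hℓ)
  set Y := 2 * ((N₁ * t) * p * L) * L with hY
  have hY0 : 0 < Y := by
    rw [hY]
    exact Nat.mul_pos (Nat.mul_pos (by norm_num) (Nat.mul_pos (Nat.mul_pos (Nat.mul_pos hN0' ht0) hp.pos) hL0)) hL0
  have hYL : Y * L < A * t := by
    have e1 : L * L * L < p ^ g * p ^ g * p ^ g := by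
      have e2 : L * L < p ^ g * p ^ g := Nat.mul_lt_mul'' hLle hLle
      exact Nat.mul_lt_mul'' e2 hLle
    have e3 : 0 < 2 * N₁ * p * t := Nat.mul_pos (Nat.mul_pos (Nat.mul_pos (by norm_num) hN0') hp.pos) ht0
    calc Y * L = (2 * N₁ * p * t) * (L * L * L) := by rw [hY]; ring
      _ < (2 * N₁ * p * t) * (p ^ g * p ^ g * p ^ g) := Nat.mul_lt_mul_of_pos_left e1 e3
      _ = A * t := by
        rw [hA, show 3 * g + 1 = g + g + g + 1 by ring, pow_add, pow_add, pow_add, pow_one]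
        ring
  have hφ1 : ∀ ℓ ∈ S, 1 ≤ (ℓ - 1).totient := fun ℓ hℓ => Nat.totient_pos.2 (by
    have := (hS ℓ hℓ).two_le
    omega)
  have hbig : ∀ ℓ ∈ I, Y ^ (ℓ - 1).totient * L < ℓ ^ n ℓ := by
    intro ℓ hℓ
    have hφ := hφ1 ℓ (hIS hℓ)
    calc Y ^ (ℓ - 1).totient * L ≤ Y ^ (ℓ - 1).totient * L ^ (ℓ - 1).totient := by
          refine Nat.mul_le_mul_left _ ?_
          calc L = L ^ 1 := (pow_one L).symm
            _ ≤ L ^ (ℓ - 1).totient := Nat.pow_le_pow_right hL0 hφ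
      _ = (Y * L) ^ (ℓ - 1).totient := (mul_pow _ _ _).symm
      _ < (A * t) ^ (ℓ - 1).totient := Nat.pow_lt_pow_left hYL (by omega)
      _ ≤ (A * t) ^ K := Nat.pow_le_pow_right (Nat.mul_pos hA1 ht0) (hK ℓ (hIS hℓ))
      _ ≤ ℓ ^ n ℓ := hI ℓ hℓ
  have hn : ∀ ℓ ∈ I, 2 * (p ^ (g * t) - 1).factorization ℓ ≤ n ℓ := by
    intro ℓ hℓ
    set B := (p ^ (g * t) - 1).factorization ℓ with hB
    have e1 : ℓ ^ (2 * B) < ℓ ^ n ℓ := by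
      refine lt_of_le_of_lt ?_ (hbig ℓ hℓ)
      have e2 : ℓ ^ (2 * B) ≤ L * L := by
        rw [two_mul, pow_add]
        exact Nat.mul_le_mul (hBL ℓ hℓ) (hBL ℓ hℓ)
      have e3 : L ≤ Y := by
        have e4 : 1 ≤ 2 * (N₁ * t * p * L) :=
          Nat.mul_pos (by norm_num) (Nat.mul_pos (Nat.mul_pos (Nat.mul_pos hN0' ht0) hp.pos) hL0)
        calc L = 1 * L := (one_mul L).symm
          _ ≤ 2 * (N₁ * t * p * L) * L := Nat.mul_le_mul_right _ e4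
      have e5 : Y ≤ Y ^ (ℓ - 1).totient := by
        calc Y = Y ^ 1 := (pow_one Y).symm
          _ ≤ Y ^ (ℓ - 1).totient := Nat.pow_le_pow_right hY0 (hφ1 ℓ (hIS hℓ))
      exact e2.trans (Nat.mul_le_mul_right _ (e3.trans e5))
    exact ((Nat.pow_lt_pow_iff_right (hIp ℓ hℓ).one_lt).1 e1).le
  have D := mkDat hIp hq1 hgood hsub n hn
  set M := ∏ ℓ ∈ I, ℓ ^ n ℓ with hM
  have hfacM' : ∀ ℓ ∈ I, (∏ ℓ ∈ I, ℓ ^ (n ℓ - (p ^ (g * t) - 1).factorization ℓ)).factorization ℓ =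
      n ℓ - (p ^ (g * t) - 1).factorization ℓ := by
    intro ℓ hℓ
    rw [fac_prod hIp (fun ℓ => n ℓ - (p ^ (g * t) - 1).factorization ℓ), if_pos hℓ]
  have hM1 : M ≠ 1 := by
    obtain ⟨ℓ, hℓ⟩ := hIne
    have e1 := hbig ℓ hℓ
    have e2 : 1 ≤ Y ^ (ℓ - 1).totient * L := Nat.mul_pos (pow_pos hY0 _) hL0
    have e3 : n ℓ ≠ 0 := by
      intro h
      rw [h, pow_zero] at e1
      omega
    have e4 : ℓ ∣ M := (dvd_pow_self ℓ e3).trans (Finset.dvd_prod_of_mem (fun ℓ => ℓ ^ n ℓ) hℓ)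
    intro h
    rw [h] at e4
    exact (hIp ℓ hℓ).one_lt.ne' (Nat.dvd_one.1 e4)
  have hpM : ¬ p ∣ M := fun h => hpS (hIS (mem_of_dvd_prod hIp n hp h))
  have hpt : ¬ p ∣ t := fun h => hpS (hRS p (mem_of_dvd_prod (fun ℓ hℓ => hS ℓ (hRS ℓ hℓ)) n hp h))
  have hcop1 : N₁.Coprime t := Nat.Coprime.prod_right fun ℓ hℓ => Nat.Coprime.pow_right _ (hNS ℓ (hRS ℓ hℓ))
  have hcop2 : N₁.Coprime M := Nat.Coprime.prod_right fun ℓ hℓ => Nat.Coprime.pow_right _ (hNS ℓ (hIS hℓ))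
  have hcop3 : t.Coprime M := by
    refine Nat.Coprime.prod_left fun ℓ' hℓ' => Nat.Coprime.prod_right fun ℓ hℓ => Nat.Coprime.pow _ _ ?_
    rw [Nat.coprime_primes (hS ℓ' (hRS ℓ' hℓ')) (hIp ℓ hℓ)]
    rintro rfl
    exact (mem_sdiff.1 hℓ').2 hℓ
  have hexp' : ∀ U : (ZMod (N₁ * t))ˣ, U ^ (p ^ (g * t) - 1) = 1 := by
    refine exp_mul hcop1 ?_ ?_
    · intro U
      obtain ⟨c, hc⟩ := hdq
      rw [hc, pow_mul, hexp, one_pow]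
    · refine exp_prod (fun ℓ hℓ => hS ℓ (hRS ℓ hℓ)) n fun ℓ hℓ => ?_
      have e1 : (p ^ g - 1) * t ∣ (p ^ g) ^ t - 1 := by
        refine pow_sub_one_dvd t hpg.le fun ℓ' hℓ' hd => ?_
        exact (hgood0 ℓ' (hRS ℓ' (mem_of_dvd_prod (fun ℓ hℓ => hS ℓ (hRS ℓ hℓ)) n hℓ' hd))).1
      rw [hgt]
      refine dvd_trans ?_ e1
      rw [mul_comm (p ^ g - 1) t]
      exact Nat.mul_dvd_mul (Finset.dvd_prod_of_mem (fun ℓ => ℓ ^ n ℓ) hℓ)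
        ((dvd_mul_left (ℓ - 1) ℓ).trans (hgS ℓ (hRS ℓ hℓ)))
  have hprod : ∏ ℓ ∈ S, ℓ ^ n ℓ = t * M := (Finset.prod_sdiff hIS).symm
  refine part_gs hp hp2 D hM1 hpM hexp' (Nat.Coprime.mul_left hcop2 hcop3) ?_ hm1 hmp ?_ (by rw [hN, hprod, mul_assoc])
    ψ ((Dvd.intro_left t hprod.symm).trans hc) hpar
  · intro h
    rcases (hp.dvd_mul).1 h with h | h
    · exact hpN h
    · exact hpt h
  · intro ℓ hℓ hd
    have hℓI := mem_of_dvd_prod hIp n hℓ hd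
    rw [hfacM' ℓ hℓI]
    by_contra hcon
    push Not at hcon
    have e1 : ℓ ^ n ℓ = ℓ ^ (n ℓ - (p ^ (g * t) - 1).factorization ℓ) * ℓ ^ (p ^ (g * t) - 1).factorization ℓ := by
      rw [← pow_add, Nat.sub_add_cancel]
      have := hn ℓ hℓI
      omega
    have e2 : ℓ ^ n ℓ ≤ Y ^ (ℓ - 1).totient * L := by
      rw [e1]
      exact Nat.mul_le_mul hcon (hBL ℓ hℓI)
    exact absurd (hbig ℓ hℓI) (by omega)

end Pool.Agent.E8helper53.GS
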