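import Pool.Agent.Y18.GX.Ker

/-!
# Sums over Frobenius orbits
-/

set_option autoImplicit false

namespace Pool.Agent.E8helper53.GS

open Finset Pool.Agent.Y18.GX

/-- `q` is `1` modulo `ℓ`, and modulo `4` if `ℓ = 2` -/
def Good (ℓ q : ℕ) : Prop := q ≡ 1 [MOD ℓ] ∧ (ℓ = 2 → q ≡ 1 [MOD 4])

lemma Good.pow {ℓ q : ℕ} (h : Good ℓ q) (i : ℕ) : Good ℓ (q ^ i) := by
  refine ⟨?_, fun h2 => ?_⟩
  · have := h.1.pow i
    rwa [one_pow] at this
  · have := (h.2 h2).pow i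
    rwa [one_pow] at this

lemma geom_prime {ℓ Q : ℕ} (hℓ : ℓ.Prime) (h : Good ℓ Q) :
    ∃ v, ∑ r ∈ range ℓ, Q ^ r = ℓ * v ∧ v.Coprime ℓ := by
  rcases hℓ.eq_two_or_odd' with h2 | hodd
  · subst h2
    have h4 := h.2 rfl
    have h5 : Q % 4 = 1 := h4
    refine ⟨1 + 2 * (Q / 4), ?_, ?_⟩
    · rw [Finset.sum_range_succ, Finset.sum_range_succ, Finset.sum_range_zero, pow_zero, pow_one]
      omega
    · simp
  · -- work modulo `ℓ ^ 2`
    have hd : (((∑ r ∈ range ℓ, Q ^ r : ℕ)) : ZMod (ℓ ^ 2)) = (ℓ : ZMod (ℓ ^ 2)) := by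
      obtain ⟨c, hc⟩ : ∃ c : ℤ, (Q : ℤ) = 1 + ℓ * c := by
        have h1 : ((ℓ : ℕ) : ℤ) ∣ (Q : ℤ) - 1 := by
          have := (Nat.modEq_iff_dvd.1 h.1.symm)
          simpa using this
        obtain ⟨c, hc⟩ := h1
        exact ⟨c, by linarith⟩
      have hQ : (Q : ZMod (ℓ ^ 2)) = 1 + (ℓ : ZMod (ℓ ^ 2)) * (c : ZMod (ℓ ^ 2)) := by
        have := congrArg (fun z : ℤ => (z : ZMod (ℓ ^ 2))) hc
        push_cast at this
        exact this
      have hℓ2 : (ℓ : ZMod (ℓ ^ 2)) * (ℓ : ZMod (ℓ ^ 2)) = 0 := by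
        have := ZMod.natCast_self (ℓ ^ 2)
        rw [pow_two] at this ⊢
        push_cast at this
        exact this
      have hsq : ((ℓ : ZMod (ℓ ^ 2)) * (c : ZMod (ℓ ^ 2))) ^ 2 = 0 := by
        linear_combination (c : ZMod (ℓ ^ 2)) ^ 2 * hℓ2
      push_cast
      rw [hQ]
      simp only [one_add_pow_of_sq _ hsq]
      rw [Finset.sum_add_distrib, ← Finset.sum_mul]
      obtain ⟨y, hy⟩ := hodd
      have h3 : (∑ r ∈ range ℓ, (r : ZMod (ℓ ^ 2))) = ℓ * y := by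
        have h4 := Finset.sum_range_id_mul_two ℓ
        have h5 : ∑ r ∈ range ℓ, r = ℓ * y := by
          have h6 : (∑ r ∈ range ℓ, r) * 2 = (ℓ * y) * 2 := by
            rw [h4, show ℓ - 1 = y * 2 by omega]
            ring
          omega
        have := congrArg (fun z : ℕ => (z : ZMod (ℓ ^ 2))) h5
        push_cast at this
        exact this
      rw [h3]
      simp only [Finset.sum_const, card_range, nsmul_eq_mul, mul_one]
      linear_combination (y : ZMod (ℓ ^ 2)) * (c : ZMod (ℓ ^ 2)) * hℓ2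
    rw [ZMod.natCast_eq_natCast_iff] at hd
    have h1 : ℓ ∣ ∑ r ∈ range ℓ, Q ^ r := by
      have h2 : ∑ r ∈ range ℓ, Q ^ r ≡ ℓ [MOD ℓ] := hd.of_dvd (dvd_pow_self ℓ (by norm_num))
      exact (Nat.modEq_zero_iff_dvd.1 (h2.trans (Nat.modEq_zero_iff_dvd.2 dvd_rfl)))
    obtain ⟨v, hv⟩ := h1
    refine ⟨v, hv, ?_⟩
    rw [hv, pow_two] at hd
    have h3 : ℓ * v ≡ ℓ * 1 [MOD ℓ * ℓ] := by rwa [mul_one]
    have h4 : v ≡ 1 [MOD ℓ] := Nat.ModEq.mul_left_cancel' hℓ.ne_zero h3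
    rw [Nat.coprime_comm, Nat.Prime.coprime_iff_not_dvd hℓ]
    intro h5
    have h6 := (Nat.modEq_zero_iff_dvd.2 h5).symm.trans h4
    have h7 := (Nat.modEq_iff_dvd' (Nat.zero_le 1)).1 h6
    exact hℓ.one_lt.ne' (Nat.dvd_one.1 h7)

lemma pow_sub_one_dvd (M : ℕ) : ∀ {q : ℕ}, 1 ≤ q → (∀ ℓ, ℓ.Prime → ℓ ∣ M → q ≡ 1 [MOD ℓ]) →
    (q - 1) * M ∣ q ^ M - 1 := by
  induction M using Nat.recOnMul with
  | zero => simp
  | one => simp
  | prime p hp =>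
    intro q hq1 hM
    have h := pow_sub_one_geom q p hq1
    rw [h]
    apply Nat.mul_dvd_mul_left
    rw [← Nat.modEq_zero_iff_dvd]
    have h1 : ∑ r ∈ range p, q ^ r ≡ ∑ r ∈ range p, 1 [MOD p] := by
      rw [← ZMod.natCast_eq_natCast_iff]
      push_cast
      have h2 : (q : ZMod p) = 1 := by
        have := (ZMod.natCast_eq_natCast_iff _ _ _).2 (hM p hp dvd_rfl)
        simpa using this
      rw [h2]
      simp
    refine h1.trans ?_
    simp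
  | mul a b ha hb =>
    intro q hq1 hM
    have h1 := ha hq1 (fun ℓ hℓ hd => hM ℓ hℓ (hd.mul_right b))
    have h2 : (q ^ a - 1) * b ∣ (q ^ a) ^ b - 1 := by
      refine hb (Nat.one_le_pow _ _ hq1) (fun ℓ hℓ hd => ?_)
      have := (hM ℓ hℓ (hd.mul_left a)).pow a
      rwa [one_pow] at this
    rw [pow_mul]
    refine dvd_trans ?_ h2
    rw [← mul_assoc]
    exact Nat.mul_dvd_mul_right h1 b

section
variable {k : Type*} [Field k]

lemma exists_step (P : ℕ → Prop) (M : ℕ) (h1 : ¬ P 1) (hM : P M) (hM0 : M ≠ 0) :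
    ∃ i ℓ, ℓ.Prime ∧ i * ℓ ∣ M ∧ ¬ P i ∧ P (i * ℓ) := by
  induction M using induction_on_primes with
  | zero => exact absurd rfl hM0
  | one => exact absurd hM h1
  | prime_mul ℓ a hℓ ih =>
    by_cases ha : P a
    · obtain ⟨i, ℓ', h2, h3, h4, h5⟩ := ih ha (by rintro rfl; exact hM0 (by simp))
      exact ⟨i, ℓ', h2, h3.mul_left ℓ, h4, h5⟩
    · exact ⟨a, ℓ, hℓ, by rw [mul_comm], ha, by rwa [mul_comm]⟩

/-- the trace of `z` vanishes if `z^(q-1)` is not `1` -/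
theorem trace_zero' {q M : ℕ} (hq1 : 1 ≤ q) (hM0 : M ≠ 0) (hM : ∀ ℓ, ℓ.Prime → ℓ ∣ M → Good ℓ q)
    (z : k) (h1 : z ^ (q - 1) ≠ 1) (h2 : z ^ ((q - 1) * M) = 1) :
    ∑ j ∈ range M, z ^ q ^ j = 0 := by
  have hz : z ≠ 0 := by
    rintro rfl
    rcases Nat.eq_zero_or_pos (q - 1) with h | h
    · rw [h, pow_zero] at h1
      exact h1 rfl
    · rw [zero_pow (Nat.mul_ne_zero h.ne' hM0)] at h2
      exact zero_ne_one h2
  have hPM : z ^ (q ^ M - 1) = 1 := by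
    obtain ⟨c, hc⟩ := pow_sub_one_dvd M hq1 (fun ℓ hℓ hd => (hM ℓ hℓ hd).1)
    rw [hc, pow_mul, h2, one_pow]
  obtain ⟨i, ℓ, hℓ, hd, hi, hiℓ⟩ := exists_step (fun i => z ^ (q ^ i - 1) = 1) M
    (by simpa using h1) hPM hM0
  have hℓM : ℓ ∣ M := (dvd_mul_left ℓ i).trans hd
  set Q := q ^ i with hQ
  have hQ1 : 1 ≤ Q := Nat.one_le_pow _ _ hq1
  set η := z ^ (Q - 1) with hη
  obtain ⟨v, hv, hvc⟩ := geom_prime hℓ ((hM ℓ hℓ hℓM).pow i)
  rw [← hQ] at hv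
  have e1 : (η ^ ℓ) ^ v = 1 := by
    rw [← pow_mul, ← hv, hη, ← pow_mul, ← pow_sub_one_geom Q ℓ hQ1, hQ, ← pow_mul]
    exact hiℓ
  have e2 : (η ^ ℓ) ^ M = 1 := by
    have h3 : q - 1 ∣ Q - 1 := by
      have := Nat.sub_dvd_pow_sub_pow q 1 i
      rwa [one_pow] at this
    obtain ⟨c, hc⟩ := h3
    rw [hη, hc, ← pow_mul, ← pow_mul, show (q - 1) * c * (ℓ * M) = (q - 1) * M * (c * ℓ) by ring, pow_mul, h2,
      one_pow]
  have hvM : v.Coprime M := by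
    rw [Nat.coprime_iff_gcd_eq_one]
    by_contra hne
    obtain ⟨ℓ', hℓ', hd'⟩ := Nat.exists_prime_and_dvd hne
    have h3 : ℓ' ∣ v := hd'.trans (Nat.gcd_dvd_left _ _)
    have h4 : ℓ' ∣ M := hd'.trans (Nat.gcd_dvd_right _ _)
    by_cases h5 : ℓ' = ℓ
    · subst h5
      have := Nat.dvd_gcd h3 (dvd_refl ℓ')
      rw [hvc] at this
      exact hℓ'.one_lt.ne' (Nat.dvd_one.1 this)
    · have h6 : ∑ r ∈ range ℓ, Q ^ r ≡ ℓ [MOD ℓ'] := by
        rw [← ZMod.natCast_eq_natCast_iff]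
        push_cast
        have h2 : (Q : ZMod ℓ') = 1 := by
          have := (ZMod.natCast_eq_natCast_iff _ _ _).2 ((hM ℓ' hℓ' h4).pow i).1
          rw [← hQ] at this
          simpa using this
        rw [h2]
        simp
      rw [hv] at h6
      have h7 : ℓ * v ≡ 0 [MOD ℓ'] := Nat.modEq_zero_iff_dvd.2 (h3.mul_left ℓ)
      have h8 : ℓ' ∣ ℓ := Nat.modEq_zero_iff_dvd.1 (h6.symm.trans h7)
      exact h5 ((Nat.prime_dvd_prime_iff_eq hℓ' hℓ).1 h8)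
  have e3 : η ^ ℓ = 1 := by
    have h3 : orderOf (η ^ ℓ) ∣ 1 := by
      rw [← hvM]
      exact Nat.dvd_gcd (orderOf_dvd_of_pow_eq_one e1) (orderOf_dvd_of_pow_eq_one e2)
    exact orderOf_eq_one_iff.1 (Nat.dvd_one.1 h3)
  have e4 : ∀ j, η ^ q ^ j = η := by
    intro j
    have h3 := ((hM ℓ hℓ hℓM).pow j).1
    have h4 : 1 ≤ q ^ j := Nat.one_le_pow _ _ hq1
    obtain ⟨c, hc⟩ := (Nat.modEq_iff_dvd' h4).1 h3.symm
    have h5 : q ^ j = ℓ * c + 1 := by omega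
    rw [h5, pow_succ, pow_mul, e3, one_pow, one_mul]
  have hper : ∀ j, z ^ q ^ (j + M) = z ^ q ^ j := by
    intro j
    rw [pow_add, mul_comm, pow_mul]
    congr 1
    calc z ^ q ^ M = z ^ (q ^ M - 1 + 1) := by
          rw [Nat.sub_add_cancel (Nat.one_le_pow _ _ hq1)]
      _ = z := by rw [pow_succ, hPM, one_mul]
  have h6 := periodic_shift (fun j => z ^ q ^ j) M hper i
  have e5 : z ^ Q = z * η := by
    rw [hη, ← pow_succ', Nat.sub_add_cancel hQ1]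
  have h7 : ∀ j, z ^ q ^ (j + i) = η * z ^ q ^ j := by
    intro j
    rw [pow_add, mul_comm, pow_mul, ← hQ, e5, mul_pow, e4, mul_comm]
  simp only [h7] at h6
  rw [← Finset.mul_sum] at h6
  have h8 : (η - 1) * ∑ j ∈ range M, z ^ q ^ j = 0 := by
    rw [sub_mul, one_mul, h6, sub_self]
  rcases mul_eq_zero.1 h8 with h9 | h9
  · exact absurd (sub_eq_zero.1 h9) hi
  · exact h9

end

end Pool.Agent.E8helper53.GS
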