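import Pool.Agent.E8helper53.GS.Theta
import Pool.Agent.E8helper53.GR.Dec

/-!
# The kernel of a power of a primitive character
-/

set_option autoImplicit false

namespace Pool.Agent.E8helper53.GS

open Finset Polynomial Pool.Agent.Y18.GX Pool.Agent.E8helper53.GR

/-- the admissible data: `M = M' L`, where `L` is the part of `q - 1` at the primes dividing `M` -/
structure Dat (M M' L q : ℕ) : Prop where
  pos : 0 < M
  q1 : 1 < q
  fac : M = M' * L
  dvd : L ∣ M'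
  Lq : L ∣ q - 1
  good : ∀ ℓ, ℓ.Prime → ℓ ∣ M → Good ℓ q
  sub : ∀ ℓ, ℓ.Prime → ℓ ∣ M → ℓ - 1 ∣ q - 1
  part : ∀ ℓ, ℓ.Prime → ℓ ∣ M → L.factorization ℓ = (q - 1).factorization ℓ

lemma dvd_of_primes {a d : ℕ} (ha : a ≠ 0) (h : ∀ ℓ, ℓ.Prime → ℓ ∣ a → ℓ ^ a.factorization ℓ ∣ d) : a ∣ d := by
  rcases Nat.eq_zero_or_pos d with hd | hd
  · rw [hd]
    exact dvd_zero _
  · rw [← Nat.factorization_prime_le_iff_dvd ha hd.ne']
    intro ℓ hℓ
    by_cases hla : ℓ ∣ a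
    · exact (hℓ.pow_dvd_iff_le_factorization hd.ne').1 (h ℓ hℓ hla)
    · rw [Nat.factorization_eq_zero_of_not_dvd hla]
      exact Nat.zero_le _

namespace Dat
variable {M M' L q : ℕ} (D : Dat M M' L q)

include D

lemma L0 : L ≠ 0 := by
  intro h
  have := D.pos
  rw [D.fac, h, mul_zero] at this
  omega

lemma M'0 : M' ≠ 0 := by
  intro h
  have := D.pos
  rw [D.fac, h, zero_mul] at this
  omega

lemma q0 : q - 1 ≠ 0 := by
  have := D.q1
  omega

lemma dvdL {ℓ : ℕ} (hℓ : ℓ.Prime) (hd : ℓ ∣ M) : ℓ ∣ L := by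
  have h1 : ℓ ∣ q - 1 := (Nat.modEq_iff_dvd' (by have := D.q1; omega)).1 (D.good ℓ hℓ hd).1.symm
  have h2 := (hℓ.dvd_iff_one_le_factorization D.q0).1 h1
  rw [← D.part ℓ hℓ hd] at h2
  exact (hℓ.dvd_iff_one_le_factorization D.L0).2 h2

lemma facM {ℓ : ℕ} : M.factorization ℓ = M'.factorization ℓ + L.factorization ℓ := by
  rw [D.fac, Nat.factorization_mul D.M'0 D.L0, Finsupp.add_apply]

lemma facle {ℓ : ℕ} (hℓ : ℓ.Prime) : L.factorization ℓ ≤ M'.factorization ℓ :=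
  (Nat.factorization_prime_le_iff_dvd D.L0 D.M'0).2 D.dvd ℓ hℓ

lemma sq_dvd : M ∣ M' * M' := by
  rw [D.fac]
  exact Nat.mul_dvd_mul_left _ D.dvd

lemma two_le {ℓ : ℕ} (hℓ : ℓ.Prime) (hd : ℓ ∣ M) : ℓ ^ 2 ∣ M := by
  have h1 := D.dvdL hℓ hd
  rw [D.fac, pow_two]
  exact Nat.mul_dvd_mul (h1.trans D.dvd) h1

lemma four_dvd (hd : 2 ∣ M) : 4 ∣ q - 1 :=
  (Nat.modEq_iff_dvd' (by have := D.q1; omega)).1 ((D.good 2 Nat.prime_two hd).2 rfl).symm

lemma q_eq {ℓ : ℕ} (hℓ : ℓ.Prime) (hd : ℓ ∣ M) :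
    ∃ e, q - 1 = ℓ ^ (L.factorization ℓ) * e ∧ e.Coprime ℓ := by
  rw [D.part ℓ hℓ hd]
  refine ⟨(q - 1) / ℓ ^ (q - 1).factorization ℓ, (Nat.ordProj_mul_ordCompl_eq_self (q - 1) ℓ).symm, ?_⟩
  exact (Nat.coprime_ordCompl hℓ D.q0).symm

/-- the elements of `H` modulo `ℓ ^ n'` -/
lemma teich (h : (ZMod M)ˣ) (hh : h ^ (q - 1) = 1) {ℓ : ℕ} (hℓ : ℓ.Prime) (hd : ℓ ∣ M)
    (u₀ : ℕ) (hu₀ : ((u₀ : ℕ) : ZMod M) = h) :
    Teich ℓ (M'.factorization ℓ) ((u₀ : ℕ) : ZMod (ℓ ^ M'.factorization ℓ)) := by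
  have : NeZero M := ⟨D.pos.ne'⟩
  obtain ⟨e, he, hec⟩ := D.q_eq hℓ hd
  set B := L.factorization ℓ with hB
  set n := M.factorization ℓ with hn
  have hnB : M'.factorization ℓ = n - B := by
    have := D.facM (ℓ := ℓ)
    omega
  have hℓn : ℓ ^ n ∣ M := Nat.ordProj_dvd M ℓ
  have hucop : u₀.Coprime M := by
    rw [← ZMod.isUnit_iff_coprime, hu₀]
    exact h.isUnit
  have huℓ : ¬ ℓ ∣ u₀ := by
    intro h1
    have := Nat.dvd_gcd h1 hd
    rw [hucop] at this
    exact hℓ.one_lt.ne' (Nat.dvd_one.1 this)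
  have hu0 : u₀ ≠ 0 := fun h => huℓ (h ▸ dvd_zero _)
  have h1 : u₀ ^ (q - 1) ≡ 1 [MOD M] := by
    rw [← ZMod.natCast_eq_natCast_iff]
    push_cast
    rw [hu₀, ← Units.val_pow_eq_pow_val, hh, Units.val_one]
  have h2 : u₀ ^ (q - 1) ≡ 1 [MOD ℓ ^ n] := h1.of_dvd hℓn
  have hBn : B ≤ n := by
    have := D.facM (ℓ := ℓ)
    omega
  refine ⟨fun hne => ?_, fun h2' => ?_⟩
  · -- odd primes
    have hG : Good ℓ (u₀ ^ (ℓ - 1)) := by
      refine ⟨?_, fun h => absurd h hne⟩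
      have : Fact ℓ.Prime := ⟨hℓ⟩
      rw [← ZMod.natCast_eq_natCast_iff]
      push_cast
      apply ZMod.pow_card_sub_one_eq_one
      intro h3
      exact huℓ ((ZMod.natCast_eq_zero_iff _ _).1 h3)
    have h3 : ℓ ^ n ∣ (u₀ ^ (ℓ - 1)) ^ (ℓ ^ B * e) - 1 := by
      rw [← he]
      have h4 := h2.pow (ℓ - 1)
      rw [one_pow, ← pow_mul, mul_comm, pow_mul] at h4
      exact (Nat.modEq_iff_dvd' (Nat.one_le_pow _ _ (Nat.one_le_pow _ _ (by omega)))).1 h4.symm
    have h4 := lte hℓ (Nat.one_le_pow _ _ (by omega)) hG hec h3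
    rw [← hnB] at h4
    have h5 := (ZMod.natCast_eq_natCast_iff _ _ _).2
      ((Nat.modEq_iff_dvd' (Nat.one_le_pow _ _ (by omega : 0 < u₀))).2 h4)
    push_cast at h5
    exact h5.symm
  · subst h2'
    have hB2 : 2 ≤ n := by
      have h4 := D.two_le Nat.prime_two hd
      exact (Nat.prime_two.pow_dvd_iff_le_factorization D.pos.ne').1 h4
    have heven : Even (2 ^ B * e) := by
      rw [← he]
      exact even_iff_two_dvd.2 (dvd_trans (by norm_num) (D.four_dvd hd))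
    rw [he] at h2
    have h4 : u₀ % 4 = 1 ∨ u₀ % 4 = 3 := by omega
    rcases h4 with h4 | h4
    · left
      have hG : Good 2 u₀ := by
        refine ⟨?_, fun _ => ?_⟩
        · rw [Nat.ModEq]
          omega
        · rw [Nat.ModEq]
          omega
      have h5 := lte Nat.prime_two (by omega) hG hec
        ((Nat.modEq_iff_dvd' (Nat.one_le_pow _ _ (by omega))).1 h2.symm)
      rw [← hnB] at h5
      have h6 := (ZMod.natCast_eq_natCast_iff _ _ _).2 ((Nat.modEq_iff_dvd' (by omega : 1 ≤ u₀)).2 h5)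
      push_cast at h6
      exact h6.symm
    · right
      -- replace `u₀` by `(2^n - 1) u₀`
      have h2n : 4 ≤ 2 ^ n := by
        calc 4 = 2 ^ 2 := by norm_num
          _ ≤ 2 ^ n := Nat.pow_le_pow_right (by norm_num) hB2
      have h4n : 4 ∣ 2 ^ n := by
        have : (2 : ℕ) ^ 2 ∣ 2 ^ n := pow_dvd_pow 2 hB2
        simpa using this
      set v := (2 ^ n - 1) * u₀ with hv
      have hv1 : 1 ≤ v := Nat.mul_pos (by omega) (by omega)
      have hv4 : v % 4 = 1 := by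
        obtain ⟨w, hw⟩ := h4n
        have : 2 ^ n - 1 = 4 * (w - 1) + 3 := by omega
        rw [hv, this, Nat.mul_mod, h4]
        simp [Nat.add_mod]
      have hG : Good 2 v := by
        refine ⟨?_, fun _ => ?_⟩
        · rw [Nat.ModEq]
          omega
        · rw [Nat.ModEq]
          omega
      have hcast : ((2 ^ n - 1 : ℕ) : ZMod (2 ^ n)) = -1 := by
        rw [Nat.cast_sub (by omega), ZMod.natCast_self]
        simp
      have h5 : v ^ (2 ^ B * e) ≡ 1 [MOD 2 ^ n] := by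
        rw [← ZMod.natCast_eq_natCast_iff]
        rw [hv, mul_pow, Nat.cast_mul, Nat.cast_pow, hcast, heven.neg_one_pow, one_mul]
        exact (ZMod.natCast_eq_natCast_iff _ _ _).2 h2
      have h6 := lte Nat.prime_two hv1 hG hec
        ((Nat.modEq_iff_dvd' (Nat.one_le_pow _ _ hv1)).1 h5.symm)
      rw [← hnB] at h6
      have h7 := (ZMod.natCast_eq_natCast_iff _ _ _).2 ((Nat.modEq_iff_dvd' hv1).2 h6)
      have hcast' : ((2 ^ n - 1 : ℕ) : ZMod (2 ^ M'.factorization 2)) = -1 := by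
        have h8 : ((2 ^ n : ℕ) : ZMod (2 ^ M'.factorization 2)) = 0 := by
          rw [ZMod.natCast_eq_zero_iff]
          exact pow_dvd_pow _ (by omega)
        rw [Nat.cast_sub (by omega), h8]
        simp
      rw [hv, Nat.cast_mul, hcast'] at h7
      push_cast at h7
      linear_combination h7

/-- congruence modulo `M'` -/
lemma congr_M' {a b : ℕ} (h : ∀ ℓ, ℓ.Prime → ℓ ∣ M → a ≡ b [MOD ℓ ^ M'.factorization ℓ]) : a ≡ b [MOD M'] := by
  wlog hab : a ≤ b generalizing a b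
  · exact (this (fun ℓ hℓ hd => (h ℓ hℓ hd).symm) (by omega)).symm
  · rw [Nat.modEq_iff_dvd' hab]
    refine dvd_of_primes D.M'0 fun ℓ hℓ hd => ?_
    exact (Nat.modEq_iff_dvd' hab).1 (h ℓ hℓ (by rw [D.fac]; exact hd.mul_right L))

/-- elements which are `1` modulo `M'` -/
lemma one_mem {u : (ZMod M)ˣ} {t : ℕ} (hu : (u : ZMod M) = ((1 + M' * t : ℕ) : ZMod M)) : u ^ (q - 1) = 1 := by
  apply Units.ext
  rw [Units.val_pow_eq_pow_val, hu, Units.val_one]
  have hsq : (((M' * t : ℕ)) : ZMod M) ^ 2 = 0 := by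
    have h1 : (((M' * t : ℕ)) : ZMod M) ^ 2 = ((M' * M' * t ^ 2 : ℕ) : ZMod M) := by
      push_cast
      ring
    rw [h1, ZMod.natCast_eq_zero_iff]
    exact D.sq_dvd.mul_right _
  have h2 := one_add_pow_of_sq (((M' * t : ℕ)) : ZMod M) hsq (q - 1)
  have h3 : ((q - 1 : ℕ) : ZMod M) * (((M' * t : ℕ)) : ZMod M) = 0 := by
    rw [← Nat.cast_mul, ZMod.natCast_eq_zero_iff]
    obtain ⟨c, hc⟩ := D.Lq
    rw [hc, D.fac]
    exact ⟨c * t, by ring⟩
  rw [h3, add_zero] at h2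
  rw [← h2]
  push_cast
  rfl

lemma pow_mod (z : ZMod M) (hz : IsUnit z) (ℓ : ℕ) (hℓ : ℓ.Prime) (hd : ℓ ∣ M) :
    (z.val) ^ ((q - 1) * ℓ ^ M.factorization ℓ) ≡ 1 [MOD ℓ ^ M.factorization ℓ] := by
  have : NeZero M := ⟨D.pos.ne'⟩
  have hcop : z.val.Coprime M := by
    rw [← ZMod.isUnit_iff_coprime, ZMod.natCast_val, ZMod.cast_id', id_eq]
    exact hz
  have hcop' : z.val.Coprime (ℓ ^ M.factorization ℓ) :=
    Nat.Coprime.coprime_dvd_right (Nat.ordProj_dvd M ℓ) hcop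
  have h1 := Nat.ModEq.pow_totient hcop'
  have hf1 : 1 ≤ M.factorization ℓ := (hℓ.dvd_iff_one_le_factorization D.pos.ne').1 hd
  rw [Nat.totient_prime_pow hℓ (by omega)] at h1
  obtain ⟨c, hc⟩ := D.sub ℓ hℓ hd
  have h2 : (q - 1) * ℓ ^ M.factorization ℓ = ℓ ^ (M.factorization ℓ - 1) * (ℓ - 1) * (c * ℓ) := by
    have : ℓ ^ M.factorization ℓ = ℓ ^ (M.factorization ℓ - 1) * ℓ := by
      rw [← pow_succ]
      congr 1
      omega
    rw [hc, this]
    ring
  rw [h2, pow_mul]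
  have h3 := h1.pow (c * ℓ)
  rwa [one_pow] at h3

lemma pow_all (h : (ZMod M)ˣ) : (h ^ (q - 1)) ^ M = 1 := by
  have : NeZero M := ⟨D.pos.ne'⟩
  apply Units.ext
  rw [← pow_mul, Units.val_pow_eq_pow_val, Units.val_one]
  by_cases hsub : (0 : ZMod M) = 1
  · exact (subsingleton_of_zero_eq_one hsub).elim _ _
  have h1 : (((h : ZMod M).val ^ ((q - 1) * M) : ℕ) : ZMod M) = ((1 : ℕ) : ZMod M) := by
    rw [ZMod.natCast_eq_natCast_iff]
    have hpos : 1 ≤ (h : ZMod M).val ^ ((q - 1) * M) := by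
      apply Nat.one_le_pow
      by_contra hcon
      have h2 : (h : ZMod M).val = 0 := by omega
      rw [ZMod.val_eq_zero] at h2
      have h3 := h.isUnit
      rw [h2, isUnit_zero_iff] at h3
      exact hsub h3
    symm
    rw [Nat.modEq_iff_dvd' hpos]
    refine dvd_of_primes D.pos.ne' fun ℓ hℓ hd => ?_
    rw [← Nat.modEq_iff_dvd' hpos]
    obtain ⟨c, hc⟩ := Nat.ordProj_dvd M ℓ
    have h2 := (D.pow_mod h h.isUnit ℓ hℓ hd).pow c
    rw [one_pow, ← pow_mul, mul_assoc, ← hc] at h2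
    exact h2.symm
  push_cast at h1
  rw [ZMod.natCast_val, ZMod.cast_id', id_eq] at h1
  exact h1

section
variable {k : Type*} [Field k] (ψ : MulChar (ZMod M) k)

/-- the kernel of the power of `ψ` -/
theorem kernel' (hprim : ∀ ℓ, ℓ.Prime → ℓ ∣ M → ψ ((1 + M / ℓ : ℕ) : ZMod M) ≠ 1) (h : (ZMod M)ˣ)
    (hψ : ψ (h : ZMod M) ^ (q - 1) = 1) : h ^ (q - 1) = 1 := by
  have : NeZero M := ⟨D.pos.ne'⟩
  by_contra hne
  have hpM := D.pow_mod
  have hxM := D.pow_all h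
  have ho1 : orderOf (h ^ (q - 1)) ≠ 1 := fun h1 => hne (orderOf_eq_one_iff.1 h1)
  obtain ⟨ℓ, hℓ, hdo⟩ := Nat.exists_prime_and_dvd ho1
  have hℓM : ℓ ∣ M := hdo.trans (orderOf_dvd_of_pow_eq_one hxM)
  have ho0 : 0 < orderOf (h ^ (q - 1)) := orderOf_pos _
  obtain ⟨o', ho'⟩ := hdo
  have ho'0 : o' ≠ 0 := by
    rintro rfl
    rw [mul_zero] at ho'
    omega
  set z := h ^ o' with hz
  set y := z ^ (q - 1) with hy
  have hy' : y = (h ^ (q - 1)) ^ o' := by
    rw [hy, hz, ← pow_mul, ← pow_mul, mul_comm]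
  have hyℓ : y ^ ℓ = 1 := by
    rw [hy', ← pow_mul, mul_comm, ← ho', pow_orderOf_eq_one]
  have hy1 : y ≠ 1 := by
    rw [hy']
    intro h1
    have h2 := Nat.le_of_dvd (Nat.pos_of_ne_zero ho'0) (orderOf_dvd_of_pow_eq_one h1)
    rw [ho'] at h2
    have := hℓ.two_le
    nlinarith [Nat.pos_of_ne_zero ho'0]
  have hψy : ψ (y : ZMod M) = 1 := by
    rw [hy', Units.val_pow_eq_pow_val, Units.val_pow_eq_pow_val, map_pow, map_pow, hψ, one_pow]
  -- the natural number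
  set v := (y : ZMod M).val with hv
  have hvy : ((v : ℕ) : ZMod M) = y := by rw [hv, ZMod.natCast_val, ZMod.cast_id', id_eq]
  set zz := (z : ZMod M).val with hzz
  have hzzy : ((zz : ℕ) : ZMod M) = z := by rw [hzz, ZMod.natCast_val, ZMod.cast_id', id_eq]
  have hzzc : zz.Coprime M := by
    rw [← ZMod.isUnit_iff_coprime, hzzy]
    exact z.isUnit
  have hvz : v ≡ zz ^ (q - 1) [MOD M] := by
    rw [← ZMod.natCast_eq_natCast_iff, hvy]
    push_cast
    rw [hzzy, hy, Units.val_pow_eq_pow_val]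
  have hvℓ : v ^ ℓ ≡ 1 [MOD M] := by
    rw [← ZMod.natCast_eq_natCast_iff]
    push_cast
    rw [hvy, ← Units.val_pow_eq_pow_val, hyℓ, Units.val_one]
  have hv0 : 1 ≤ v := by
    by_contra hcon
    have h2 : v = 0 := by omega
    rw [h2, Nat.cast_zero] at hvy
    have h3 := y.isUnit
    rw [← hvy, isUnit_zero_iff] at h3
    apply hne
    apply Units.ext
    exact (subsingleton_of_zero_eq_one h3).elim _ _
  -- `v = 1` modulo `M / ℓ`
  have hfℓ : (M / ℓ).factorization = M.factorization - Finsupp.single ℓ 1 := by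
    rw [Nat.factorization_div hℓM, hℓ.factorization]
  have hMℓ0 : M / ℓ ≠ 0 := (Nat.div_pos (Nat.le_of_dvd D.pos hℓM) hℓ.pos).ne'
  have hvM : M / ℓ ∣ v - 1 := by
    refine dvd_of_primes hMℓ0 fun ℓ' hℓ' hd' => ?_
    have hd'' : ℓ' ∣ M := hd'.trans (Nat.div_dvd_of_dvd hℓM)
    by_cases heq : ℓ' = ℓ
    · subst heq
      have h1 : (M / ℓ').factorization ℓ' = M.factorization ℓ' - 1 := by
        rw [hfℓ]
        simp
      rw [h1]
      have hzℓ : ¬ ℓ' ∣ zz := by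
        intro h1
        have := Nat.dvd_gcd h1 hd''
        rw [hzzc] at this
        exact hℓ'.one_lt.ne' (Nat.dvd_one.1 this)
      have hG : Good ℓ' v := by
        refine ⟨?_, fun h2 => ?_⟩
        · refine (hvz.of_dvd hd'').trans ?_
          have : Fact ℓ'.Prime := ⟨hℓ'⟩
          obtain ⟨c, hc⟩ := D.sub ℓ' hℓ' hd''
          rw [← ZMod.natCast_eq_natCast_iff]
          push_cast
          rw [hc, pow_mul, ZMod.pow_card_sub_one_eq_one, one_pow]
          intro h3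
          exact hzℓ ((ZMod.natCast_eq_zero_iff _ _).1 h3)
        · subst h2
          have h4M : 4 ∣ M := by
            have := D.two_le Nat.prime_two hd''
            simpa using this
          refine (hvz.of_dvd h4M).trans ?_
          obtain ⟨c, hc⟩ := D.four_dvd hd''
          have h5 : zz % 4 = 1 ∨ zz % 4 = 3 := by omega
          rw [hc, show 4 * c = 2 * (2 * c) by ring, pow_mul]
          have h6 : zz ^ 2 ≡ 1 [MOD 4] := by
            rw [Nat.ModEq, Nat.pow_mod]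
            rcases h5 with h5 | h5 <;> rw [h5]
          have h7 := h6.pow (2 * c)
          rwa [one_pow] at h7
      have h2 := lte (B := 1) (e := 1) (n := M.factorization ℓ') hℓ' hv0 hG (Nat.coprime_one_left _) (by
        rw [pow_one, mul_one]
        exact (Nat.modEq_iff_dvd' (Nat.one_le_pow _ _ hv0)).1 (hvℓ.of_dvd (Nat.ordProj_dvd M ℓ')).symm)
      exact h2
    · have h1 : (M / ℓ).factorization ℓ' = M.factorization ℓ' := by
        rw [hfℓ]
        simp [Finsupp.single_apply, Ne.symm heq]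
      rw [h1]
      -- the order is prime to `ℓ'` and a power of `ℓ'`
      set mm := ℓ' ^ M.factorization ℓ' with hmm
      have hmM : mm ∣ M := Nat.ordProj_dvd M ℓ'
      have e1 : ((v : ℕ) : ZMod mm) ^ ℓ = 1 := by
        have := (ZMod.natCast_eq_natCast_iff _ _ _).2 (hvℓ.of_dvd hmM)
        push_cast at this
        exact this
      have e2 : ((v : ℕ) : ZMod mm) ^ mm = 1 := by
        have h3 := hpM z z.isUnit ℓ' hℓ' hd''
        have h4 : v ^ mm ≡ 1 [MOD mm] := by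
          refine ((hvz.of_dvd hmM).pow mm).trans ?_
          rw [← pow_mul]
          exact h3
        have := (ZMod.natCast_eq_natCast_iff _ _ _).2 h4
        push_cast at this
        exact this
      have e3 : ((v : ℕ) : ZMod mm) = 1 := by
        have h3 : orderOf ((v : ℕ) : ZMod mm) ∣ 1 := by
          have hcop : ℓ.Coprime mm := Nat.Coprime.pow_right _ ((Nat.coprime_primes hℓ hℓ').2 (Ne.symm heq))
          rw [← hcop]
          exact Nat.dvd_gcd (orderOf_dvd_of_pow_eq_one e1) (orderOf_dvd_of_pow_eq_one e2)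
        exact orderOf_eq_one_iff.1 (Nat.dvd_one.1 h3)
      have h4 : ((v : ℕ) : ZMod mm) = ((1 : ℕ) : ZMod mm) := by rw [e3, Nat.cast_one]
      exact (Nat.modEq_iff_dvd' hv0).1 ((ZMod.natCast_eq_natCast_iff _ _ _).1 h4).symm
  obtain ⟨s, hs⟩ := hvM
  have hvs : v = 1 + M / ℓ * s := by omega
  have hψs : ψ ((1 + M / ℓ : ℕ) : ZMod M) ^ s = 1 := by
    rw [← map_pow, ← one_add_div_pow (D.two_le hℓ hℓM), ← hvs, hvy, hψy]
  have hψℓ : ψ ((1 + M / ℓ : ℕ) : ZMod M) ^ ℓ = 1 := by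
    rw [← map_pow, ← one_add_div_pow (D.two_le hℓ hℓM), Nat.div_mul_cancel hℓM]
    push_cast
    rw [ZMod.natCast_self, add_zero, map_one]
  have hsℓ : ¬ ℓ ∣ s := by
    rintro ⟨c, hc⟩
    apply hy1
    apply Units.ext
    rw [Units.val_one, ← hvy, hvs, hc, ← mul_assoc, Nat.div_mul_cancel hℓM]
    push_cast
    rw [ZMod.natCast_self, zero_mul, add_zero]
  apply hprim ℓ hℓ hℓM
  have h3 := Nat.dvd_gcd (orderOf_dvd_of_pow_eq_one hψℓ) (orderOf_dvd_of_pow_eq_one hψs)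
  rw [(Nat.Prime.coprime_iff_not_dvd hℓ).2 hsℓ] at h3
  exact orderOf_eq_one_iff.1 (Nat.dvd_one.1 h3)

/-- the powers of the values -/
lemma pow_M (ψ : MulChar (ZMod M) k) (x : (ZMod M)ˣ) : ψ (x : ZMod M) ^ ((q - 1) * M) = 1 := by
  rw [← map_pow, ← Units.val_pow_eq_pow_val, pow_mul, D.pow_all, Units.val_one, map_one]

end

end Dat

end Pool.Agent.E8helper53.GS
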