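import Pool.Agent.E8helper53.GS.Rel

/-!
# Residues, complex lifts and a half system
-/

set_option autoImplicit false

namespace Pool.Agent.E8helper53.GS

open Finset Polynomial Pool.Agent.Y18.GX Pool.Agent.E8helper53.GR

/-- the natural representative -/
def vv {M : ℕ} (h : (ZMod M)ˣ) : ℕ := (h : ZMod M).val

lemma vv_cast {M : ℕ} [NeZero M] (h : (ZMod M)ˣ) : ((vv h : ℕ) : ZMod M) = h := by
  rw [vv, ZMod.natCast_val, ZMod.cast_id', id_eq]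

lemma vv_coprime {M : ℕ} [NeZero M] (h : (ZMod M)ˣ) : (vv h).Coprime M := by
  rw [← ZMod.isUnit_iff_coprime, vv_cast]
  exact h.isUnit

lemma mem_HH {M q : ℕ} [NeZero M] {h : (ZMod M)ˣ} : h ∈ HH M q ↔ h ^ (q - 1) = 1 := by
  simp [HH]

namespace Dat
variable {M M' L q : ℕ} (D : Dat M M' L q)

include D

lemma M'dvd : M' ∣ M := ⟨L, D.fac⟩

lemma one_le_fac {ℓ : ℕ} (hℓ : ℓ.Prime) (hd : ℓ ∣ M) : 1 ≤ M'.factorization ℓ :=
  (hℓ.dvd_iff_one_le_factorization D.M'0).1 ((D.dvdL hℓ hd).trans D.dvd)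

/-- elements of `H` congruent modulo `L` are congruent modulo `M'` -/
lemma keyeq [NeZero M] {h h' : (ZMod M)ˣ} (hh : h ∈ HH M q) (hh' : h' ∈ HH M q)
    (hL : vv h ≡ vv h' [MOD L]) : vv h ≡ vv h' [MOD M'] := by
  by_cases hM1 : M = 1
  · have h1 := D.M'dvd
    rw [hM1, Nat.dvd_one] at h1
    rw [h1]
    exact Nat.modEq_one
  rw [mem_HH] at hh hh'
  set w := h * h'⁻¹ with hw
  have hw1 : w ^ (q - 1) = 1 := by
    rw [hw, mul_pow, inv_pow, hh, hh', inv_one, one_mul]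
  have hLM : L ∣ M := ⟨M', by rw [D.fac, mul_comm]⟩
  have h1 : vv w * vv h' ≡ vv h [MOD M] := by
    rw [← ZMod.natCast_eq_natCast_iff]
    push_cast
    rw [vv_cast, vv_cast, vv_cast, ← Units.val_mul, hw, inv_mul_cancel_right]
  have h2 : vv w ≡ 1 [MOD L] := by
    have h3 : vv w * vv h' ≡ 1 * vv h' [MOD L] := by
      rw [one_mul]
      exact (h1.of_dvd hLM).trans hL
    refine Nat.ModEq.cancel_right_of_coprime ?_ h3
    exact ((vv_coprime h').coprime_dvd_right hLM).symm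
  have hv0 : 1 ≤ vv w := by
    by_contra hcon
    have h3 : vv w = 0 := by omega
    have h4 := vv_coprime w
    rw [h3, Nat.coprime_zero_left] at h4
    exact hM1 h4
  have h3 : vv w ≡ 1 [MOD M'] := by
    refine D.congr_M' fun ℓ hℓ hd => ?_
    obtain ⟨e, he, hec⟩ := D.q_eq hℓ hd
    have hG : Good ℓ (vv w) := by
      refine ⟨h2.of_dvd (D.dvdL hℓ hd), fun h => ?_⟩
      subst h
      have h4 : 2 ^ 2 ∣ L := by
        rw [Nat.Prime.pow_dvd_iff_le_factorization Nat.prime_two D.L0, D.part 2 Nat.prime_two hd,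
          ← Nat.Prime.pow_dvd_iff_le_factorization Nat.prime_two D.q0]
        exact D.four_dvd hd
      exact h2.of_dvd h4
    have h5 : ℓ ^ M.factorization ℓ ∣ vv w ^ (ℓ ^ L.factorization ℓ * e) - 1 := by
      rw [← he, ← Nat.modEq_iff_dvd' (Nat.one_le_pow _ _ hv0)]
      symm
      refine Nat.ModEq.of_dvd (Nat.ordProj_dvd M ℓ) ?_
      rw [← ZMod.natCast_eq_natCast_iff]
      push_cast
      rw [vv_cast, ← Units.val_pow_eq_pow_val, hw1, Units.val_one]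
    have h6 := lte hℓ hv0 hG hec h5
    have h7 : M.factorization ℓ - L.factorization ℓ = M'.factorization ℓ := by
      have := D.facM (ℓ := ℓ)
      omega
    rw [h7] at h6
    exact ((Nat.modEq_iff_dvd' hv0).2 h6).symm
  have h4 := (h3.mul_right (vv h')).symm.trans (h1.of_dvd D.M'dvd)
  rw [one_mul] at h4
  exact h4.symm

/-- the complex lifts -/
lemma exists_Theta [NeZero M] : ∃ Θ : ℕ → (ZMod M)ˣ → ℂ,
    (∀ ℓ, ℓ.Prime → ℓ ∣ M → ∀ h ∈ HH M q, ‖Θ ℓ h‖ = 1) ∧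
    (∀ ℓ, ℓ.Prime → ℓ ∣ M → ∀ h h' : (ZMod M)ˣ, vv h ≡ vv h' [MOD M'] → Θ ℓ h = Θ ℓ h') ∧
    (∀ h ∈ HH M q, ∀ h' ∈ HH M q, (∀ ℓ, ℓ.Prime → ℓ ∣ M → Θ ℓ h = Θ ℓ h') → vv h ≡ vv h' [MOD M']) ∧
    (∀ ℓ, ℓ.Prime → ℓ ∣ M → ∀ (ι : Type) (s : Finset ι) (c : ι → ℤ) (y : ι → (ZMod M)ˣ),
      (∀ j ∈ s, y j ∈ HH M q) → (M' : ℤ) ∣ ∑ j ∈ s, c j * (vv (y j) : ℤ) →
      (∑ j ∈ s, |c j|) ^ (ℓ - 1).totient < ((ℓ ^ M'.factorization ℓ : ℕ) : ℤ) →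
      ∑ j ∈ s, (c j : ℂ) * Θ ℓ (y j) = 0) := by
  have h1 : ∀ ℓ : ℕ, ∃ θ : ZMod (ℓ ^ M'.factorization ℓ) → ℂ, ℓ.Prime → ℓ ∣ M →
      (∀ y, Teich ℓ (M'.factorization ℓ) y → ‖θ y‖ = 1) ∧
      (∀ y y', Teich ℓ (M'.factorization ℓ) y → Teich ℓ (M'.factorization ℓ) y' → θ y = θ y' → y = y') ∧
      (∀ (ι : Type) (s : Finset ι) (c : ι → ℤ) (y : ι → ZMod (ℓ ^ M'.factorization ℓ)),
        (∀ j ∈ s, Teich ℓ (M'.factorization ℓ) (y j)) →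
        ∑ j ∈ s, (c j : ZMod (ℓ ^ M'.factorization ℓ)) * y j = 0 →
        (∑ j ∈ s, |c j|) ^ (ℓ - 1).totient < ((ℓ ^ M'.factorization ℓ : ℕ) : ℤ) →
        ∑ j ∈ s, (c j : ℂ) * θ (y j) = 0) := by
    intro ℓ
    by_cases h : ℓ.Prime ∧ ℓ ∣ M
    · obtain ⟨θ, h1, h2, h3⟩ := exists_theta h.1 (D.one_le_fac h.1 h.2)
      exact ⟨θ, fun _ _ => ⟨h1, h2, h3⟩⟩
    · exact ⟨fun _ => 0, fun h1 h2 => absurd ⟨h1, h2⟩ h⟩
  choose θ hθ using h1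
  have hT : ∀ ℓ, ℓ.Prime → ℓ ∣ M → ∀ h ∈ HH M q,
      Teich ℓ (M'.factorization ℓ) ((vv h : ℕ) : ZMod (ℓ ^ M'.factorization ℓ)) := by
    intro ℓ hℓ hd h hh
    exact D.teich h (mem_HH.1 hh) hℓ hd (vv h) (vv_cast h)
  refine ⟨fun ℓ h => θ ℓ ((vv h : ℕ) : ZMod (ℓ ^ M'.factorization ℓ)), ?_, ?_, ?_, ?_⟩
  · intro ℓ hℓ hd h hh
    exact (hθ ℓ hℓ hd).1 _ (hT ℓ hℓ hd h hh)
  · intro ℓ hℓ hd h h' hhh
    have h2 := (ZMod.natCast_eq_natCast_iff _ _ _).2 (hhh.of_dvd (Nat.ordProj_dvd M' ℓ))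
    simp only [h2]
  · intro h hh h' hh' hall
    refine D.congr_M' fun ℓ hℓ hd => ?_
    rw [← ZMod.natCast_eq_natCast_iff]
    exact (hθ ℓ hℓ hd).2.1 _ _ (hT ℓ hℓ hd h hh) (hT ℓ hℓ hd h' hh') (hall ℓ hℓ hd)
  · intro ℓ hℓ hd ι s c y hy h0 hsmall
    refine (hθ ℓ hℓ hd).2.2 ι s c _ (fun j hj => hT ℓ hℓ hd _ (hy j hj)) ?_ hsmall
    have h3 : ((ℓ ^ M'.factorization ℓ : ℕ) : ℤ) ∣ ∑ j ∈ s, c j * (vv (y j) : ℤ) :=
      dvd_trans (by exact_mod_cast Nat.ordProj_dvd M' ℓ) h0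
    rw [← ZMod.intCast_zmod_eq_zero_iff_dvd] at h3
    push_cast at h3
    exact h3

end Dat

/-- a generic half plane -/
lemma exists_tau (s : Finset ℂ) (hs : ∀ z ∈ s, z ≠ 0) : ∃ τ : ℂ, ∀ z ∈ s, (τ * z).re ≠ 0 := by
  have hfin : (s.image (fun z : ℂ => z.re / z.im) : Set ℝ).Finite := Finset.finite_toSet _
  obtain ⟨y, hy⟩ := hfin.infinite_compl.nonempty
  refine ⟨⟨1, y⟩, fun z hz h0 => ?_⟩
  rw [Complex.mul_re] at h0
  simp only at h0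
  by_cases him : z.im = 0
  · rw [him, mul_zero, sub_zero, one_mul] at h0
    exact hs z hz (Complex.ext h0 him)
  · apply hy
    simp only [coe_image, Set.mem_image, SetLike.mem_coe]
    refine ⟨z, hz, ?_⟩
    rw [div_eq_iff him]
    linarith

end Pool.Agent.E8helper53.GS
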