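import Pool.Agent.E8helper53.GS.Geom

/-!
# Lifting the exponent
-/

set_option autoImplicit false

namespace Pool.Agent.E8helper53.GS

open Finset Pool.Agent.Y18.GX

lemma geom_coprime {ℓ u e : ℕ} (h : u ≡ 1 [MOD ℓ]) (he : e.Coprime ℓ) :
    (∑ r ∈ range e, u ^ r).Coprime ℓ := by
  have h6 : ∑ r ∈ range e, u ^ r ≡ e [MOD ℓ] := by
    rw [← ZMod.natCast_eq_natCast_iff]
    push_cast
    have h2 : (u : ZMod ℓ) = 1 := by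
      have := (ZMod.natCast_eq_natCast_iff _ _ _).2 h
      simpa using this
    rw [h2]
    simp
  rw [Nat.coprime_iff_gcd_eq_one] at he ⊢
  rw [← he]
  exact h6.gcd_eq

lemma lte_pow {ℓ U : ℕ} (hℓ : ℓ.Prime) (hU : 1 ≤ U) (h : Good ℓ U) (B : ℕ) :
    ∃ w, U ^ ℓ ^ B - 1 = (U - 1) * (ℓ ^ B * w) ∧ w.Coprime ℓ := by
  induction B with
  | zero => exact ⟨1, by simp, by simp⟩
  | succ B ih =>
    obtain ⟨w, hw, hwc⟩ := ih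
    obtain ⟨v, hv, hvc⟩ := geom_prime hℓ (h.pow (ℓ ^ B))
    refine ⟨w * v, ?_, hwc.mul_left hvc⟩
    rw [pow_succ ℓ B, pow_mul, pow_sub_one_geom (U ^ ℓ ^ B) ℓ (Nat.one_le_pow _ _ hU), hv, hw]
    ring

lemma lte_fac {ℓ u : ℕ} (hℓ : ℓ.Prime) (hu : 1 ≤ u) (h : Good ℓ u) (B : ℕ) {e : ℕ} (he : e.Coprime ℓ) :
    ∃ w, u ^ (ℓ ^ B * e) - 1 = (u - 1) * (ℓ ^ B * w) ∧ w.Coprime ℓ := by
  obtain ⟨w, hw, hwc⟩ := lte_pow hℓ (Nat.one_le_pow e u hu) (h.pow e) B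
  refine ⟨(∑ r ∈ range e, u ^ r) * w, ?_, (geom_coprime h.1 he).mul_left hwc⟩
  rw [mul_comm (ℓ ^ B) e, pow_mul, hw, pow_sub_one_geom u e hu]
  ring

/-- the key lemma -/
lemma lte {ℓ u B e n : ℕ} (hℓ : ℓ.Prime) (hu : 1 ≤ u) (h : Good ℓ u) (he : e.Coprime ℓ)
    (hd : ℓ ^ n ∣ u ^ (ℓ ^ B * e) - 1) : ℓ ^ (n - B) ∣ u - 1 := by
  obtain ⟨w, hw, hwc⟩ := lte_fac hℓ hu h B he
  rw [hw] at hd
  rcases Nat.lt_or_ge n B with hn | hn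
  · rw [Nat.sub_eq_zero_of_le hn.le, pow_zero]
    exact one_dvd _
  · have h1 : ℓ ^ B * ℓ ^ (n - B) ∣ ℓ ^ B * ((u - 1) * w) := by
      rw [← pow_add, Nat.add_sub_cancel' hn]
      refine hd.trans (dvd_of_eq (by ring))
    have h2 := Nat.dvd_of_mul_dvd_mul_left (Nat.pos_of_ne_zero (pow_ne_zero _ hℓ.ne_zero)) h1
    exact Nat.Coprime.dvd_of_dvd_mul_right ((hwc.pow_right _).symm) h2

end Pool.Agent.E8helper53.GS
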