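import Mathlib

/-!
# Lifting small relations between roots of unity
-/

set_option autoImplicit false

namespace Pool.Agent.E8helper53.GS

open Finset Polynomial

lemma lift_small {e : ℕ} (he : 0 < e) {mm : ℕ} (ω : ZMod mm)
    (hω : (cyclotomic e ℤ).eval₂ (Int.castRingHom (ZMod mm)) ω = 0) {ζ : ℂ} (hζ : IsPrimitiveRoot ζ e)
    {ι : Type*} (s : Finset ι) (c : ι → ℤ) (i : ι → ℕ) (h0 : ∑ j ∈ s, (c j : ZMod mm) * ω ^ i j = 0)
    (hsmall : (∑ j ∈ s, |c j|) ^ e.totient < (mm : ℤ)) : ∑ j ∈ s, (c j : ℂ) * ζ ^ i j = 0 := by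
  set α : ℤ[X] := ∑ j ∈ s, C (c j) * X ^ i j with hα
  have hαω : α.eval₂ (Int.castRingHom (ZMod mm)) ω = 0 := by
    rw [hα, eval₂_finsetSum, ← h0]
    refine Finset.sum_congr rfl fun j _ => ?_
    rw [eval₂_mul, eval₂_C, eval₂_pow, eval₂_X, eq_intCast]
  have hαC : ∀ z : ℂ, (α.map (Int.castRingHom ℂ)).eval z = ∑ j ∈ s, (c j : ℂ) * z ^ i j := by
    intro z
    rw [eval_map, hα, eval₂_finsetSum]
    refine Finset.sum_congr rfl fun j _ => ?_
    rw [eval₂_mul, eval₂_C, eval₂_pow, eval₂_X, eq_intCast]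
  set f := cyclotomic e ℤ with hf
  set r := f.resultant α f.natDegree α.natDegree with hr
  have hdeg : f.natDegree = e.totient := natDegree_cyclotomic e ℤ
  obtain ⟨u, v, -, -, huv⟩ := exists_mul_add_mul_eq_C_resultant (m := f.natDegree) (n := α.natDegree) f α le_rfl
    le_rfl (Or.inl (by rw [hdeg]; exact (Nat.totient_pos.2 he).ne'))
  have hr0 : ((r : ℤ) : ZMod mm) = 0 := by
    have h1 := congrArg (fun P => P.eval₂ (Int.castRingHom (ZMod mm)) ω) huv
    simp only [eval₂_add, eval₂_mul, hω, hαω, zero_mul, add_zero, eval₂_C] at h1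
    simpa using h1.symm
  have hdvd : (mm : ℤ) ∣ r := (ZMod.intCast_zmod_eq_zero_iff_dvd r mm).1 hr0
  -- the resultant over the complex numbers
  have hmonic : (f.map (Int.castRingHom ℂ)).Monic := (cyclotomic.monic e ℤ).map _
  have hnd : (f.map (Int.castRingHom ℂ)).natDegree = f.natDegree :=
    natDegree_map_eq_of_injective (Int.cast_injective (α := ℂ)) f
  have hrC : ((r : ℤ) : ℂ) = (((f.map (Int.castRingHom ℂ)).roots).map
      (α.map (Int.castRingHom ℂ)).eval).prod := by
    have h1 := resultant_eq_prod_eval (f.map (Int.castRingHom ℂ)) (α.map (Int.castRingHom ℂ)) α.natDegree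
      natDegree_map_le (IsAlgClosed.splits _)
    rw [hnd, resultant_map_map, hmonic.leadingCoeff, one_pow, one_mul] at h1
    exact h1
  have hroots : ∀ z ∈ (f.map (Int.castRingHom ℂ)).roots, IsPrimitiveRoot z e := by
    intro z hz
    rw [hf, map_cyclotomic_int, mem_roots (cyclotomic_ne_zero e ℂ)] at hz
    have : NeZero (e : ℂ) := ⟨by exact_mod_cast he.ne'⟩
    exact isRoot_cyclotomic_iff.1 hz
  have hcard : Multiset.card ((f.map (Int.castRingHom ℂ)).roots) ≤ e.totient := by
    rw [← hdeg, ← hnd]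
    exact card_roots' _
  have hB0 : 0 ≤ ∑ j ∈ s, |c j| := Finset.sum_nonneg fun j _ => abs_nonneg _
  have hbound : ∀ z, IsPrimitiveRoot z e → ‖(α.map (Int.castRingHom ℂ)).eval z‖ ≤ ((∑ j ∈ s, |c j| : ℤ) : ℝ) := by
    intro z hz
    rw [hαC]
    refine (norm_sum_le _ _).trans ?_
    push_cast
    refine Finset.sum_le_sum fun j _ => ?_
    rw [norm_mul, norm_pow, hz.norm'_eq_one he.ne', one_pow, mul_one]
    rw [Complex.norm_intCast]
  have hle : |r| ≤ (∑ j ∈ s, |c j|) ^ e.totient ∨ r = 0 := by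
    by_cases hz : r = 0
    · exact Or.inr hz
    left
    have hrne : ((r : ℤ) : ℂ) ≠ 0 := by exact_mod_cast hz
    -- the sum of the absolute values is at least one
    have hB1 : (1 : ℤ) ≤ ∑ j ∈ s, |c j| := by
      by_contra hcon
      have h1 : ∑ j ∈ s, |c j| = 0 := by omega
      have h2 : ∀ z ∈ (f.map (Int.castRingHom ℂ)).roots, (α.map (Int.castRingHom ℂ)).eval z = 0 := by
        intro z hz'
        have h3 := hbound z (hroots z hz')
        rw [h1] at h3
        simpa using h3
      have h4 : 0 < Multiset.card ((f.map (Int.castRingHom ℂ)).roots) := by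
        have h5 : Multiset.card ((f.map (Int.castRingHom ℂ)).roots) = (f.map (Int.castRingHom ℂ)).natDegree :=
          ((IsAlgClosed.splits _).natDegree_eq_card_roots).symm
        rw [h5, hnd, hdeg]
        exact Nat.totient_pos.2 he
      obtain ⟨z, hz'⟩ := Multiset.card_pos_iff_exists_mem.1 h4
      apply hrne
      rw [hrC]
      apply Multiset.prod_eq_zero
      rw [Multiset.mem_map]
      exact ⟨z, hz', h2 z hz'⟩
    have key : ∀ S : Multiset ℂ, (∀ z ∈ S, IsPrimitiveRoot z e) →
        ‖(S.map (α.map (Int.castRingHom ℂ)).eval).prod‖ ≤ ((∑ j ∈ s, |c j| : ℤ) : ℝ) ^ Multiset.card S := by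
      intro S
      induction S using Multiset.induction_on with
      | empty => intro _; simp
      | cons z S ih =>
        intro hS
        rw [Multiset.map_cons, Multiset.prod_cons, norm_mul, Multiset.card_cons, pow_succ']
        refine mul_le_mul (hbound z (hS z (Multiset.mem_cons_self z S)))
          (ih fun w hw => hS w (Multiset.mem_cons_of_mem hw)) (norm_nonneg _) (by exact_mod_cast hB0)
    have h5 := key _ hroots
    rw [← hrC, Complex.norm_intCast] at h5
    have h6 : ((∑ j ∈ s, |c j| : ℤ) : ℝ) ^ Multiset.card ((f.map (Int.castRingHom ℂ)).roots) ≤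
        ((∑ j ∈ s, |c j| : ℤ) : ℝ) ^ e.totient :=
      pow_le_pow_right₀ (by exact_mod_cast hB1) hcard
    have h7 := h5.trans h6
    exact_mod_cast h7
  have hr00 : r = 0 := by
    rcases hle with h1 | h1
    · by_contra hne
      have h2 := Int.le_of_dvd (abs_pos.2 hne) ((dvd_abs _ _).2 hdvd)
      omega
    · exact h1
  -- some root
  rw [hr00, Int.cast_zero] at hrC
  obtain ⟨z, hz, hz0⟩ := Multiset.mem_map.1 (Multiset.prod_eq_zero_iff.1 hrC.symm)
  have hprim := hroots z hz
  have hdv : f ∣ α := by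
    rw [hf, cyclotomic_eq_minpoly hprim he]
    refine minpoly.isIntegrallyClosed_dvd (hprim.isIntegral he) ?_
    rw [aeval_def, ← eval_map]
    exact hz0
  obtain ⟨β, hβ⟩ := hdv
  rw [← hαC, hβ, Polynomial.map_mul, eval_mul, hf, map_cyclotomic_int]
  have h8 : (cyclotomic e ℂ).eval ζ = 0 := hζ.isRoot_cyclotomic he
  rw [h8, zero_mul]

end Pool.Agent.E8helper53.GS
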