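import Pool.Agent.E8helper53.GS.Freq

/-!
# The relations
-/

set_option autoImplicit false

namespace Pool.Agent.E8helper53.GS

open Finset Polynomial Pool.Agent.Y18.GX Pool.Agent.E8helper53.GR

lemma sum_units {R β : Type*} [CommRing R] [Fintype R] [Fintype Rˣ] [AddCommMonoid β] (f : R → β)
    (hf : ∀ y, ¬ IsUnit y → f y = 0) : ∑ y, f y = ∑ u : Rˣ, f u := by
  classical
  have h1 : ∑ y, f y = ∑ y ∈ (univ : Finset Rˣ).image (fun u : Rˣ => (u : R)), f y := by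
    symm
    apply Finset.sum_subset (Finset.subset_univ _)
    intro x _ hx
    apply hf
    rintro ⟨u, hu⟩
    exact hx (mem_image.2 ⟨u, mem_univ _, hu⟩)
  rw [h1, Finset.sum_image (fun a _ b _ h => Units.ext h)]

section
variable {k : Type*} [Field k]

/-- characters with `ψ(1 + M/ℓ) ≠ 1` for all `ℓ` are primitive -/
lemma isPrimitive_of {M : ℕ} (ψ : DirichletCharacter k M)
    (h2 : ∀ ℓ, ℓ.Prime → ℓ ∣ M → ℓ ^ 2 ∣ M)
    (h : ∀ ℓ, ℓ.Prime → ℓ ∣ M → ψ ((1 + M / ℓ : ℕ) : ZMod M) ≠ 1) : ψ.IsPrimitive := by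
  rw [DirichletCharacter.isPrimitive_def]
  by_contra hne
  obtain ⟨c, hc⟩ := ψ.conductor_dvd_level
  have hc1 : c ≠ 1 := by
    rintro rfl
    rw [mul_one] at hc
    exact hne hc.symm
  obtain ⟨ℓ, hℓ, b, hb⟩ := Nat.exists_prime_and_dvd hc1
  have hℓM : ℓ ∣ M := by
    rw [hc, hb]
    exact ⟨ψ.conductor * b, by ring⟩
  have hcM : ψ.conductor ∣ M / ℓ := by
    refine ⟨b, ?_⟩
    have h3 : M = ℓ * (ψ.conductor * b) := by
      rw [hb] at hc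
      calc M = ψ.conductor * (ℓ * b) := hc
        _ = _ := by ring
    conv_lhs => rw [h3]
    rw [Nat.mul_div_cancel_left _ hℓ.pos]
  apply h ℓ hℓ hℓM
  obtain ⟨hd, χ₀, hχ₀⟩ := ψ.factorsThrough_conductor
  have hu : IsUnit ((1 + M / ℓ : ℕ) : ZMod M) := by
    rw [← isUnit_pow_iff (n := ℓ) hℓ.ne_zero, ← one_add_div_pow (h2 ℓ hℓ hℓM), Nat.div_mul_cancel hℓM]
    push_cast
    rw [ZMod.natCast_self, add_zero]
    exact isUnit_one
  obtain ⟨U, hU⟩ := hu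
  rw [← hU, hχ₀, DirichletCharacter.changeLevel_eq_cast_of_dvd, hU]
  have h3 : (((1 + M / ℓ : ℕ) : ZMod M).cast : ZMod ψ.conductor) = 1 := by
    rw [ZMod.cast_natCast hd]
    push_cast
    rw [(ZMod.natCast_eq_zero_iff _ _).2 hcM, add_zero]
  rw [h3, map_one]

/-- the first relation -/
lemma relA {N₁ N M : ℕ} [NeZero M] (ψ₁ : MulChar (ZMod N₁) k) (ψ : DirichletCharacter k M)
    (h2 : ∀ ℓ, ℓ.Prime → ℓ ∣ M → ℓ ^ 2 ∣ M)
    (h : ∀ ℓ, ℓ.Prime → ℓ ∣ M → ψ ((1 + M / ℓ : ℕ) : ZMod M) ≠ 1)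
    (F : ℤ[X]) (e : AddChar (ZMod M) k)
    (hS : ∑ x ∈ range N, ψ₁ (x : ZMod N₁) * ψ (x : ZMod M) * aeval ((x : k) / (N : ℕ)) F = 0) :
    ∑ y : ZMod M, (ψ⁻¹ : DirichletCharacter k M) y * GG ψ₁ F N (e y) = 0 := by
  have hψi : (ψ⁻¹ : DirichletCharacter k M).IsPrimitive := by
    refine isPrimitive_of _ h2 fun ℓ hℓ hd h3 => h ℓ hℓ hd ?_
    rw [MulChar.inv_apply_eq_inv', inv_eq_one] at h3
    exact h3
  unfold GG
  simp only [Finset.mul_sum]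
  rw [Finset.sum_comm]
  have h1 : ∀ x ∈ range N, ∑ y : ZMod M, (ψ⁻¹ : DirichletCharacter k M) y *
      (ψ₁ (x : ZMod N₁) * aeval ((x : k) / (N : ℕ)) F * e y ^ x) =
      gaussSum (ψ⁻¹ : DirichletCharacter k M) e *
      (ψ₁ (x : ZMod N₁) * ψ (x : ZMod M) * aeval ((x : k) / (N : ℕ)) F) := by
    intro x _
    have h2 := gaussSum_mulShift_of_isPrimitive e hψi (x : ZMod M)
    rw [inv_inv] at h2
    rw [gaussSum] at h2
    calc _ = (ψ₁ (x : ZMod N₁) * aeval ((x : k) / (N : ℕ)) F) * ∑ y : ZMod M, (ψ⁻¹ : DirichletCharacter k M) y *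
        (e.mulShift (x : ZMod M)) y := by
          rw [Finset.mul_sum]
          refine Finset.sum_congr rfl fun y _ => ?_
          rw [AddChar.mulShift_apply, ← nsmul_eq_mul, AddChar.map_nsmul_eq_pow]
          ring
      _ = _ := by
          rw [h2]
          ring
  rw [Finset.sum_congr rfl h1, ← Finset.mul_sum, hS, mul_zero]

end

section
variable {k : Type*} [Field k] {p : ℕ} [Fact p.Prime] [CharP k p]

/-- the conjugate relations -/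
lemma relA' {N₁ N M g : ℕ} [NeZero M] (ψ₁ : MulChar (ZMod N₁) k) (hψ₁ : ∀ x, ψ₁ x ^ p ^ g = ψ₁ x)
    (ψ : MulChar (ZMod M) k) (F : ℤ[X]) (e : AddChar (ZMod M) k) (hq : IsUnit ((p ^ g : ℕ) : ZMod M))
    (hA : ∑ y : ZMod M, (ψ⁻¹ : MulChar (ZMod M) k) y * GG ψ₁ F N (e y) = 0) (j : ℕ) :
    ∑ y : ZMod M, (ψ⁻¹ : MulChar (ZMod M) k) y ^ (p ^ g) ^ j * GG ψ₁ F N (e y) = 0 := by
  have h1 := congrArg (iterateFrobenius k p (g * j)) hA
  rw [map_zero, map_sum] at h1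
  obtain ⟨U, hU⟩ := hq.pow j
  have h2 : ∀ y, iterateFrobenius k p (g * j) ((ψ⁻¹ : MulChar (ZMod M) k) y * GG ψ₁ F N (e y)) =
      (ψ⁻¹ : MulChar (ZMod M) k) y ^ (p ^ g) ^ j * GG ψ₁ F N (e (U * y)) := by
    intro y
    rw [iterateFrobenius_def, mul_pow, pow_mul, GG_frob ψ₁ hψ₁, ← AddChar.map_nsmul_eq_pow, nsmul_eq_mul, hU]
    push_cast
    rfl
  simp only [h2] at h1
  have h3 : ∑ y, (ψ⁻¹ : MulChar (ZMod M) k) y ^ (p ^ g) ^ j * GG ψ₁ F N (e (U * y)) =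
      ∑ y, (ψ⁻¹ : MulChar (ZMod M) k) ((U⁻¹ : (ZMod M)ˣ) * y) ^ (p ^ g) ^ j * GG ψ₁ F N (e y) :=
    Fintype.sum_equiv (Units.mulLeft U) _ _ (fun y => by simp)
  rw [h3] at h1
  simp only [map_mul, mul_pow, mul_assoc] at h1
  rw [← Finset.mul_sum] at h1
  rcases mul_eq_zero.1 h1 with h4 | h4
  · exact absurd h4 (pow_ne_zero _ (((U⁻¹).isUnit.map _).ne_zero))
  · exact h4

/-- the group `H` -/
def HH (M q : ℕ) [NeZero M] : Finset (ZMod M)ˣ := univ.filter (fun h => h ^ (q - 1) = 1)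

/-- the second relation -/
lemma relB {N₁ N M M' L g : ℕ} [NeZero M] (D : Dat M M' L (p ^ g)) (ψ₁ : MulChar (ZMod N₁) k)
    (hψ₁ : ∀ x, ψ₁ x ^ p ^ g = ψ₁ x)
    (ψ : MulChar (ZMod M) k) (hprim : ∀ ℓ, ℓ.Prime → ℓ ∣ M → ψ ((1 + M / ℓ : ℕ) : ZMod M) ≠ 1)
    (F : ℤ[X]) (e : AddChar (ZMod M) k) (hMk : ((M : ℕ) : k) ≠ 0)
    (hA : ∑ y : ZMod M, (ψ⁻¹ : MulChar (ZMod M) k) y * GG ψ₁ F N (e y) = 0) (c : (ZMod M)ˣ) :
    ∑ h ∈ HH M (p ^ g), (ψ⁻¹ : MulChar (ZMod M) k) h * GG ψ₁ F N (e (c * h)) = 0 := by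
  have hq1 := D.q1
  have hq : IsUnit ((p ^ g : ℕ) : ZMod M) := by
    rw [ZMod.isUnit_iff_coprime]
    by_contra hcon
    obtain ⟨ℓ, hℓ, hd⟩ := Nat.exists_prime_and_dvd hcon
    have h1 : ℓ ∣ p ^ g := hd.trans (Nat.gcd_dvd_left _ _)
    have h2 := (D.good ℓ hℓ (hd.trans (Nat.gcd_dvd_right _ _))).1
    have h3 := (Nat.modEq_zero_iff_dvd.2 h1).symm.trans h2
    have h4 := (Nat.modEq_iff_dvd' (by norm_num)).1 h3
    exact hℓ.one_lt.ne' (Nat.dvd_one.1 h4)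
  have hj := relA' ψ₁ hψ₁ ψ F e hq hA
  have h1 : ∑ j ∈ range M, ψ (c : ZMod M) ^ (p ^ g) ^ j *
      ∑ y : ZMod M, (ψ⁻¹ : MulChar (ZMod M) k) y ^ (p ^ g) ^ j * GG ψ₁ F N (e y) = 0 := by
    simp only [hj, mul_zero, Finset.sum_const_zero]
  simp only [Finset.mul_sum] at h1
  rw [Finset.sum_comm] at h1
  have h2 : ∀ y : ZMod M, ∑ j ∈ range M, ψ (c : ZMod M) ^ (p ^ g) ^ j *
      ((ψ⁻¹ : MulChar (ZMod M) k) y ^ (p ^ g) ^ j * GG ψ₁ F N (e y)) =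
      (∑ j ∈ range M, (ψ (c : ZMod M) * (ψ⁻¹ : MulChar (ZMod M) k) y) ^ (p ^ g) ^ j) * GG ψ₁ F N (e y) := by
    intro y
    rw [Finset.sum_mul]
    refine Finset.sum_congr rfl fun j _ => ?_
    rw [mul_pow]
    ring
  simp only [h2] at h1
  rw [sum_units _ (by
    intro y hy
    rw [MulChar.map_nonunit _ hy, mul_zero]
    have : ∀ j, (0 : k) ^ (p ^ g) ^ j = 0 := fun j => zero_pow (pow_ne_zero _ (by omega))
    simp only [this, Finset.sum_const_zero, zero_mul])] at h1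
  have h3 : ∑ u : (ZMod M)ˣ, (∑ j ∈ range M, (ψ (c : ZMod M) * (ψ⁻¹ : MulChar (ZMod M) k) u) ^ (p ^ g) ^ j) *
      GG ψ₁ F N (e u) = ∑ u : (ZMod M)ˣ, (∑ j ∈ range M, ((ψ⁻¹ : MulChar (ZMod M) k) u) ^ (p ^ g) ^ j) *
      GG ψ₁ F N (e (c * u)) := by
    symm
    refine Fintype.sum_equiv (Equiv.mulLeft c) _ _ fun u => ?_
    have h5 : ψ (c : ZMod M) * (ψ⁻¹ : MulChar (ZMod M) k) ((c : ZMod M) * u) = (ψ⁻¹ : MulChar (ZMod M) k) u := by
      rw [map_mul (ψ⁻¹ : MulChar (ZMod M) k), ← mul_assoc, MulChar.inv_apply_eq_inv' ψ (c : ZMod M),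
        mul_inv_cancel₀ ((c.isUnit.map ψ).ne_zero), one_mul]
    rw [Equiv.coe_mulLeft, Units.val_mul, h5]
  rw [h3] at h1
  have h4 : ∀ u : (ZMod M)ˣ, (∑ j ∈ range M, ((ψ⁻¹ : MulChar (ZMod M) k) u) ^ (p ^ g) ^ j) =
      if u ^ (p ^ g - 1) = 1 then (M : k) * (ψ⁻¹ : MulChar (ZMod M) k) u else 0 := by
    intro u
    split_ifs with h5
    · have h6 : (ψ⁻¹ : MulChar (ZMod M) k) u ^ p ^ g = (ψ⁻¹ : MulChar (ZMod M) k) u := by
        have h7 : p ^ g = (p ^ g - 1) + 1 := by omega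
        rw [h7, pow_succ, ← map_pow, ← Units.val_pow_eq_pow_val, h5, Units.val_one, map_one, one_mul]
      have h7 : ∀ j, (ψ⁻¹ : MulChar (ZMod M) k) u ^ (p ^ g) ^ j = (ψ⁻¹ : MulChar (ZMod M) k) u := by
        intro j
        induction j with
        | zero => simp
        | succ j ih => rw [pow_succ, pow_mul, ih, h6]
      simp only [h7, Finset.sum_const, card_range, nsmul_eq_mul]
    · apply trace_zero' (by omega) (NeZero.ne M) D.good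
      · intro h6
        apply h5
        apply D.kernel' ψ hprim u
        rw [MulChar.inv_apply_eq_inv', inv_pow, inv_eq_one] at h6
        exact h6
      · exact D.pow_M _ u
  simp only [h4, ite_mul, zero_mul] at h1
  rw [← Finset.sum_filter] at h1
  simp only [mul_assoc] at h1
  rw [← Finset.mul_sum] at h1
  rcases mul_eq_zero.1 h1 with h5 | h5
  · exact absurd h5 hMk
  · exact h5

end

end Pool.Agent.E8helper53.GS
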