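import Pool.Agent.E8helper53.GS.Half

/-!
# The relation over a half system
-/

set_option autoImplicit false

namespace Pool.Agent.E8helper53.GS

open Finset Polynomial Pool.Agent.Y18.GX Pool.Agent.E8helper53.GR

lemma vv_mul {M : ℕ} [NeZero M] (u h : (ZMod M)ˣ) : vv (u * h) ≡ vv u * vv h [MOD M] := by
  rw [← ZMod.natCast_eq_natCast_iff]
  push_cast
  rw [vv_cast, vv_cast, vv_cast, Units.val_mul]

section
variable {k : Type*} [Field k]

lemma Dat.sum_inv_zero {M M' L q : ℕ} [NeZero M] (D : Dat M M' L q) (ψ : MulChar (ZMod M) k)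
    {ℓ : ℕ} (hℓ : ℓ.Prime) (hd : ℓ ∣ M) (hprim : ψ ((1 + M / ℓ : ℕ) : ZMod M) ≠ 1)
    (S : Finset (ZMod M)ˣ) (hSH : S ⊆ HH M q)
    (hS : ∀ h ∈ S, ∀ h' ∈ HH M q, vv h ≡ vv h' [MOD M'] → h' ∈ S) :
    ∑ h ∈ S, (ψ⁻¹ : MulChar (ZMod M) k) h = 0 := by
  obtain ⟨L₁, hL₁⟩ := D.dvdL hℓ hd
  have hM1 : M / ℓ = M' * L₁ := by
    have h3 : M = ℓ * (M' * L₁) := by
      calc M = M' * L := D.fac
        _ = M' * (ℓ * L₁) := by rw [hL₁]
        _ = _ := by ring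
    conv_lhs => rw [h3]
    rw [Nat.mul_div_cancel_left _ hℓ.pos]
  have hu : IsUnit ((1 + M / ℓ : ℕ) : ZMod M) := by
    rw [← isUnit_pow_iff (n := ℓ) hℓ.ne_zero, ← one_add_div_pow (D.two_le hℓ hd), Nat.div_mul_cancel hd]
    push_cast
    rw [ZMod.natCast_self, add_zero]
    exact isUnit_one
  obtain ⟨u, hu⟩ := hu
  have huv : vv u ≡ 1 [MOD M'] := by
    have h1 : vv u ≡ 1 + M / ℓ [MOD M] := by
      rw [← ZMod.natCast_eq_natCast_iff, vv_cast, hu]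
    refine (h1.of_dvd D.M'dvd).trans ?_
    rw [hM1, Nat.ModEq, Nat.add_mul_mod_self_left]
  have huH : u ∈ HH M q := by
    rw [mem_HH]
    exact D.one_mem (t := L₁) (by rw [hu, hM1])
  have hmul : ∀ h ∈ HH M q, u * h ∈ HH M q ∧ vv h ≡ vv (u * h) [MOD M'] := by
    intro h hh
    rw [mem_HH] at hh huH
    refine ⟨?_, ?_⟩
    · rw [mem_HH, mul_pow, hh, huH, one_mul]
    · have h1 := ((vv_mul u h).of_dvd D.M'dvd).trans (huv.mul_right (vv h))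
      rw [one_mul] at h1
      exact h1.symm
  have hinv : ∀ h ∈ HH M q, u⁻¹ * h ∈ HH M q ∧ vv h ≡ vv (u⁻¹ * h) [MOD M'] := by
    intro h hh
    have h0 : u⁻¹ * h ∈ HH M q := by
      rw [mem_HH] at hh huH ⊢
      rw [mul_pow, inv_pow, hh, huH, inv_one, one_mul]
    refine ⟨h0, ?_⟩
    have h1 := (hmul _ h0).2.symm
    rwa [mul_inv_cancel_left] at h1
  have h1 : ∑ h ∈ S, (ψ⁻¹ : MulChar (ZMod M) k) h = ∑ h ∈ S, (ψ⁻¹ : MulChar (ZMod M) k) (u * h) := by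
    symm
    refine Finset.sum_bij' (fun h _ => u * h) (fun h _ => u⁻¹ * h) ?_ ?_ ?_ ?_ ?_
    · intro h hh
      exact hS h hh _ (hmul h (hSH hh)).1 (hmul h (hSH hh)).2
    · intro h hh
      exact hS h hh _ (hinv h (hSH hh)).1 (hinv h (hSH hh)).2
    · intro h _
      exact inv_mul_cancel_left u h
    · intro h _
      exact mul_inv_cancel_left u h
    · intro h _
      rw [Units.val_mul]
  simp only [map_mul] at h1
  rw [← Finset.mul_sum] at h1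
  have h2 : ((ψ⁻¹ : MulChar (ZMod M) k) u - 1) * ∑ h ∈ S, (ψ⁻¹ : MulChar (ZMod M) k) h = 0 := by
    rw [sub_mul, one_mul, ← h1, sub_self]
  rcases mul_eq_zero.1 h2 with h3 | h3
  · exfalso
    apply hprim
    rw [sub_eq_zero, MulChar.inv_apply_eq_inv', inv_eq_one, hu] at h3
    exact h3
  · exact h3

lemma neg_mem_HH {M q : ℕ} [NeZero M] (hq : Even (q - 1)) {h : (ZMod M)ˣ} (hh : h ∈ HH M q) : -h ∈ HH M q := by
  rw [mem_HH] at hh ⊢
  rw [hq.neg_pow, hh]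

/-- the relation over the half system -/
lemma Dat.relC {N₁ M M' L q m : ℕ} [NeZero M] (D : Dat M M' L q) (ψ₁ : MulChar (ZMod N₁) k)
    (ψ : MulChar (ZMod M) k) {ℓ : ℕ} (hℓ : ℓ.Prime) (hd : ℓ ∣ M)
    (hprim : ψ ((1 + M / ℓ : ℕ) : ZMod M) ≠ 1)
    (F : ℤ[X]) (c₀ : k) (hF : ∀ x : k, aeval (1 - x) F = (-1) ^ m * aeval x F + c₀)
    (hF0 : aeval (0 : k) F = 0)
    (e : AddChar (ZMod M) k) (he : e.IsPrimitive) (h2k : (2 : k) ≠ 0) (hNk : ((N₁ * M : ℕ) : k) ≠ 0)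
    (hcop : N₁.Coprime M) (hpar : ψ₁ (-1) * ψ (-1) = (-1) ^ m) (hq : Even (q - 1))
    (c : (ZMod M)ˣ)
    (hB : ∑ h ∈ HH M q, (ψ⁻¹ : MulChar (ZMod M) k) h * GG ψ₁ F (N₁ * M) (e (c * h)) = 0)
    (lam : (ZMod M)ˣ → ℝ) (hl0 : ∀ h ∈ HH M q, lam h ≠ 0) (hln : ∀ h ∈ HH M q, lam (-h) = -lam h)
    (hlc : ∀ h ∈ HH M q, ∀ h' ∈ HH M q, vv h ≡ vv h' [MOD M'] → lam h = lam h') :
    ∑ h ∈ (HH M q).filter (fun h => 0 < lam h),
      (ψ⁻¹ : MulChar (ZMod M) k) h * GG ψ₁ F (N₁ * M) (e (c * h)) = 0 := by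
  have hM1 : 1 < M := by
    have := Nat.le_of_dvd D.pos hd
    have := hℓ.one_lt
    omega
  have : Fact (1 < M) := ⟨hM1⟩
  have hW : ∀ a : ZMod M, e a ^ (N₁ * M) = 1 := by
    intro a
    rw [← AddChar.map_nsmul_eq_pow, nsmul_eq_mul]
    push_cast
    rw [ZMod.natCast_self, mul_zero, zero_mul, AddChar.map_zero_eq_one]
  have hWN : ∀ u : (ZMod M)ˣ, e u ^ N₁ ≠ 1 := by
    intro u h
    rw [← AddChar.map_nsmul_eq_pow, nsmul_eq_mul, he.zmod_char_eq_one_iff] at h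
    have h1 : IsUnit ((N₁ : ZMod M) * u) := ((ZMod.isUnit_iff_coprime _ _).2 hcop).mul u.isUnit
    rw [h, isUnit_zero_iff] at h1
    exact zero_ne_one h1
  have hψn : (ψ⁻¹ : MulChar (ZMod M) k) (-1) = ψ (-1) := by
    rw [MulChar.inv_apply_eq_inv']
    apply inv_eq_of_mul_eq_one_left
    rw [← map_mul]
    simp
  have hψn2 : ψ (-1) * ψ (-1) = 1 := by
    rw [← map_mul]
    simp
  have hm2 : ((-1 : k) ^ m) * (-1) ^ m = 1 := by
    rw [← mul_pow]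
    simp
  have hneg : ∀ h : (ZMod M)ˣ, (ψ⁻¹ : MulChar (ZMod M) k) (-h : (ZMod M)ˣ) *
      GG ψ₁ F (N₁ * M) (e (c * (-h : (ZMod M)ˣ))) =
      (ψ⁻¹ : MulChar (ZMod M) k) h * GG ψ₁ F (N₁ * M) (e (c * h)) -
        (ψ (-1) * ψ₁ 0 * c₀) * (ψ⁻¹ : MulChar (ZMod M) k) h := by
    intro h
    have h1 : ((-h : (ZMod M)ˣ) : ZMod M) = (-1) * (h : ZMod M) := by
      rw [Units.val_neg]
      ring
    have h2 : e ((c : ZMod M) * ((-1) * h)) = (e (c * h))⁻¹ := by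
      rw [show (c : ZMod M) * ((-1) * h) = -(c * h) by ring, AddChar.map_neg_eq_inv]
    rw [h1, map_mul, hψn, h2, GG_refl ψ₁ (dvd_mul_right _ _) hNk (hW _) (by
      rw [← Units.val_mul]
      exact hWN _) F c₀ hF hF0]
    linear_combination (-1) ^ m * (ψ⁻¹ : MulChar (ZMod M) k) h * GG ψ₁ F (N₁ * M) (e (c * h)) * hpar +
      (ψ⁻¹ : MulChar (ZMod M) k) h * GG ψ₁ F (N₁ * M) (e (c * h)) * hm2
  have hsplit := Finset.sum_filter_add_sum_filter_not (HH M q) (fun h => 0 < lam h)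
    (fun h => (ψ⁻¹ : MulChar (ZMod M) k) h * GG ψ₁ F (N₁ * M) (e (c * h)))
  rw [hB] at hsplit
  have hbij : ∑ h ∈ (HH M q).filter (fun h => ¬ 0 < lam h),
      (ψ⁻¹ : MulChar (ZMod M) k) h * GG ψ₁ F (N₁ * M) (e (c * h)) =
      ∑ h ∈ (HH M q).filter (fun h => 0 < lam h),
      (ψ⁻¹ : MulChar (ZMod M) k) (-h : (ZMod M)ˣ) * GG ψ₁ F (N₁ * M) (e (c * (-h : (ZMod M)ˣ))) := by
    symm
    refine Finset.sum_bij' (fun h _ => -h) (fun h _ => -h) ?_ ?_ ?_ ?_ ?_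
    · intro h hh
      rw [mem_filter] at hh ⊢
      refine ⟨neg_mem_HH hq hh.1, ?_⟩
      rw [hln h hh.1]
      linarith [hh.2]
    · intro h hh
      rw [mem_filter] at hh ⊢
      refine ⟨neg_mem_HH hq hh.1, ?_⟩
      rw [hln h hh.1]
      have := hl0 h hh.1
      have h3 : lam h ≤ 0 := not_lt.1 hh.2
      have h4 : lam h < 0 := lt_of_le_of_ne h3 this
      linarith
    · intro h _
      exact neg_neg h
    · intro h _
      exact neg_neg h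
    · intro h _
      rfl
  rw [hbij] at hsplit
  simp only [hneg] at hsplit
  rw [Finset.sum_sub_distrib, ← Finset.mul_sum, D.sum_inv_zero ψ hℓ hd hprim _ (Finset.filter_subset _ _) (by
    intro h hh h' hh' hc
    rw [mem_filter] at hh ⊢
    refine ⟨hh', ?_⟩
    rw [← hlc h hh.1 h' hh' hc]
    exact hh.2), mul_zero, sub_zero, ← two_mul] at hsplit
  rcases mul_eq_zero.1 hsplit with h3 | h3
  · exact absurd h3 h2k
  · exact h3

end

end Pool.Agent.E8helper53.GS
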