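import Pool.Agent.E8helper53.GS.FinS
import Pool.Agent.E8helper53.GR.Main

/-!
# Selection of the large prime powers
-/

set_option autoImplicit false

namespace Pool.Agent.E8helper53.GS

open Finset Polynomial Pool.Agent.Y18.GX Pool.Agent.E8helper53.GR

/-- either all `x i` are small, or there is a subset of large ones -/
lemma greedy {S : Finset ℕ} (hSne : S.Nonempty) (x : ℕ → ℕ) (hx : ∀ j ∈ S, 0 < x j) {A K : ℕ} (hA : 1 ≤ A)
    (hbig : A ^ ((K + 1) ^ S.card - 1) ≤ ∏ j ∈ S, x j) :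
    ∃ I, I ⊆ S ∧ I.Nonempty ∧ ∀ i ∈ I, (A * ∏ j ∈ S \ I, x j) ^ K ≤ x i := by
  have key : ∀ d : ℕ, ∀ J, J ⊆ S → (S \ J).card = d → A * ∏ j ∈ J, x j ≤ A ^ (K + 1) ^ J.card →
      (J.Nonempty → A * ∏ j ∈ J, x j < A ^ (K + 1) ^ J.card) →
      ∃ I, I ⊆ S ∧ I.Nonempty ∧ ∀ i ∈ I, (A * ∏ j ∈ S \ I, x j) ^ K ≤ x i := by
    intro d
    induction d with
    | zero =>
      intro J hJ hd h1 h2
      exfalso
      have h3 : S \ J = ∅ := card_eq_zero.1 hd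
      have h4 : J = S := Finset.Subset.antisymm hJ (sdiff_eq_empty_iff_subset.1 h3)
      subst h4
      have h5 := h2 hSne
      have h6 : A ^ (K + 1) ^ J.card = A * A ^ ((K + 1) ^ J.card - 1) := by
        rw [← pow_succ', Nat.sub_add_cancel (Nat.one_le_pow _ _ (by omega))]
      rw [h6] at h5
      have h7 := Nat.lt_of_mul_lt_mul_left h5
      omega
    | succ d ih =>
      intro J hJ hd h1 h2
      by_cases hall : ∀ i ∈ S \ J, (A * ∏ j ∈ J, x j) ^ K ≤ x i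
      · refine ⟨S \ J, sdiff_subset, ?_, ?_⟩
        · rw [← card_pos, hd]
          omega
        · rw [Finset.sdiff_sdiff_eq_self hJ]
          exact hall
      · push Not at hall
        obtain ⟨i, hi, hlt⟩ := hall
        rw [mem_sdiff] at hi
        have h3 : A * ∏ j ∈ insert i J, x j < A ^ (K + 1) ^ (insert i J).card := by
          rw [Finset.prod_insert hi.2, card_insert_of_notMem hi.2, pow_succ (K + 1), pow_mul]
          have h4 : 0 < A * ∏ j ∈ J, x j := Nat.mul_pos hA (Finset.prod_pos fun j hj => hx j (hJ hj))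
          calc A * (x i * ∏ j ∈ J, x j) = x i * (A * ∏ j ∈ J, x j) := by ring
            _ < (A * ∏ j ∈ J, x j) ^ K * (A * ∏ j ∈ J, x j) := Nat.mul_lt_mul_of_pos_right hlt h4
            _ = (A * ∏ j ∈ J, x j) ^ (K + 1) := by rw [pow_succ]
            _ ≤ (A ^ (K + 1) ^ J.card) ^ (K + 1) := Nat.pow_le_pow_left h1 _
        refine ih (insert i J) (insert_subset hi.1 hJ) ?_ h3.le (fun _ => h3)
        rw [Finset.sdiff_insert, card_erase_of_mem (mem_sdiff.2 hi), hd, Nat.add_sub_cancel]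
  exact key _ ∅ (empty_subset S) rfl (by simp) (fun h => absurd h (by simp))

lemma fac_prod {I : Finset ℕ} (hI : ∀ ℓ ∈ I, ℓ.Prime) (f : ℕ → ℕ) (ℓ₀ : ℕ) :
    (∏ ℓ ∈ I, ℓ ^ f ℓ).factorization ℓ₀ = if ℓ₀ ∈ I then f ℓ₀ else 0 := by
  induction I using Finset.induction_on with
  | empty => simp
  | insert a s ha ih =>
    have h1 : a.Prime := hI a (mem_insert_self a s)
    have h2 : ∀ ℓ ∈ s, ℓ.Prime := fun ℓ hℓ => hI ℓ (mem_insert_of_mem hℓ)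
    have h3 : ∏ ℓ ∈ s, ℓ ^ f ℓ ≠ 0 := Finset.prod_ne_zero_iff.2 fun ℓ hℓ => pow_ne_zero _ (h2 ℓ hℓ).ne_zero
    rw [Finset.prod_insert ha, Nat.factorization_mul (pow_ne_zero _ h1.ne_zero) h3, Finsupp.add_apply, ih h2,
      h1.factorization_pow, Finsupp.single_apply]
    by_cases h : ℓ₀ = a
    · subst h
      simp [ha]
    · rw [if_neg (Ne.symm h)]
      simp [mem_insert, h]

lemma mem_of_dvd_prod {I : Finset ℕ} (hI : ∀ ℓ ∈ I, ℓ.Prime) (f : ℕ → ℕ) {ℓ₀ : ℕ} (hℓ₀ : ℓ₀.Prime)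
    (h : ℓ₀ ∣ ∏ ℓ ∈ I, ℓ ^ f ℓ) : ℓ₀ ∈ I := by
  obtain ⟨ℓ, hℓ, hd⟩ := (hℓ₀.prime.exists_mem_finset_dvd h)
  have h1 := (Nat.prime_dvd_prime_iff_eq hℓ₀ (hI ℓ hℓ)).1 (hℓ₀.dvd_of_dvd_pow hd)
  rw [h1]
  exact hℓ

lemma prod_fac_dvd {I : Finset ℕ} (hI : ∀ ℓ ∈ I, ℓ.Prime) {r : ℕ} (hr : r ≠ 0) :
    ∏ ℓ ∈ I, ℓ ^ r.factorization ℓ ∣ r := by
  have h3 : ∏ ℓ ∈ I, ℓ ^ r.factorization ℓ ≠ 0 :=
    Finset.prod_ne_zero_iff.2 fun ℓ hℓ => pow_ne_zero _ (hI ℓ hℓ).ne_zero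
  rw [← Nat.factorization_prime_le_iff_dvd h3 hr]
  intro ℓ₀ _
  rw [fac_prod hI]
  split_ifs
  · exact le_rfl
  · exact Nat.zero_le _

lemma mkDat {I : Finset ℕ} (hI : ∀ ℓ ∈ I, ℓ.Prime) {q : ℕ} (hq : 1 < q) (hgood : ∀ ℓ ∈ I, Good ℓ q)
    (hsub : ∀ ℓ ∈ I, ℓ - 1 ∣ q - 1) (n : ℕ → ℕ) (hn : ∀ ℓ ∈ I, 2 * (q - 1).factorization ℓ ≤ n ℓ) :
    Dat (∏ ℓ ∈ I, ℓ ^ n ℓ) (∏ ℓ ∈ I, ℓ ^ (n ℓ - (q - 1).factorization ℓ))
      (∏ ℓ ∈ I, ℓ ^ (q - 1).factorization ℓ) q where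
  pos := Finset.prod_pos fun ℓ hℓ => Nat.pos_of_ne_zero (pow_ne_zero _ (hI ℓ hℓ).ne_zero)
  q1 := hq
  fac := by
    rw [← Finset.prod_mul_distrib]
    refine Finset.prod_congr rfl fun ℓ hℓ => ?_
    rw [← pow_add, Nat.sub_add_cancel]
    have := hn ℓ hℓ
    omega
  dvd := by
    refine Finset.prod_dvd_prod_of_dvd _ _ fun ℓ hℓ => pow_dvd_pow _ ?_
    have := hn ℓ hℓ
    omega
  Lq := prod_fac_dvd hI (by omega)
  good := fun ℓ hℓ hd => hgood ℓ (mem_of_dvd_prod hI n hℓ hd)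
  sub := fun ℓ hℓ hd => hsub ℓ (mem_of_dvd_prod hI n hℓ hd)
  part := fun ℓ hℓ hd => by
    rw [fac_prod hI, if_pos (mem_of_dvd_prod hI n hℓ hd)]

lemma exp_prime_pow {ℓ n e : ℕ} (hℓ : ℓ.Prime) (h : ℓ ^ n * (ℓ - 1) ∣ e) (U : (ZMod (ℓ ^ n))ˣ) : U ^ e = 1 := by
  rcases Nat.eq_zero_or_pos n with hn | hn
  · subst hn
    apply Units.ext
    have : Subsingleton (ZMod (ℓ ^ 0)) := by
      rw [pow_zero]
      infer_instance
    exact Subsingleton.elim _ _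
  · have h1 := ZMod.pow_totient U
    rw [Nat.totient_prime_pow hℓ hn] at h1
    obtain ⟨c, hc⟩ := h
    have h2 : ℓ ^ n = ℓ ^ (n - 1) * ℓ := by
      rw [← pow_succ]
      congr 1
      omega
    have h3 : ∀ e' : ℕ, e' = ℓ ^ (n - 1) * (ℓ - 1) * (ℓ * c) → U ^ e' = 1 := by
      intro e' he'
      rw [he', pow_mul, h1, one_pow]
    apply h3
    rw [hc, h2]
    ring

lemma exp_prod {R : Finset ℕ} (hR : ∀ ℓ ∈ R, ℓ.Prime) (n : ℕ → ℕ) {e : ℕ}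
    (h : ∀ ℓ ∈ R, ℓ ^ n ℓ * (ℓ - 1) ∣ e) : ∀ U : (ZMod (∏ ℓ ∈ R, ℓ ^ n ℓ))ˣ, U ^ e = 1 := by
  induction R using Finset.induction_on with
  | empty =>
    intro U
    apply Units.ext
    have : Subsingleton (ZMod (∏ ℓ ∈ (∅ : Finset ℕ), ℓ ^ n ℓ)) := by
      rw [Finset.prod_empty]
      infer_instance
    exact Subsingleton.elim _ _
  | insert a s ha ih =>
    have h1 : a.Prime := hR a (mem_insert_self a s)
    have h2 : ∀ ℓ ∈ s, ℓ.Prime := fun ℓ hℓ => hR ℓ (mem_insert_of_mem hℓ)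
    rw [Finset.prod_insert ha]
    refine exp_mul ?_ (exp_prime_pow h1 (h a (mem_insert_self a s))) (ih h2 fun ℓ hℓ => h ℓ (mem_insert_of_mem hℓ))
    refine Nat.Coprime.pow_left _ (Nat.Coprime.prod_right fun ℓ hℓ => Nat.Coprime.pow_right _ ?_)
    rw [Nat.coprime_primes h1 (h2 ℓ hℓ)]
    rintro rfl
    exact ha hℓ

end Pool.Agent.E8helper53.GS
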