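import Pool.Agent.E8helper53.GS.Lte
import Pool.Agent.E8helper53.GS.Norm

/-!
# The complex Teichmüller lift
-/

set_option autoImplicit false

namespace Pool.Agent.E8helper53.GS

open Finset Polynomial

/-- the Teichmüller elements modulo `ℓ ^ n` -/
def Teich (ℓ n : ℕ) (y : ZMod (ℓ ^ n)) : Prop :=
  (ℓ ≠ 2 → y ^ (ℓ - 1) = 1) ∧ (ℓ = 2 → y = 1 ∨ y = -1)

lemma pow_eq_one_of_dvd_sub {ℓ n : ℕ} (hℓ : ℓ.Prime) (h2 : ℓ ≠ 2) (hn : 1 ≤ n) (y : ZMod (ℓ ^ n))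
    (h : ¬ IsUnit (y - 1)) : y ^ ℓ ^ (n - 1) = 1 := by
  have : NeZero (ℓ ^ n) := ⟨pow_ne_zero _ hℓ.ne_zero⟩
  set c := (y - 1).val with hc
  have hcy : ((c : ℕ) : ZMod (ℓ ^ n)) = y - 1 := by rw [hc, ZMod.natCast_val, ZMod.cast_id', id_eq]
  have hd : ℓ ∣ c := by
    by_contra hcon
    apply h
    rw [← hcy, ZMod.isUnit_iff_coprime]
    exact Nat.Coprime.pow_right _ ((Nat.Prime.coprime_iff_not_dvd hℓ).2 hcon).symm
  obtain ⟨d, hd⟩ := hd
  have hG : Good ℓ (1 + c) := by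
    refine ⟨?_, fun h => absurd h h2⟩
    rw [hd, Nat.ModEq, Nat.add_mul_mod_self_left]
  obtain ⟨w, hw, -⟩ := lte_pow hℓ (by omega) hG (n - 1)
  have h1 : ℓ ^ n ∣ (1 + c) ^ ℓ ^ (n - 1) - 1 := by
    rw [hw, Nat.add_sub_cancel_left, hd]
    refine ⟨d * w, ?_⟩
    have : ℓ ^ n = ℓ * ℓ ^ (n - 1) := by
      rw [← pow_succ']
      congr 1
      omega
    rw [this]
    ring
  have h2 : (((1 + c) ^ ℓ ^ (n - 1) : ℕ) : ZMod (ℓ ^ n)) = 1 := by
    have h3 : 1 ≤ (1 + c) ^ ℓ ^ (n - 1) := Nat.one_le_pow _ _ (by omega)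
    have h4 := (Nat.modEq_iff_dvd' h3).2 h1
    have h5 := (ZMod.natCast_eq_natCast_iff _ _ _).2 h4
    rw [← h5, Nat.cast_one]
  push_cast at h2
  rw [hcy] at h2
  rw [← h2]
  congr 1
  ring

lemma exists_omega {ℓ n : ℕ} (hℓ : ℓ.Prime) (hn : 1 ≤ n) :
    ∃ (e : ℕ) (ω : ZMod (ℓ ^ n)), 0 < e ∧ e.totient = (ℓ - 1).totient ∧ ω ^ e = 1 ∧
      (cyclotomic e ℤ).eval₂ (Int.castRingHom (ZMod (ℓ ^ n))) ω = 0 ∧
      ∀ y, Teich ℓ n y → ∃ i, y = ω ^ i := by
  have : NeZero (ℓ ^ n) := ⟨pow_ne_zero _ hℓ.ne_zero⟩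
  by_cases h2 : ℓ = 2
  · subst h2
    refine ⟨2, -1, by norm_num, by norm_num, by norm_num, ?_, ?_⟩
    · rw [cyclotomic_two]
      simp
    · intro y hy
      rcases hy.2 rfl with h | h
      · exact ⟨0, by rw [h, pow_zero]⟩
      · exact ⟨1, by rw [h, pow_one]⟩
  · have hodd : 3 ≤ ℓ := by
      have := hℓ.two_le
      omega
    have hcyc := ZMod.isCyclic_units_of_prime_pow ℓ hℓ h2 n
    obtain ⟨γ, hγ⟩ := IsCyclic.exists_generator (α := (ZMod (ℓ ^ n))ˣ)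
    have hord : orderOf γ = ℓ ^ (n - 1) * (ℓ - 1) := by
      rw [orderOf_eq_card_of_forall_mem_zpowers hγ, Nat.card_eq_fintype_card, ZMod.card_units_eq_totient,
        Nat.totient_prime_pow hℓ (by omega)]
    set w₀ := γ ^ ℓ ^ (n - 1) with hw₀
    have hpos : 0 < ℓ ^ (n - 1) := Nat.pos_of_ne_zero (pow_ne_zero _ hℓ.ne_zero)
    have hw₀o : orderOf w₀ = ℓ - 1 := by
      rw [hw₀, orderOf_pow' γ hpos.ne', hord, Nat.gcd_eq_right (dvd_mul_right _ _),
        Nat.mul_div_cancel_left _ hpos]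
    refine ⟨ℓ - 1, (w₀ : ZMod (ℓ ^ n)), by omega, rfl, ?_, ?_, ?_⟩
    · rw [← Units.val_pow_eq_pow_val, ← hw₀o, pow_orderOf_eq_one, Units.val_one]
    · -- the cyclotomic polynomial
      have h1 := prod_cyclotomic_eq_X_pow_sub_one (show 0 < ℓ - 1 by omega) ℤ
      have h3 := congrArg (fun P => P.eval₂ (Int.castRingHom (ZMod (ℓ ^ n))) (w₀ : ZMod (ℓ ^ n))) h1
      simp only [eval₂_finsetProd, eval₂_sub, eval₂_pow, eval₂_X, eval₂_one] at h3
      rw [← Units.val_pow_eq_pow_val, ← hw₀o, pow_orderOf_eq_one, Units.val_one, sub_self, hw₀o] at h3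
      rw [← Nat.insert_self_properDivisors (show ℓ - 1 ≠ 0 by omega),
        Finset.prod_insert Nat.self_notMem_properDivisors] at h3
      have hu : IsUnit (∏ d ∈ (ℓ - 1).properDivisors,
          (cyclotomic d ℤ).eval₂ (Int.castRingHom (ZMod (ℓ ^ n))) (w₀ : ZMod (ℓ ^ n))) := by
        rw [IsUnit.prod_iff]
        intro d hd
        obtain ⟨hd1, hd2⟩ := Nat.mem_properDivisors.1 hd
        have hd0 : 0 < d := Nat.pos_of_dvd_of_pos hd1 (by omega)
        -- it divides `ω ^ d - 1`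
        have h4 : (cyclotomic d ℤ).eval₂ (Int.castRingHom (ZMod (ℓ ^ n))) (w₀ : ZMod (ℓ ^ n)) ∣
            (w₀ : ZMod (ℓ ^ n)) ^ d - 1 := by
          obtain ⟨P, hP⟩ := cyclotomic.dvd_X_pow_sub_one d ℤ
          have h5 := congrArg (fun P => P.eval₂ (Int.castRingHom (ZMod (ℓ ^ n))) (w₀ : ZMod (ℓ ^ n))) hP
          simp only [eval₂_mul, eval₂_sub, eval₂_pow, eval₂_X, eval₂_one] at h5
          exact ⟨_, h5⟩
        refine isUnit_of_dvd_unit h4 ?_
        by_contra hcon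
        have h5 := pow_eq_one_of_dvd_sub hℓ h2 hn _ hcon
        rw [← pow_mul, ← Units.val_pow_eq_pow_val, ← Units.val_one] at h5
        have h6 := orderOf_dvd_of_pow_eq_one (Units.ext h5)
        rw [hw₀o] at h6
        have h7 : (ℓ - 1).Coprime (ℓ ^ (n - 1)) := by
          apply Nat.Coprime.pow_right
          have := (Nat.coprime_self_sub_right (m := 1) (n := ℓ) (by omega)).2 (Nat.coprime_one_right ℓ)
          exact this.symm
        have h8 := Nat.le_of_dvd hd0 (h7.dvd_of_dvd_mul_right h6)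
        omega
      exact (hu.mul_left_eq_zero).1 h3
    · intro y hy
      have hy1 := hy.1 h2
      have hyu : IsUnit y := by
        refine IsUnit.of_pow_eq_one hy1 (by omega)
      obtain ⟨Y, rfl⟩ := hyu
      obtain ⟨a, ha⟩ := mem_powers_iff_mem_zpowers.2 (hγ Y)
      have ha' : γ ^ a = Y := ha
      have h3 : γ ^ (a * (ℓ - 1)) = 1 := by
        rw [pow_mul, ha']
        apply Units.ext
        rw [Units.val_pow_eq_pow_val, hy1, Units.val_one]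
      have h4 := orderOf_dvd_of_pow_eq_one h3
      rw [hord] at h4
      obtain ⟨b, hb⟩ := Nat.dvd_of_mul_dvd_mul_right (by omega) h4
      refine ⟨b, ?_⟩
      rw [← ha', hb, hw₀, ← Units.val_pow_eq_pow_val, ← pow_mul]

theorem exists_theta {ℓ n : ℕ} (hℓ : ℓ.Prime) (hn : 1 ≤ n) :
    ∃ θ : ZMod (ℓ ^ n) → ℂ, (∀ y, Teich ℓ n y → ‖θ y‖ = 1) ∧
      (∀ y y', Teich ℓ n y → Teich ℓ n y' → θ y = θ y' → y = y') ∧
      (∀ (ι : Type) (s : Finset ι) (c : ι → ℤ) (y : ι → ZMod (ℓ ^ n)), (∀ j ∈ s, Teich ℓ n (y j)) →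
        ∑ j ∈ s, (c j : ZMod (ℓ ^ n)) * y j = 0 → (∑ j ∈ s, |c j|) ^ (ℓ - 1).totient < ((ℓ ^ n : ℕ) : ℤ) →
        ∑ j ∈ s, (c j : ℂ) * θ (y j) = 0) := by
  obtain ⟨e, ω, he, het, hωe, hcyc, hT⟩ := exists_omega hℓ hn
  have hζ := Complex.isPrimitiveRoot_exp e he.ne'
  set ζ := Complex.exp (2 * Real.pi * Complex.I / e) with hζd
  choose! i hi using hT
  refine ⟨fun y => ζ ^ i y, ?_, ?_, ?_⟩
  · intro y _
    rw [norm_pow, hζ.norm'_eq_one he.ne', one_pow]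
  · intro y y' hy hy' h
    rw [hi y hy, hi y' hy']
    have h1 : i y ≡ i y' [MOD e] := by
      obtain ⟨Z, hZ⟩ := hζ.isUnit he.ne'
      have hZ2 : Z ^ i y = Z ^ i y' := by
        apply Units.ext
        rw [Units.val_pow_eq_pow_val, Units.val_pow_eq_pow_val, hZ]
        exact h
      have := (pow_inj_mod (x := Z)).1 hZ2
      rw [← orderOf_units, hZ, ← hζ.eq_orderOf] at this
      exact this
    rw [← Nat.mod_add_div (i y) e, ← Nat.mod_add_div (i y') e, pow_add, pow_add, pow_mul, pow_mul, hωe, one_pow,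
      one_pow, mul_one, mul_one, h1]
  · intro ι s c y hy h0 hsmall
    refine lift_small he ω hcyc hζ s c (fun j => i (y j)) ?_ (by rw [het]; exact hsmall)
    rw [← h0]
    refine Finset.sum_congr rfl fun j hj => ?_
    rw [← hi (y j) (hy j hj)]

end Pool.Agent.E8helper53.GS
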