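import Pool.Agent.E8helper53.GS.RelC

/-!
# Uniqueness of the extreme term
-/

set_option autoImplicit false

namespace Pool.Agent.E8helper53.GS

open Finset Polynomial Pool.Agent.Y18.GX Pool.Agent.E8helper53.GR

/-- if `L a = 0` then multiples of `a` depend on the multiplier modulo `L` -/
lemma mul_eq_of_modEq {M L : ℕ} {a : ZMod M} (ha : (L : ZMod M) * a = 0) {x y : ℕ} (h : x ≡ y [MOD L]) :
    (x : ZMod M) * a = y * a := by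
  obtain ⟨c, hc⟩ := (Nat.modEq_iff_dvd.1 h)
  have h1 : ((y : ℤ) : ZMod M) - ((x : ℤ) : ZMod M) = L * (c : ZMod M) := by
    rw [← Int.cast_sub, hc]
    push_cast
    rfl
  push_cast at h1
  have h2 : (y : ZMod M) * a - x * a = 0 := by
    rw [← sub_mul, h1]
    linear_combination (c : ZMod M) * ha
  exact (sub_eq_zero.1 h2).symm

lemma Dat.L_mul_sub {M M' L q : ℕ} [NeZero M] (D : Dat M M' L q) {h h' : (ZMod M)ˣ}
    (hc : vv h ≡ vv h' [MOD M']) : (L : ZMod M) * ((h : ZMod M) - h') = 0 := by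
  have h1 : L * vv h ≡ L * vv h' [MOD M] := by
    refine Nat.ModEq.of_dvd ?_ (Nat.ModEq.mul_left' L hc)
    rw [mul_comm, ← D.fac]
  have h2 := (ZMod.natCast_eq_natCast_iff _ _ _).2 h1
  push_cast at h2
  rw [vv_cast, vv_cast] at h2
  rw [mul_sub, h2, sub_self]

/-- the extreme term is unique -/
lemma Dat.uniq {M M' L q : ℕ} [NeZero M] (D : Dat M M' L q) (Θ : ℕ → (ZMod M)ˣ → ℂ)
    (h1 : ∀ ℓ, ℓ.Prime → ℓ ∣ M → ∀ h ∈ HH M q, ‖Θ ℓ h‖ = 1)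
    (h3 : ∀ h ∈ HH M q, ∀ h' ∈ HH M q, (∀ ℓ, ℓ.Prime → ℓ ∣ M → Θ ℓ h = Θ ℓ h') → vv h ≡ vv h' [MOD M'])
    (h4 : ∀ ℓ, ℓ.Prime → ℓ ∣ M → ∀ (ι : Type) (s : Finset ι) (c : ι → ℤ) (y : ι → (ZMod M)ˣ),
      (∀ j ∈ s, y j ∈ HH M q) → (M' : ℤ) ∣ ∑ j ∈ s, c j * (vv (y j) : ℤ) →
      (∑ j ∈ s, |c j|) ^ (ℓ - 1).totient < ((ℓ ^ M'.factorization ℓ : ℕ) : ℤ) →
      ∑ j ∈ s, (c j : ℂ) * Θ ℓ (y j) = 0)
    {ℓ₁ : ℕ} (hℓ₁ : ℓ₁.Prime) (hd₁ : ℓ₁ ∣ M) (τ : ℂ) (T : Finset (ZMod L)) (ρ : ZMod L → (ZMod M)ˣ)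
    (hρ : ∀ t ∈ T, ρ t ∈ HH M q) (hpos : ∀ t ∈ T, 0 < (τ * Θ ℓ₁ (ρ t)).re)
    (hkey : ∀ t ∈ T, ((vv (ρ t) : ℕ) : ZMod L) = t) {E : ℕ} (hE : 0 < E)
    (hsize : ∀ ℓ, ℓ.Prime → ℓ ∣ M → (2 * E * L) ^ (ℓ - 1).totient < ℓ ^ M'.factorization ℓ)
    {t t₁ : ZMod L} (ht : t ∈ T) (ht₁ : t₁ ∈ T) {J : Finset (ZMod L)} (hJ : J ⊆ T.erase t) {x x₁ : ℕ}
    (hx : x < E) (hx0 : x ≠ 0) (hx₁ : x₁ < E)
    (hmin : (x₁ : ℝ) * (τ * Θ ℓ₁ (ρ t₁)).re ≤ (x : ℝ) * (τ * Θ ℓ₁ (ρ t)).re)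
    (hL : (L : ZMod M) * (((x : ZMod M) * ρ t + E * ∑ t' ∈ J, (ρ t' : ZMod M)) - x₁ * ρ t₁) = 0) :
    t = t₁ ∧ J = ∅ ∧ x = x₁ := by
  have hL0 := D.L0
  have hNL : NeZero L := ⟨hL0⟩
  have hJT : ∀ t' ∈ J, t' ∈ T := fun t' ht' => mem_of_mem_erase (hJ ht')
  have hJcard : J.card + 1 ≤ L := by
    have e1 : J.card ≤ (T.erase t).card := card_le_card hJ
    rw [card_erase_of_mem ht] at e1
    have e2 : T.card ≤ L := by
      have := card_le_univ T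
      rwa [ZMod.card] at this
    have e3 : 0 < T.card := card_pos.2 ⟨t, ht⟩
    omega
  set c : Option (Option (ZMod L)) → ℤ := fun o => o.elim (-(x₁ : ℤ)) (fun o' => o'.elim (x : ℤ) (fun _ => (E : ℤ)))
    with hc
  set y : Option (Option (ZMod L)) → (ZMod M)ˣ := fun o => o.elim (ρ t₁) (fun o' => o'.elim (ρ t) ρ) with hy
  have hsum : ∀ (β : Type) [AddCommMonoid β] (f : Option (Option (ZMod L)) → β),
      ∑ o ∈ insertNone (insertNone J), f o = f none + (f (some none) + ∑ t' ∈ J, f (some (some t'))) := by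
    intro β _ f
    rw [Finset.sum_insertNone, Finset.sum_insertNone]
  -- the divisibility
  have hdvd : (M' : ℤ) ∣ ∑ j ∈ insertNone (insertNone J), c j * (vv (y j) : ℤ) := by
    rw [hsum]
    simp only [hc, hy, Option.elim_none, Option.elim_some]
    set Z : ℤ := -(x₁ : ℤ) * (vv (ρ t₁) : ℤ) + ((x : ℤ) * (vv (ρ t) : ℤ) + ∑ t' ∈ J, (E : ℤ) * (vv (ρ t') : ℤ))
      with hZ
    have e1 : ((L : ℤ) * Z : ℤ) = (((L : ℤ) * Z : ℤ)) := rfl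
    have e2 : (((L : ℤ) * Z : ℤ) : ZMod M) = 0 := by
      rw [hZ, ← hL]
      push_cast
      simp only [vv_cast]
      rw [Finset.mul_sum]
      ring
    rw [ZMod.intCast_zmod_eq_zero_iff_dvd, D.fac] at e2
    push_cast at e2
    rw [mul_comm (M' : ℤ) L] at e2
    exact Int.dvd_of_mul_dvd_mul_left (by exact_mod_cast hL0) e2
  have hyH : ∀ j ∈ insertNone (insertNone J), y j ∈ HH M q := by
    intro j hj
    rcases j with _ | _ | j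
    · exact hρ t₁ ht₁
    · exact hρ t ht
    · rw [Finset.some_mem_insertNone, Finset.some_mem_insertNone] at hj
      exact hρ j (hJT j hj)
  have hab : (∑ j ∈ insertNone (insertNone J), |c j|) ≤ ((2 * E * L : ℕ) : ℤ) := by
    rw [hsum]
    simp only [hc, Option.elim_none, Option.elim_some, abs_neg, Nat.abs_cast, Finset.sum_const, nsmul_eq_mul]
    have e1 : x₁ + (x + J.card * E) ≤ 2 * E * L := by
      have e2 : (J.card + 1) * E ≤ L * E := Nat.mul_le_mul_right _ hJcard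
      have e3 : 1 * E ≤ L * E := Nat.mul_le_mul_right _ (by omega)
      calc x₁ + (x + J.card * E) ≤ E + (E + J.card * E) := by omega
        _ = 1 * E + (J.card + 1) * E := by ring
        _ ≤ L * E + L * E := by omega
        _ = 2 * E * L := by ring
    exact_mod_cast e1
  have hlift : ∀ ℓ, ℓ.Prime → ℓ ∣ M →
      (x : ℂ) * Θ ℓ (ρ t) + ∑ t' ∈ J, (E : ℂ) * Θ ℓ (ρ t') = x₁ * Θ ℓ (ρ t₁) := by
    intro ℓ hℓ hd
    have e1 := h4 ℓ hℓ hd _ (insertNone (insertNone J)) c y hyH hdvd (by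
      have e2 : (0 : ℤ) ≤ ∑ j ∈ insertNone (insertNone J), |c j| := Finset.sum_nonneg fun _ _ => abs_nonneg _
      refine lt_of_le_of_lt (pow_le_pow_left₀ e2 hab _) ?_
      exact_mod_cast hsize ℓ hℓ hd)
    rw [hsum] at e1
    simp only [hc, hy, Option.elim_none, Option.elim_some] at e1
    push_cast at e1
    linear_combination e1
  -- `J` is empty
  have hJ0 : J = ∅ := by
    by_contra hne
    have hJne := Finset.nonempty_iff_ne_empty.2 hne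
    have e1 : (τ * ((x : ℂ) * Θ ℓ₁ (ρ t) + ∑ t' ∈ J, (E : ℂ) * Θ ℓ₁ (ρ t'))).re =
        (τ * ((x₁ : ℂ) * Θ ℓ₁ (ρ t₁))).re := by rw [hlift ℓ₁ hℓ₁ hd₁]
    have e2 : (τ * ((x : ℂ) * Θ ℓ₁ (ρ t) + ∑ t' ∈ J, (E : ℂ) * Θ ℓ₁ (ρ t'))).re =
        x * (τ * Θ ℓ₁ (ρ t)).re + E * ∑ t' ∈ J, (τ * Θ ℓ₁ (ρ t')).re := by
      rw [mul_add, Complex.add_re, Finset.mul_sum, Complex.re_sum, Finset.mul_sum]
      congr 1
      · rw [show τ * ((x : ℂ) * Θ ℓ₁ (ρ t)) = (x : ℂ) * (τ * Θ ℓ₁ (ρ t)) by ring, ← nsmul_eq_mul,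
          Complex.re_nsmul, nsmul_eq_mul]
      · refine Finset.sum_congr rfl fun t' _ => ?_
        rw [show τ * ((E : ℂ) * Θ ℓ₁ (ρ t')) = (E : ℂ) * (τ * Θ ℓ₁ (ρ t')) by ring, ← nsmul_eq_mul,
          Complex.re_nsmul, nsmul_eq_mul]
    have e3 : (τ * ((x₁ : ℂ) * Θ ℓ₁ (ρ t₁))).re = x₁ * (τ * Θ ℓ₁ (ρ t₁)).re := by
      rw [show τ * ((x₁ : ℂ) * Θ ℓ₁ (ρ t₁)) = (x₁ : ℂ) * (τ * Θ ℓ₁ (ρ t₁)) by ring, ← nsmul_eq_mul,
          Complex.re_nsmul, nsmul_eq_mul]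
    rw [e2, e3] at e1
    have e4 : 0 < ∑ t' ∈ J, (τ * Θ ℓ₁ (ρ t')).re := Finset.sum_pos (fun t' ht' => hpos t' (hJT t' ht')) hJne
    have e5 : (0 : ℝ) < E := by exact_mod_cast hE
    have e6 := mul_pos e5 e4
    linarith
  subst hJ0
  have hlift' : ∀ ℓ, ℓ.Prime → ℓ ∣ M → (x : ℂ) * Θ ℓ (ρ t) = x₁ * Θ ℓ (ρ t₁) := by
    intro ℓ hℓ hd
    have := hlift ℓ hℓ hd
    rwa [Finset.sum_empty, add_zero] at this
  have hxx : x = x₁ := by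
    have e1 := congrArg norm (hlift' ℓ₁ hℓ₁ hd₁)
    rw [norm_mul, norm_mul, h1 ℓ₁ hℓ₁ hd₁ _ (hρ t ht), h1 ℓ₁ hℓ₁ hd₁ _ (hρ t₁ ht₁), mul_one, mul_one,
      Complex.norm_natCast, Complex.norm_natCast] at e1
    exact_mod_cast e1
  refine ⟨?_, rfl, hxx⟩
  have e1 : vv (ρ t) ≡ vv (ρ t₁) [MOD M'] := by
    refine h3 _ (hρ t ht) _ (hρ t₁ ht₁) fun ℓ hℓ hd => ?_
    have e2 := hlift' ℓ hℓ hd
    rw [← hxx] at e2
    exact mul_left_cancel₀ (by exact_mod_cast hx0) e2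
  have e2 := (ZMod.natCast_eq_natCast_iff _ _ _).2 (e1.of_dvd D.dvd)
  rw [hkey t ht, hkey t₁ ht₁] at e2
  exact e2

end Pool.Agent.E8helper53.GS
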